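import Pool.Agent.helper96.DP.API

/-!
# The two gates: cell sets and statements (project dp)

Cells are `cel x ℓ p = x + 2 ℓ p`; the gate region is the annulus `64 ℓ ≤ sd x v ≤ 128 ℓ`, cells `p`
with `32 ≤ |p| ≤ 64`. All loops of the gates lie in `61 ℓ < sd x v < 131 ℓ`.

Gate `true`: black cells = right ray `(32, 0), ..., (64, 0)`, white cells = all cells of the
annulus at grid distance at least three from it.
Gate `false`: white cells = an axis parallel spiral with two full turns from `(0, 32)` to `(0, 64)`,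
black cells = all cells of the annulus at grid distance at least three from it.
-/

namespace DP.Gate

open DP

/-- Cells. -/
def cel (x : V) (ℓ : ℕ) (p : ℤ × ℤ) : V := (x.1 + 2 * ℓ * p.1, x.2 + 2 * ℓ * p.2)

/-- Integer rectangle. -/
def Rc (a b d e : ℤ) (p : ℤ × ℤ) : Prop := a ≤ p.1 ∧ p.1 ≤ b ∧ d ≤ p.2 ∧ p.2 ≤ e

instance (a b d e : ℤ) : DecidablePred (Rc a b d e) := fun p => by unfold Rc; infer_instance

/-- Cells of the annulus. -/
def annC (p : ℤ × ℤ) : Prop := (p.1 ≤ -32 ∨ 32 ≤ p.1 ∨ p.2 ≤ -32 ∨ 32 ≤ p.2) ∧ Rc (-64) 64 (-64) 64 p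

instance : DecidablePred annC := fun p => by unfold annC; infer_instance

/-- Cells at distance at most two from the right ray. -/
def near1 (p : ℤ × ℤ) : Prop := Rc 30 66 (-2) 2 p

instance : DecidablePred near1 := fun p => by unfold near1; infer_instance

/-- The centre line of the spiral. -/
def spi (p : ℤ × ℤ) : Prop :=
  Rc 0 0 32 35 p ∨ Rc (-35) 0 35 35 p ∨ Rc (-35) (-35) (-38) 35 p ∨ Rc (-35) 41 (-38) (-38) p ∨
    Rc 41 41 (-38) 44 p ∨ Rc (-47) 41 44 44 p ∨ Rc (-47) (-47) (-50) 44 p ∨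
    Rc (-47) 53 (-50) (-50) p ∨ Rc 53 53 (-50) 56 p ∨ Rc 0 53 56 56 p ∨ Rc 0 0 56 64 p

instance : DecidablePred spi := fun p => by unfold spi; infer_instance

/-- Cells at distance at most two from the spiral. -/
def near2 (p : ℤ × ℤ) : Prop :=
  Rc (-2) 2 30 37 p ∨ Rc (-37) 2 33 37 p ∨ Rc (-37) (-33) (-40) 37 p ∨
    Rc (-37) 43 (-40) (-36) p ∨ Rc 39 43 (-40) 46 p ∨ Rc (-49) 43 42 46 p ∨
    Rc (-49) (-45) (-52) 46 p ∨ Rc (-49) 55 (-52) (-48) p ∨ Rc 51 55 (-52) 58 p ∨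
    Rc (-2) 55 54 58 p ∨ Rc (-2) 2 54 66 p

instance : DecidablePred near2 := fun p => by unfold near2; infer_instance

/-- All cells of the annulus. -/
@[irreducible] noncomputable def annF : Finset (ℤ × ℤ) := (Finset.Icc (-64) 64 ×ˢ Finset.Icc (-64) 64).filter annC

/-- Black cells of the gate `j`. -/
@[irreducible] noncomputable def Bc (j : Bool) : Finset (ℤ × ℤ) :=
  if j then annF.filter (Rc 32 64 0 0) else annF.filter fun p => ¬ near2 p

/-- White cells of the gate `j`. -/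
@[irreducible] noncomputable def Wc (j : Bool) : Finset (ℤ × ℤ) :=
  if j then annF.filter (fun p => ¬ near1 p) else annF.filter spi

/-- The gate event. -/
def GateEv (j : Bool) (x : V) (ℓ : ℕ) (c : V → Bool) : Prop :=
  (∀ p ∈ Bc j, ∃ S, Loop c true (cel x ℓ p) ℓ S) ∧ ∀ p ∈ Wc j, ∃ S, Loop c false (cel x ℓ p) ℓ S

/-- Neighbouring cells. -/
def cnb (p q : ℤ × ℤ) : Prop :=
  q = (p.1 + 1, p.2) ∨ q = (p.1 - 1, p.2) ∨ q = (p.1, p.2 + 1) ∨ q = (p.1, p.2 - 1)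

/-- Connection by neighbouring cells of `A`. -/
def CCon (A : Finset (ℤ × ℤ)) (p q : ℤ × ℤ) : Prop :=
  p ∈ A ∧ Relation.ReflTransGen (fun a b => cnb a b ∧ b ∈ A) p q

/-- The dichotomy: a connected set which crosses the annulus meets all black arms in every
colouring with gate `true` or all white arms in every colouring with gate `false`. -/
def GATE_stmt : Prop :=
  ∀ (x : V) (ℓ : ℕ), 1 ≤ ℓ → ∀ (γ : Set V) (u v : V), Con γ u v → sd x u ≤ 48 * ℓ →
    144 * ℓ ≤ sd x v →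
    (∀ c : V → Bool, GateEv true x ℓ c → ∀ (W : Set V) (a b : V), (∀ w ∈ W, c w = true) →
      Con W a b → sd x a ≤ 64 * ℓ → 128 * ℓ ≤ sd x b → (W ∩ γ).Nonempty) ∨
    (∀ c : V → Bool, GateEv false x ℓ c → ∀ (W : Set V) (a b : V), (∀ w ∈ W, c w = false) →
      Con W a b → sd x a ≤ 64 * ℓ → 128 * ℓ ≤ sd x b → (W ∩ γ).Nonempty)

/-- Opposite cells are at distance at least three; the cells are in the annulus; the landing
points are connected. -/
def GATEC_stmt : Prop :=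
  ∀ j : Bool, (∀ p ∈ Bc j, ∀ q ∈ Wc j, 3 ≤ p.1 - q.1 ∨ 3 ≤ q.1 - p.1 ∨ 3 ≤ p.2 - q.2 ∨
      3 ≤ q.2 - p.2) ∧
    (∀ p ∈ Bc j, annC p) ∧ (∀ p ∈ Wc j, annC p) ∧ CCon (Bc j) (32, 0) (64, 0) ∧
    CCon (Wc j) (0, 32) (0, 64)

/-- Loops around different connected cells are connected. -/
def LOOPS_stmt : Prop :=
  ∀ (c : V → Bool) (k : Bool) (x : V) (ℓ : ℕ) (A : Finset (ℤ × ℤ)),
    (∀ p ∈ A, ∃ S, Loop c k (cel x ℓ p) ℓ S) → ∀ p q : ℤ × ℤ, CCon A p q → p ≠ q →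
      ∀ S S' : Set V, Loop c k (cel x ℓ p) ℓ S → Loop c k (cel x ℓ q) ℓ S' → ∀ z ∈ S, ∀ z' ∈ S',
        Conn c k {w | ∃ r ∈ A, sd (cel x ℓ r) w < 3 * ℓ} z z'

end DP.Gate
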