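import Pool.Agent.helper98.DP.RTBCurve

/-!
# Estimates for the curves (project dp, module RTB)
-/

namespace DP.Polar

open DP

theorem smul_sub_smul (r r' : ℝ) (a b : ℝ) :
    r • E a - r' • E b = (r - r') • E a + r' • (E a - E b) := by
  rw [sub_smul, smul_sub]
  abel

theorem upper (r r' a b : ℝ) : ‖r • E a - r' • E b‖ ≤ |r - r'| + |r'| * |a - b| := by
  rw [smul_sub_smul]
  refine (norm_add_le _ _).trans ?_
  rw [norm_smul, norm_smul, E_norm, mul_one, Real.norm_eq_abs, Real.norm_eq_abs]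
  have := mul_le_mul_of_nonneg_left (E_lip a b) (abs_nonneg r')
  linarith

theorem lower_rad (r r' a b : ℝ) (hr : 0 ≤ r) (hr' : 0 ≤ r') :
    |r - r'| ≤ ‖r • E a - r' • E b‖ := by
  have := abs_norm_sub_norm_le (r • E a) (r' • E b)
  rwa [norm_smul, norm_smul, E_norm, E_norm, mul_one, mul_one, Real.norm_eq_abs, Real.norm_eq_abs,
    abs_of_nonneg hr, abs_of_nonneg hr'] at this

theorem lower_ang (r r' a b : ℝ) (hr' : 0 ≤ r') :
    r' * ‖E a - E b‖ - |r - r'| ≤ ‖r • E a - r' • E b‖ := by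
  have h := norm_sub_norm_le (r' • (E a - E b)) (-((r - r') • E a))
  rw [sub_neg_eq_add, add_comm (r' • (E a - E b)), ← smul_sub_smul, norm_neg, norm_smul, norm_smul,
    E_norm, mul_one, Real.norm_eq_abs, Real.norm_eq_abs, abs_of_nonneg hr'] at h
  linarith

/-- Relative radius. -/
noncomputable def rho (s : Bool) (τ : ℝ) : ℝ := if s = true then 1 + τ else 1 - τ / 2

/-- Interpolation parameter. -/
noncomputable def lam (τ : ℝ) : ℝ := min 1 (2 * τ)

/-- Angle. -/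
noncomputable def ang (a b τ : ℝ) : ℝ := a + lam τ * (b - a)

/-- The curve. -/
noncomputable def Fc (s : Bool) (n a b τ : ℝ) : ℝ × ℝ := (n * rho s τ) • E (ang a b τ)

theorem rho_bd (s : Bool) (τ : ℝ) (h0 : 0 ≤ τ) (h1 : τ ≤ 5 / 4) : 3 / 8 ≤ rho s τ ∧ rho s τ ≤ 9 / 4 := by
  unfold rho
  split_ifs <;> constructor <;> linarith

theorem rho_diff (s : Bool) (τ τ' : ℝ) : |rho s τ - rho s τ'| ≤ |τ - τ'| ∧
    |τ - τ'| ≤ 2 * |rho s τ - rho s τ'| := by
  unfold rho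
  split_ifs
  · have e : 1 + τ - (1 + τ') = τ - τ' := by ring
    rw [e]
    have := abs_nonneg (τ - τ')
    constructor <;> linarith
  · have e : 1 - τ / 2 - (1 - τ' / 2) = -((τ - τ') / 2) := by ring
    rw [e, abs_neg, abs_div, abs_of_pos (show (0 : ℝ) < 2 by norm_num)]
    have := abs_nonneg (τ - τ')
    constructor <;> linarith

theorem lam_lip (τ τ' : ℝ) : |lam τ - lam τ'| ≤ 2 * |τ - τ'| := by
  unfold lam
  have h2 := abs_min_sub_min_le_max 1 (2 * τ) 1 (2 * τ')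
  rw [sub_self, abs_zero] at h2
  have e : 2 * τ - 2 * τ' = 2 * (τ - τ') := by ring
  rw [e, abs_mul, abs_of_pos (show (0 : ℝ) < 2 by norm_num)] at h2
  exact h2.trans (max_le (by positivity) le_rfl)

theorem ang_lip (a b τ τ' : ℝ) (hab : |b - a| ≤ 16) : |ang a b τ - ang a b τ'| ≤ 32 * |τ - τ'| := by
  unfold ang
  have e : a + lam τ * (b - a) - (a + lam τ' * (b - a)) = (lam τ - lam τ') * (b - a) := by ring
  rw [e, abs_mul]
  have h := lam_lip τ τ'
  have := mul_le_mul h hab (abs_nonneg _) (by positivity)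
  linarith

theorem lam_zero : lam 0 = 0 := by
  unfold lam
  rw [mul_zero]
  exact min_eq_right (by norm_num)

theorem lam_one (τ : ℝ) (h : 1 / 2 ≤ τ) : lam τ = 1 := by
  unfold lam
  exact min_eq_left (by linarith)

theorem lam_mem (τ : ℝ) (h : 0 ≤ τ) : 0 ≤ lam τ ∧ lam τ ≤ 1 := by
  unfold lam
  exact ⟨le_min (by norm_num) (by linarith), min_le_left _ _⟩

theorem ang_zero (a b : ℝ) : ang a b 0 = a := by
  unfold ang
  rw [lam_zero]
  ring

theorem ang_one (a b τ : ℝ) (h : 1 / 2 ≤ τ) : ang a b τ = b := by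
  unfold ang
  rw [lam_one τ h]
  ring

theorem Fc_norm (s : Bool) (n a b τ : ℝ) (hn : 0 < n) (h0 : 0 ≤ τ) (h1 : τ ≤ 5 / 4) :
    ‖Fc s n a b τ‖ = n * rho s τ := by
  unfold Fc
  rw [norm_smul, E_norm, mul_one, Real.norm_eq_abs, abs_of_nonneg]
  have := (rho_bd s τ h0 h1).1
  positivity

/-- Step. -/
theorem Fc_step (s : Bool) (n a b τ τ' : ℝ) (hn : 0 < n) (h0 : 0 ≤ τ') (h1 : τ' ≤ 5 / 4)
    (hab : |b - a| ≤ 16) : ‖Fc s n a b τ - Fc s n a b τ'‖ ≤ 73 * n * |τ - τ'| := by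
  unfold Fc
  refine (upper _ _ _ _).trans ?_
  have h2 := (rho_diff s τ τ').1
  have h3 := ang_lip a b τ τ' hab
  have h4 := rho_bd s τ' h0 h1
  have e : n * rho s τ - n * rho s τ' = n * (rho s τ - rho s τ') := by ring
  rw [e, abs_mul, abs_mul, abs_of_pos hn, abs_of_pos (show 0 < rho s τ' by linarith [h4.1])]
  have h5 : n * |rho s τ - rho s τ'| ≤ n * |τ - τ'| := mul_le_mul_of_nonneg_left h2 hn.le
  have h6 : n * rho s τ' * |ang a b τ - ang a b τ'| ≤ n * (9 / 4) * (32 * |τ - τ'|) := by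
    apply mul_le_mul _ h3 (abs_nonneg _) (by positivity)
    exact mul_le_mul_of_nonneg_left h4.2 hn.le
  linarith

theorem Fc_zero (s : Bool) (n a b : ℝ) : Fc s n a b 0 = n • E a := by
  unfold Fc rho
  rw [ang_zero]
  split_ifs <;> simp

/-- Distance from the start. -/
theorem Fc_start (s : Bool) (n a b τ : ℝ) (hn : 0 < n) (h0 : 0 ≤ τ) (hab : |b - a| ≤ 16) :
    ‖Fc s n a b τ - n • E a‖ ≤ 33 * n * τ := by
  unfold Fc
  refine (upper _ _ _ _).trans ?_
  have h2 : |rho s τ - rho s 0| ≤ |τ - 0| := (rho_diff s τ 0).1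
  have h3 := ang_lip a b τ 0 hab
  rw [ang_zero, sub_zero, abs_of_nonneg h0] at h3
  rw [sub_zero, abs_of_nonneg h0] at h2
  have hr : rho s 0 = 1 := by unfold rho; split_ifs <;> simp
  rw [hr] at h2
  have e : n * rho s τ - n = n * (rho s τ - 1) := by ring
  rw [e, abs_mul, abs_of_pos hn]
  have h5 : n * |rho s τ - 1| ≤ n * τ := mul_le_mul_of_nonneg_left h2 hn.le
  have h6 : n * |ang a b τ - a| ≤ n * (32 * τ) := mul_le_mul_of_nonneg_left h3 hn.le
  linarith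

/-- Near the initial circle the curve is near its starting point. -/
theorem cond_A (s : Bool) (n W a b τ : ℝ) (p q v : ℝ × ℝ) (hn : 0 < n) (hW : 16 ≤ W)
    (h0 : 0 ≤ τ) (h1 : τ ≤ 5 / 4) (hab : |b - a| ≤ 16) (hp : p = n • E a)
    (hq : ‖q - Fc s n a b τ‖ ≤ 1 / 2) (hv : ‖q - v‖ ≤ 5 * W)
    (hs : if s = true then ‖v‖ ≤ n else n ≤ ‖v‖) : ‖p - v‖ ≤ 512 * W := by
  have hF := Fc_norm s n a b τ hn h0 h1
  have h2 : ‖Fc s n a b τ - v‖ ≤ 5 * W + 1 / 2 := by
    have := norm_sub_le_norm_sub_add_norm_sub (Fc s n a b τ) q v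
    rw [norm_sub_rev (Fc s n a b τ) q] at this
    linarith
  have h3 : n * τ ≤ 10 * W + 1 := by
    have h4 := abs_norm_sub_norm_le (Fc s n a b τ) v
    rw [abs_le] at h4
    unfold rho at hF
    split_ifs at hs hF with hs'
    · nlinarith [h4.1, h4.2]
    · nlinarith [h4.1, h4.2]
  have h5 := Fc_start s n a b τ hn h0 hab
  rw [hp]
  have h6 := norm_sub_le_norm_sub_add_norm_sub (n • E a) (Fc s n a b τ) v
  rw [norm_sub_rev (n • E a) (Fc s n a b τ)] at h6
  nlinarith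

/-- Near the next circle the angle is the final one. -/
theorem late (s : Bool) (n N W a b τ : ℝ) (hn : 0 < n) (h0 : 0 ≤ τ)
    (hN : N = if s = true then 2 * n else n / 2) (hW : 256 * W ≤ n) (hW16 : 16 ≤ W)
    (h : |n * rho s τ - N| ≤ N / 8 + 5 * W + 1 / 2) : ang a b τ = b := by
  apply ang_one
  rw [abs_le] at h
  unfold rho at h
  split_ifs at hN h with hs
  · subst hN
    nlinarith [h.1, h.2]
  · subst hN
    nlinarith [h.1, h.2]

/-- On the next circle the curve is near the standard point. -/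
theorem cond_B (s : Bool) (n N W a b τ : ℝ) (q v : ℝ × ℝ) (hn : 0 < n) (hW : 16 ≤ W)
    (hWn : 256 * W ≤ n) (h0 : 0 ≤ τ) (h1 : τ ≤ 5 / 4)
    (hN : N = if s = true then 2 * n else n / 2)
    (hq : ‖q - Fc s n a b τ‖ ≤ 1 / 2) (hv : ‖q - v‖ ≤ 5 * W) (hs : ‖v‖ = N) :
    ‖N • E b - v‖ ≤ 11 * W := by
  have hN0 : 0 < N := by rw [hN]; split_ifs <;> linarith
  have hF := Fc_norm s n a b τ hn h0 h1
  have h2 : ‖Fc s n a b τ - v‖ ≤ 5 * W + 1 / 2 := by
    have := norm_sub_le_norm_sub_add_norm_sub (Fc s n a b τ) q v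
    rw [norm_sub_rev (Fc s n a b τ) q] at this
    linarith
  have h3 : |n * rho s τ - N| ≤ 5 * W + 1 / 2 := by
    have h4 := abs_norm_sub_norm_le (Fc s n a b τ) v
    rw [hF, hs] at h4
    linarith
  have h5 := late s n N W a b τ hn h0 hN hWn hW (by linarith)
  have h6 : ‖N • E b - Fc s n a b τ‖ ≤ |n * rho s τ - N| := by
    unfold Fc
    rw [h5, ← sub_smul, norm_smul, E_norm, mul_one, Real.norm_eq_abs, abs_sub_comm]
  have h7 := norm_sub_le_norm_sub_add_norm_sub (N • E b) (Fc s n a b τ) v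
  linarith

/-- The curve avoids the other standard points. -/
theorem cond_C (s : Bool) (n N W a b b' τ : ℝ) (q v : ℝ × ℝ) (hn : 0 < n) (hW : 16 ≤ W)
    (hWn : 256 * W ≤ n) (h0 : 0 ≤ τ) (h1 : τ ≤ 5 / 4)
    (hN : N = if s = true then 2 * n else n / 2)
    (hbb : ∀ m : ℤ, 2 ≤ |b - b' - 8 * m|)
    (hq : ‖q - Fc s n a b τ‖ ≤ 1 / 2) (hv : ‖q - v‖ ≤ 5 * W) : N / 8 < ‖N • E b' - v‖ := by
  by_contra hcon
  push Not at hcon
  have hN0 : 0 < N := by rw [hN]; split_ifs <;> linarith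
  have hN1 : n / 2 ≤ N := by rw [hN]; split_ifs <;> linarith
  have hr := rho_bd s τ h0 h1
  have h2 : ‖Fc s n a b τ - v‖ ≤ 5 * W + 1 / 2 := by
    have := norm_sub_le_norm_sub_add_norm_sub (Fc s n a b τ) q v
    rw [norm_sub_rev (Fc s n a b τ) q] at this
    linarith
  have h3 : ‖Fc s n a b τ - N • E b'‖ ≤ N / 8 + 5 * W + 1 / 2 := by
    have := norm_sub_le_norm_sub_add_norm_sub (Fc s n a b τ) v (N • E b')
    rw [norm_sub_rev v] at this
    linarith
  have h4 : |n * rho s τ - N| ≤ N / 8 + 5 * W + 1 / 2 := by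
    have := lower_rad (n * rho s τ) N (ang a b τ) b' (by nlinarith [hr.1]) hN0.le
    unfold Fc at h3
    linarith
  have h5 := late s n N W a b τ hn h0 hN hWn hW h4
  have h6 := lower_ang (n * rho s τ) N (ang a b τ) b' hN0.le
  have h7 := E_sep b b' 2 hbb
  unfold Fc at h3
  rw [h5] at h3 h6
  have h8 : N * 1 ≤ N * ‖E b - E b'‖ := mul_le_mul_of_nonneg_left (by linarith) hN0.le
  linarith

/-- Lifted angles which are separated modulo 8. -/
def Sep (δ a b a' b' : ℝ) : Prop :=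
  (δ ≤ a - a' ∧ a - a' ≤ 8 - δ ∧ δ ≤ b - b' ∧ b - b' ≤ 8 - δ) ∨
    (δ ≤ a' - a ∧ a' - a ≤ 8 - δ ∧ δ ≤ b' - b ∧ b' - b ≤ 8 - δ)

theorem sep_mod (δ u : ℝ) (hδ : 0 ≤ δ) (h1 : δ ≤ u) (h2 : u ≤ 8 - δ) (m : ℤ) : δ ≤ |u - 8 * m| := by
  rcases le_or_gt m 0 with h | h
  · have h' : (m : ℝ) ≤ 0 := by exact_mod_cast h
    rw [abs_of_nonneg (by linarith)]
    linarith
  · have h' : (1 : ℝ) ≤ m := by exact_mod_cast h
    rw [abs_of_nonpos (by linarith)]
    linarith

theorem Sep.at {δ a b a' b' : ℝ} (hδ : 0 ≤ δ) (h : Sep δ a b a' b') (τ : ℝ) (hτ : 0 ≤ τ) (m : ℤ) :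
    δ ≤ |ang a b τ - ang a' b' τ - 8 * m| := by
  obtain ⟨l0, l1⟩ := lam_mem τ hτ
  have e : ang a b τ - ang a' b' τ = (1 - lam τ) * (a - a') + lam τ * (b - b') := by
    unfold ang; ring
  rcases h with ⟨h1, h2, h3, h4⟩ | ⟨h1, h2, h3, h4⟩
  · apply sep_mod δ _ hδ
    · rw [e]; nlinarith
    · rw [e]; nlinarith
  · have h5 := sep_mod δ (ang a' b' τ - ang a b τ) hδ (by
      have : ang a' b' τ - ang a b τ = (1 - lam τ) * (a' - a) + lam τ * (b' - b) := by
        unfold ang; ring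
      rw [this]; nlinarith) (by
      have : ang a' b' τ - ang a b τ = (1 - lam τ) * (a' - a) + lam τ * (b' - b) := by
        unfold ang; ring
      rw [this]; nlinarith) (-m)
    push_cast at h5
    have e2 : ang a' b' τ - ang a b τ - 8 * (-(m : ℝ)) = -(ang a b τ - ang a' b' τ - 8 * m) := by ring
    rw [e2, abs_neg] at h5
    exact h5

/-- Two curves are separated. -/
theorem cond_D (s : Bool) (n δ a b a' b' τ τ' : ℝ) (hn : 0 < n) (hδ : 0 ≤ δ)
    (hab' : |b' - a'| ≤ 16) (h0 : 0 ≤ τ) (h1 : τ ≤ 5 / 4) (h0' : 0 ≤ τ') (h1' : τ' ≤ 5 / 4)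
    (h : Sep δ a b a' b') : n * δ / 75 ≤ ‖Fc s n a b τ - Fc s n a' b' τ'‖ := by
  set Δ := |rho s τ - rho s τ'| with hΔ
  have hΔ0 : 0 ≤ Δ := abs_nonneg _
  have hr := rho_bd s τ h0 h1
  have hr' := rho_bd s τ' h0' h1'
  have h2 := lower_rad (n * rho s τ) (n * rho s τ') (ang a b τ) (ang a' b' τ')
    (by nlinarith [hr.1]) (by nlinarith [hr'.1])
  have h3 := lower_ang (n * rho s τ) (n * rho s τ') (ang a b τ) (ang a' b' τ')
    (by nlinarith [hr'.1])
  have e : n * rho s τ - n * rho s τ' = n * (rho s τ - rho s τ') := by ring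
  rw [e, abs_mul, abs_of_pos hn, ← hΔ] at h2 h3
  have h4 := ang_lip a' b' τ τ' hab'
  have h5 := (rho_diff s τ τ').2
  rw [← hΔ] at h5
  have h6 : (δ - 64 * Δ) / 2 ≤ ‖E (ang a b τ) - E (ang a' b' τ')‖ := by
    apply E_sep
    intro m
    have h7 := h.at hδ τ h0 m
    have h8 : |ang a b τ - ang a' b' τ - 8 * m| ≤
        |ang a b τ - ang a' b' τ' - 8 * m| + |ang a' b' τ - ang a' b' τ'| := by
      have := abs_add_le (ang a b τ - ang a' b' τ' - 8 * m) (-(ang a' b' τ - ang a' b' τ'))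
      rw [abs_neg] at this
      have e2 : ang a b τ - ang a' b' τ' - 8 * (m : ℝ) + -(ang a' b' τ - ang a' b' τ') =
        ang a b τ - ang a' b' τ - 8 * m := by ring
      rwa [e2] at this
    linarith
  unfold Fc
  rcases le_or_gt (δ / 75) Δ with h7 | h7
  · have : n * (δ / 75) ≤ n * Δ := mul_le_mul_of_nonneg_left h7 hn.le
    linarith
  · have h8 : 0 ≤ (δ - 64 * Δ) / 2 := by linarith
    have h9 : n * (3 / 8) * ((δ - 64 * Δ) / 2) ≤
        n * rho s τ' * ‖E (ang a b τ) - E (ang a' b' τ')‖ := by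
      apply mul_le_mul _ h6 h8 (by nlinarith [hr'.1])
      exact mul_le_mul_of_nonneg_left hr'.1 hn.le
    nlinarith

end DP.Polar
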