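import Pool.Agent.helper76.DP.Spec

/-!
# Row `dp:REG` (project DP, MP_bf63dc_nt): regularity by energy
-/

set_option autoImplicit false

namespace Pool.Agent.DP

open Finset
open Pool.Agent.FR (mean Eig)

theorem REG_mean_range (n : ℕ) (g : ℕ → ℝ) : (mean fun k : Fin n => g (k : ℕ)) = (∑ k ∈ range n, g k) / n := by
  unfold mean
  rw [Fintype.card_fin, Finset.sum_range]

theorem REG_mean3 (j Q q : ℕ) (g : ℕ → ℕ → ℕ → ℝ) :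
    (mean fun z : Fin j × Fin Q × Fin q => g (z.1 : ℕ) (z.2.1 : ℕ) (z.2.2 : ℕ)) =
      (∑ i ∈ range j, ∑ κ ∈ range Q, ∑ s ∈ range q, g i κ s) / ((j : ℝ) * Q * q) := by
  unfold mean
  rw [Fintype.sum_prod_type, Fintype.card_prod, Fintype.card_prod, Fintype.card_fin, Fintype.card_fin, Fintype.card_fin,
    Finset.sum_range]
  have h : ∀ i : Fin j, ∑ z : Fin Q × Fin q, g (i : ℕ) (z.1 : ℕ) (z.2 : ℕ) = ∑ κ ∈ range Q, ∑ s ∈ range q, g (i : ℕ) κ s := by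
    intro i
    rw [Fintype.sum_prod_type, Finset.sum_range]
    refine Finset.sum_congr rfl fun κ _ => ?_
    rw [Finset.sum_range]
  congr 1
  · exact Finset.sum_congr rfl fun i _ => h i
  · push_cast
    ring

theorem REG_mean_le {α : Type} [Fintype α] [Nonempty α] (g : α → ℝ) (C : ℝ) (h : ∀ x, g x ≤ C) : mean g ≤ C := by
  unfold mean
  have hc : (0 : ℝ) < Fintype.card α := by exact_mod_cast Fintype.card_pos
  rw [div_le_iff₀ hc]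
  calc ∑ x, g x ≤ ∑ _x : α, C := Finset.sum_le_sum fun x _ => h x
    _ = C * Fintype.card α := by
      rw [Finset.sum_const, Finset.card_univ, nsmul_eq_mul]
      ring

theorem REG_mean_nonneg {α : Type} [Fintype α] (g : α → ℝ) (h : ∀ x, 0 ≤ g x) : 0 ≤ mean g :=
  div_nonneg (Finset.sum_nonneg fun x _ => h x) (Nat.cast_nonneg _)

theorem REG_Fm (f : ℤ → ℝ) (Q l : ℕ) (x : ℤ) : Fm f Q l x = (∑ k ∈ range l, f (x + (Q : ℤ) * ((k : ℕ) : ℤ))) / l :=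
  REG_mean_range l fun k => f (x + (Q : ℤ) * ((k : ℕ) : ℤ))

theorem REG_en (f : ℤ → ℝ) (η : ℝ) (Q l : ℕ) (y : ℤ) :
    en f η Q l y = (∑ κ ∈ range Q, (Fm f Q l (y + ((κ : ℕ) : ℤ)) + η * Fm f Q l (y + ((κ : ℕ) : ℤ)) ^ 2)) / Q :=
  REG_mean_range Q fun κ => Fm f Q l (y + ((κ : ℕ) : ℤ)) + η * Fm f Q l (y + ((κ : ℕ) : ℤ)) ^ 2

theorem REG_Fm0 {f : ℤ → ℝ} (hf : ∀ x, 0 ≤ f x ∧ f x ≤ 1) (Q l : ℕ) (x : ℤ) : 0 ≤ Fm f Q l x :=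
  REG_mean_nonneg _ fun _ => (hf _).1

theorem REG_Fm1 {f : ℤ → ℝ} (hf : ∀ x, 0 ≤ f x ∧ f x ≤ 1) (Q l : ℕ) (x : ℤ) : Fm f Q l x ≤ 1 := by
  rcases Nat.eq_zero_or_pos l with h | h
  · rw [REG_Fm, h]
    simp
  · have : Nonempty (Fin l) := ⟨⟨0, h⟩⟩
    exact REG_mean_le _ 1 fun _ => (hf _).2

/-- the energy of a tile -/
theorem REG_en0 {f : ℤ → ℝ} (hf : ∀ x, 0 ≤ f x ∧ f x ≤ 1) {η : ℝ} (hη : 0 ≤ η) (Q l : ℕ) (y : ℤ) : 0 ≤ en f η Q l y :=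
  REG_mean_nonneg _ fun _ => add_nonneg (REG_Fm0 hf _ _ _) (mul_nonneg hη (sq_nonneg _))

theorem REG_en1 {f : ℤ → ℝ} (hf : ∀ x, 0 ≤ f x ∧ f x ≤ 1) {η : ℝ} (hη : 0 ≤ η) {Q : ℕ} (hQ : 1 ≤ Q) (l : ℕ) (y : ℤ) :
    en f η Q l y ≤ 1 + η := by
  have : Nonempty (Fin Q) := ⟨⟨0, hQ⟩⟩
  refine REG_mean_le _ _ fun κ => ?_
  have h0 := REG_Fm0 hf Q l (y + ((κ : ℕ) : ℤ))
  have h1 := REG_Fm1 hf Q l (y + ((κ : ℕ) : ℤ))
  have h2 : Fm f Q l (y + ((κ : ℕ) : ℤ)) ^ 2 ≤ 1 := by nlinarith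
  nlinarith

/-- the supremum of the energies -/
noncomputable def REG_S (f : ℤ → ℝ) (η : ℝ) (Q l : ℕ) : ℝ := ⨆ y : ℤ, en f η Q l y

/-- the infimum over the lengths -/
noncomputable def REG_E (f : ℤ → ℝ) (η : ℝ) (Q : ℕ) : ℝ := ⨅ l : ℕ, REG_S f η Q (l + 1)

theorem REG_bdd {f : ℤ → ℝ} (hf : ∀ x, 0 ≤ f x ∧ f x ≤ 1) {η : ℝ} (hη : 0 ≤ η) {Q : ℕ} (hQ : 1 ≤ Q) (l : ℕ) :
    BddAbove (Set.range fun y : ℤ => en f η Q l y) :=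
  ⟨1 + η, by rintro _ ⟨y, rfl⟩; exact REG_en1 hf hη hQ l y⟩

theorem REG_leS {f : ℤ → ℝ} (hf : ∀ x, 0 ≤ f x ∧ f x ≤ 1) {η : ℝ} (hη : 0 ≤ η) {Q : ℕ} (hQ : 1 ≤ Q) (l : ℕ) (y : ℤ) :
    en f η Q l y ≤ REG_S f η Q l := le_ciSup (REG_bdd hf hη hQ l) y

theorem REG_S0 {f : ℤ → ℝ} (hf : ∀ x, 0 ≤ f x ∧ f x ≤ 1) {η : ℝ} (hη : 0 ≤ η) {Q : ℕ} (hQ : 1 ≤ Q) (l : ℕ) :
    0 ≤ REG_S f η Q l := (REG_en0 hf hη Q l 0).trans (REG_leS hf hη hQ l 0)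

theorem REG_S1 {f : ℤ → ℝ} (hf : ∀ x, 0 ≤ f x ∧ f x ≤ 1) {η : ℝ} (hη : 0 ≤ η) {Q : ℕ} (hQ : 1 ≤ Q) (l : ℕ) :
    REG_S f η Q l ≤ 1 + η := ciSup_le fun y => REG_en1 hf hη hQ l y

theorem REG_EleS {f : ℤ → ℝ} (hf : ∀ x, 0 ≤ f x ∧ f x ≤ 1) {η : ℝ} (hη : 0 ≤ η) {Q : ℕ} (hQ : 1 ≤ Q) {l : ℕ} (hl : 1 ≤ l) :
    REG_E f η Q ≤ REG_S f η Q l := by
  have h : BddBelow (Set.range fun l : ℕ => REG_S f η Q (l + 1)) := ⟨0, by rintro _ ⟨y, rfl⟩; exact REG_S0 hf hη hQ _⟩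
  have h1 := ciInf_le h (l - 1)
  have h2 : l - 1 + 1 = l := by omega
  simp only [h2] at h1
  exact h1

theorem REG_E1 {f : ℤ → ℝ} (hf : ∀ x, 0 ≤ f x ∧ f x ≤ 1) {η : ℝ} (hη : 0 ≤ η) {Q : ℕ} (hQ : 1 ≤ Q) : REG_E f η Q ≤ 1 + η :=
  (REG_EleS hf hη hQ le_rfl).trans (REG_S1 hf hη hQ 1)

/-- (a), longer tiles -/
theorem REG_Smul (hRGI : RGI_stmt) {f : ℤ → ℝ} (hf : ∀ x, 0 ≤ f x ∧ f x ≤ 1) {η : ℝ} (hη : 0 ≤ η) {Q l j : ℕ} (hQ : 1 ≤ Q) (hl : 1 ≤ l) (hj : 1 ≤ j) :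
    REG_S f η Q (l * j) ≤ REG_S f η Q l := by
  refine ciSup_le fun y => ?_
  have h := hRGI f η Q 1 l j y hQ le_rfl hl hj
  rw [one_mul, mul_one] at h
  have : Nonempty (Fin j) := ⟨⟨0, hj⟩⟩
  have h1 := REG_mean_le (fun i : Fin j => en f η Q l (y + (Q * l : ℕ) * ((i : ℕ) : ℤ))) (REG_S f η Q l) fun i => REG_leS hf hη hQ l _
  have h2 : 0 ≤ η * mean fun z : Fin j × Fin Q × Fin 1 => (Fm f Q l (y + ((z.2.1 : ℕ) : ℤ) + Q * ((z.2.2 : ℕ) : ℤ) + (Q * l : ℕ) * ((z.1 : ℕ) : ℤ)) - Fm f Q (l * j) (y + ((z.2.1 : ℕ) : ℤ))) ^ 2 :=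
    mul_nonneg hη (REG_mean_nonneg _ fun z => sq_nonneg _)
  linarith

/-- (a), finer steps -/
theorem REG_Emul (hRGI : RGI_stmt) {f : ℤ → ℝ} (hf : ∀ x, 0 ≤ f x ∧ f x ≤ 1) {η : ℝ} (hη : 0 ≤ η) {Q q : ℕ} (hQ : 1 ≤ Q) (hq : 1 ≤ q) :
    REG_E f η Q ≤ REG_E f η (Q * q) := by
  have hQq : 1 ≤ Q * q := Nat.mul_pos hQ hq
  refine le_ciInf fun l => ?_
  refine (REG_EleS hf hη hQ (Nat.mul_pos hq (Nat.succ_pos l) : 1 ≤ q * (l + 1))).trans (ciSup_le fun y => ?_)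
  have h := hRGI f η Q q (l + 1) 1 y hQ hq (Nat.succ_pos l) le_rfl
  have h0 : (mean fun i : Fin 1 => en f η (Q * q) (l + 1) (y + (Q * q * (l + 1) : ℕ) * ((i : ℕ) : ℤ))) = en f η (Q * q) (l + 1) y := by
    unfold mean
    simp
  rw [h0, mul_one] at h
  have h2 : 0 ≤ η * mean fun z : Fin 1 × Fin Q × Fin q => (Fm f (Q * q) (l + 1) (y + ((z.2.1 : ℕ) : ℤ) + Q * ((z.2.2 : ℕ) : ℤ) + (Q * q * (l + 1) : ℕ) * ((z.1 : ℕ) : ℤ)) - Fm f Q (q * (l + 1)) (y + ((z.2.1 : ℕ) : ℤ))) ^ 2 :=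
    mul_nonneg hη (REG_mean_nonneg _ fun z => sq_nonneg _)
  have h3 := REG_leS hf hη hQq (l + 1) y
  linarith

/-- sums over tiles -/
theorem REG_tile (g : ℕ → ℝ) (Q l : ℕ) : ∑ k ∈ range (Q * l), g k = ∑ m ∈ range l, ∑ κ ∈ range Q, g (Q * m + κ) := by
  induction l with
  | zero => simp
  | succ l ih => rw [Nat.mul_succ, Finset.sum_range_add, ih, Finset.sum_range_succ]

/-- the sum over a tile is at most the energy -/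
theorem REG_tile_le {f : ℤ → ℝ} (hf : ∀ x, 0 ≤ f x ∧ f x ≤ 1) {η : ℝ} (hη : 0 ≤ η) {Q l : ℕ} (hQ : 1 ≤ Q) (hl : 1 ≤ l) (y : ℤ) :
    ∑ k ∈ range (Q * l), f (y + (k : ℕ)) ≤ ((Q * l : ℕ) : ℝ) * REG_S f η Q l := by
  have h1 := REG_leS hf hη hQ l y
  have hQ0 : (0 : ℝ) < Q := by exact_mod_cast hQ
  have hl0 : (0 : ℝ) < l := by exact_mod_cast hl
  have h2 : ∑ κ ∈ range Q, Fm f Q l (y + ((κ : ℕ) : ℤ)) ≤ Q * en f η Q l y := by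
    rw [REG_en, mul_div_cancel₀ _ hQ0.ne']
    refine Finset.sum_le_sum fun κ _ => ?_
    have := mul_nonneg hη (sq_nonneg (Fm f Q l (y + ((κ : ℕ) : ℤ))))
    linarith
  have h3 : ∑ k ∈ range (Q * l), f (y + (k : ℕ)) = l * ∑ κ ∈ range Q, Fm f Q l (y + ((κ : ℕ) : ℤ)) := by
    rw [REG_tile (fun k => f (y + (k : ℕ))), Finset.sum_comm, Finset.mul_sum]
    refine Finset.sum_congr rfl fun κ _ => ?_
    rw [REG_Fm, mul_div_cancel₀ _ hl0.ne']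
    refine Finset.sum_congr rfl fun m _ => ?_
    congr 1
    push_cast
    ring
  rw [h3]
  calc l * ∑ κ ∈ range Q, Fm f Q l (y + ((κ : ℕ) : ℤ)) ≤ l * (Q * en f η Q l y) := mul_le_mul_of_nonneg_left h2 hl0.le
    _ ≤ l * (Q * REG_S f η Q l) := mul_le_mul_of_nonneg_left (mul_le_mul_of_nonneg_left h1 hQ0.le) hl0.le
    _ = ((Q * l : ℕ) : ℝ) * REG_S f η Q l := by
      push_cast
      ring

/-- (b) -/
theorem REG_dens {f : ℤ → ℝ} (hf : ∀ x, 0 ≤ f x ∧ f x ≤ 1) {η : ℝ} (hη : 0 ≤ η) {Q l : ℕ} (hQ : 1 ≤ Q) (hl : 1 ≤ l) {δ : ℝ}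
    (hδ : ∀ L₀ : ℕ, ∃ L : ℕ, L₀ ≤ L ∧ ∃ y : ℤ, δ * L ≤ ∑ k ∈ range L, f (y + (k : ℕ))) : δ ≤ REG_S f η Q l := by
  by_contra hcon
  push Not at hcon
  set s := REG_S f η Q l with hs
  have hs0 : 0 ≤ s := REG_S0 hf hη hQ l
  have hD : 0 < Q * l := Nat.mul_pos hQ hl
  obtain ⟨L₀, hL₀⟩ := exists_nat_gt (s * ((Q * l : ℕ) : ℝ) / (δ - s))
  obtain ⟨L, hL, y, hy⟩ := hδ L₀
  have hL' : s * ((Q * l : ℕ) : ℝ) / (δ - s) < L := hL₀.trans_le (by exact_mod_cast hL)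
  rw [div_lt_iff₀ (by linarith)] at hL'
  have h1 : L < Q * l * (L / (Q * l) + 1) := Nat.lt_mul_div_succ L hD
  have h2 : ∑ k ∈ range L, f (y + (k : ℕ)) ≤ ∑ k ∈ range (Q * l * (L / (Q * l) + 1)), f (y + (k : ℕ)) :=
    Finset.sum_le_sum_of_subset_of_nonneg (Finset.range_mono h1.le) fun k _ _ => (hf _).1
  have h3 : ∑ k ∈ range (Q * l * (L / (Q * l) + 1)), f (y + (k : ℕ)) ≤ ((L / (Q * l) + 1 : ℕ) : ℝ) * (((Q * l : ℕ) : ℝ) * s) := by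
    rw [REG_tile (fun k => f (y + (k : ℕ)))]
    calc ∑ m ∈ range (L / (Q * l) + 1), ∑ κ ∈ range (Q * l), f (y + ((Q * l * m + κ : ℕ) : ℤ)) ≤
        ∑ _m ∈ range (L / (Q * l) + 1), ((Q * l : ℕ) : ℝ) * s := by
          refine Finset.sum_le_sum fun m _ => ?_
          have := REG_tile_le hf hη hQ hl (y + ((Q * l * m : ℕ) : ℤ))
          refine le_trans (le_of_eq ?_) this
          refine Finset.sum_congr rfl fun κ _ => ?_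
          congr 1
          push_cast
          ring
      _ = _ := by rw [Finset.sum_const, Finset.card_range, nsmul_eq_mul]
  have h4 : ((L / (Q * l) + 1 : ℕ) : ℝ) * ((Q * l : ℕ) : ℝ) ≤ L + ((Q * l : ℕ) : ℝ) := by
    have : (L / (Q * l) + 1) * (Q * l) ≤ L + Q * l := by
      rw [add_mul, one_mul]
      exact Nat.add_le_add_right (Nat.div_mul_le_self _ _) _
    exact_mod_cast this
  have h5 : ((L / (Q * l) + 1 : ℕ) : ℝ) * (((Q * l : ℕ) : ℝ) * s) ≤ (L + ((Q * l : ℕ) : ℝ)) * s := by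
    rw [← mul_assoc]
    exact mul_le_mul_of_nonneg_right h4 hs0
  nlinarith [hy.trans (h2.trans (h3.trans h5))]

theorem REG_delta_le {f : ℤ → ℝ} (hf : ∀ x, 0 ≤ f x ∧ f x ≤ 1) {η : ℝ} (hη : 0 ≤ η) {Q : ℕ} (hQ : 1 ≤ Q) {δ : ℝ}
    (hδ : ∀ L₀ : ℕ, ∃ L : ℕ, L₀ ≤ L ∧ ∃ y : ℤ, δ * L ≤ ∑ k ∈ range L, f (y + (k : ℕ))) : δ ≤ REG_E f η Q :=
  le_ciInf fun l => REG_dens hf hη hQ (Nat.succ_pos l) hδ

/-- (c), (d): almost optimal elements -/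
theorem REG_sup (u : ℕ → ℝ) (B e : ℝ) (hu : ∀ n, u n ≤ B) (he : 0 < e) : ∃ n, ∀ m, u m ≤ u n + e := by
  have hb : BddAbove (Set.range u) := ⟨B, by rintro _ ⟨n, rfl⟩; exact hu n⟩
  obtain ⟨n, hn⟩ := exists_lt_of_lt_ciSup (show (⨆ m, u m) - e < ⨆ m, u m by linarith)
  exact ⟨n, fun m => (le_ciSup hb m).trans (by linarith)⟩

theorem REG_inf (u : ℕ → ℝ) (e : ℝ) (he : 0 < e) : ∃ n, u n ≤ (⨅ m, u m) + e := by
  obtain ⟨n, hn⟩ := exists_lt_of_ciInf_lt (show (⨅ m, u m) < (⨅ m, u m) + e by linarith)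
  exact ⟨n, hn.le⟩

/-- (f), shifts -/
theorem REG_shift1 {f : ℤ → ℝ} (hf : ∀ x, 0 ≤ f x ∧ f x ≤ 1) (Q n : ℕ) (x : ℤ) : |Fm f Q n (x + Q) - Fm f Q n x| ≤ 1 / n := by
  rw [REG_Fm, REG_Fm, ← sub_div, abs_div, Nat.abs_cast]
  refine div_le_div_of_nonneg_right ?_ (Nat.cast_nonneg n)
  have h1 : ∑ k ∈ range n, f (x + Q + (Q : ℤ) * ((k : ℕ) : ℤ)) = ∑ k ∈ range n, f (x + (Q : ℤ) * (((k + 1 : ℕ)) : ℤ)) := by
    refine Finset.sum_congr rfl fun k _ => ?_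
    congr 1
    push_cast
    ring
  have h2 := Finset.sum_range_succ (fun k : ℕ => f (x + (Q : ℤ) * ((k : ℕ) : ℤ))) n
  have h3 := Finset.sum_range_succ' (fun k : ℕ => f (x + (Q : ℤ) * ((k : ℕ) : ℤ))) n
  have h4 : ∑ k ∈ range n, f (x + (Q : ℤ) * (((k + 1 : ℕ)) : ℤ)) = ∑ k ∈ range n, f (x + (Q : ℤ) * ((k : ℕ) : ℤ)) +
      (f (x + (Q : ℤ) * ((n : ℕ) : ℤ)) - f (x + (Q : ℤ) * ((0 : ℕ) : ℤ))) := by linarith
  rw [h1, h4]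
  rw [add_sub_cancel_left, abs_le]
  have a1 := hf (x + (Q : ℤ) * ((n : ℕ) : ℤ))
  have a2 := hf (x + (Q : ℤ) * ((0 : ℕ) : ℤ))
  constructor <;> linarith [a1.1, a1.2, a2.1, a2.2]

theorem REG_shift {f : ℤ → ℝ} (hf : ∀ x, 0 ≤ f x ∧ f x ≤ 1) (Q n m : ℕ) (x : ℤ) : |Fm f Q n (x + Q * (m : ℕ)) - Fm f Q n x| ≤ m / n := by
  induction m with
  | zero => simp
  | succ m ih =>
    have h1 := REG_shift1 hf Q n (x + Q * (m : ℕ))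
    have h2 : x + Q * ((m + 1 : ℕ) : ℤ) = x + Q * (m : ℕ) + Q := by
      push_cast
      ring
    rw [h2]
    have h3 := abs_sub_le (Fm f Q n (x + Q * (m : ℕ) + Q)) (Fm f Q n (x + Q * (m : ℕ))) (Fm f Q n x)
    have h4 : ((m + 1 : ℕ) : ℝ) / n = 1 / n + m / n := by
      push_cast
      ring
    rw [h4]
    linarith

/-- the energy at a shifted place -/
theorem REG_en_shift {f : ℤ → ℝ} (hf : ∀ x, 0 ≤ f x ∧ f x ≤ 1) {η : ℝ} (hη : 0 ≤ η) (hη2 : η ≤ 1 / 2) {Q : ℕ} (hQ : 1 ≤ Q) (n m : ℕ) (y : ℤ) :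
    en f η Q n y - 2 * (m / n) ≤ en f η Q n (y + Q * (m : ℕ)) := by
  have hQ0 : (0 : ℝ) < Q := by exact_mod_cast hQ
  rw [REG_en, REG_en, sub_le_iff_le_add, div_le_iff₀ hQ0, add_mul, div_mul_cancel₀ _ hQ0.ne']
  have h : ∑ κ ∈ range Q, (Fm f Q n (y + ((κ : ℕ) : ℤ)) + η * Fm f Q n (y + ((κ : ℕ) : ℤ)) ^ 2) ≤
      ∑ κ ∈ range Q, ((Fm f Q n (y + Q * (m : ℕ) + ((κ : ℕ) : ℤ)) + η * Fm f Q n (y + Q * (m : ℕ) + ((κ : ℕ) : ℤ)) ^ 2) + 2 * ((m : ℝ) / n)) := by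
    refine Finset.sum_le_sum fun κ _ => ?_
    have h1 := REG_shift hf Q n m (y + ((κ : ℕ) : ℤ))
    have h2 : y + ((κ : ℕ) : ℤ) + Q * (m : ℕ) = y + Q * (m : ℕ) + ((κ : ℕ) : ℤ) := by ring
    rw [h2] at h1
    have a0 := REG_Fm0 hf Q n (y + ((κ : ℕ) : ℤ))
    have a1 := REG_Fm1 hf Q n (y + ((κ : ℕ) : ℤ))
    have b0 := REG_Fm0 hf Q n (y + Q * (m : ℕ) + ((κ : ℕ) : ℤ))
    have b1 := REG_Fm1 hf Q n (y + Q * (m : ℕ) + ((κ : ℕ) : ℤ))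
    have h3 := (abs_le.1 h1).1
    set A := Fm f Q n (y + ((κ : ℕ) : ℤ))
    set B := Fm f Q n (y + Q * (m : ℕ) + ((κ : ℕ) : ℤ))
    set t : ℝ := (m : ℝ) / n with ht
    have ht0 : 0 ≤ t := by positivity
    have h4 : A - B ≤ t := by linarith
    have h5 : A ^ 2 - B ^ 2 ≤ 2 * t := by nlinarith
    nlinarith
  refine h.trans (le_of_eq ?_)
  rw [Finset.sum_add_distrib, Finset.sum_const, Finset.card_range, nsmul_eq_mul]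
  ring

/-- the sum of a periodic function over a period -/
theorem REG_period (Q : ℕ) (hQ : 1 ≤ Q) (g : ℤ → ℝ) (hg : ∀ x k : ℤ, g (x + Q * k) = g x) (y : ℤ) :
    ∑ k ∈ range Q, g (k : ℕ) = ∑ k ∈ range Q, g (y + (k : ℕ)) := by
  have hQ0 : (0 : ℤ) < Q := by exact_mod_cast hQ
  have hmod : ∀ x : ℤ, g (x % Q) = g x := by
    intro x
    have h1 := Int.emod_add_mul_ediv x Q
    have h2 := hg (x % Q) (x / Q)
    rw [h1] at h2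
    exact h2.symm
  refine (Finset.sum_bij (fun (k : ℕ) _ => ((y + (k : ℕ)) % (Q : ℤ)).toNat) ?_ ?_ ?_ ?_).symm
  · intro k _
    rw [Finset.mem_range]
    have h1 := Int.emod_nonneg (y + (k : ℕ)) hQ0.ne'
    have h2 := Int.emod_lt_of_pos (y + (k : ℕ)) hQ0
    omega
  · intro a ha b hb hab
    rw [Finset.mem_range] at ha hb
    have h1 := Int.emod_nonneg (y + (a : ℕ)) hQ0.ne'
    have h2 := Int.emod_nonneg (y + (b : ℕ)) hQ0.ne'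
    have h3 : (y + (a : ℕ)) % (Q : ℤ) = (y + (b : ℕ)) % (Q : ℤ) := by
      have := congrArg (fun n : ℕ => (n : ℤ)) hab
      simp only [Int.toNat_of_nonneg h1, Int.toNat_of_nonneg h2] at this
      exact this
    have h4 : (a : ℤ) ≡ (b : ℤ) [ZMOD (Q : ℤ)] := Int.ModEq.add_left_cancel' y h3
    have h5 : (a : ℤ) % Q = (b : ℤ) % Q := h4
    rw [Int.emod_eq_of_lt (by omega) (by omega), Int.emod_eq_of_lt (by omega) (by omega)] at h5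
    exact_mod_cast h5
  · intro b hb
    rw [Finset.mem_range] at hb
    have h1 := Int.emod_nonneg ((b : ℕ) - y) hQ0.ne'
    have h2 := Int.emod_lt_of_pos ((b : ℕ) - y) hQ0
    refine ⟨(((b : ℕ) - y) % (Q : ℤ)).toNat, ?_, ?_⟩
    · rw [Finset.mem_range]
      omega
    · rw [Int.toNat_of_nonneg h1, Int.add_emod_emod]
      have h3 : y + ((b : ℕ) - y) = ((b : ℕ) : ℤ) := by ring
      rw [h3, Int.emod_eq_of_lt (by omega) (by omega)]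
      simp
  · intro k _
    have h1 := Int.emod_nonneg (y + (k : ℕ)) hQ0.ne'
    rw [Int.toNat_of_nonneg h1, hmod]

/-- (f), the error -/
theorem REG_err (hRGI : RGI_stmt) {f : ℤ → ℝ} (hf : ∀ x, 0 ≤ f x ∧ f x ≤ 1) {η : ℝ} (hη : 0 < η) (hη2 : η ≤ 1 / 2)
    {Q q l j : ℕ} (hQ : 1 ≤ Q) (hq : 1 ≤ q) (hl : 1 ≤ l) (hj : 1 ≤ j) {y : ℤ} {E ε₂ : ℝ}
    (h1 : REG_S f η (Q * q) l ≤ E + 2 * ε₂) (h2 : E - ε₂ ≤ en f η Q (q * l * j) y)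
    (d : ℤ → ℝ) (hd : ∀ (κ : ℕ) (m : ℤ), κ < Q → d (y + (κ : ℕ) + Q * m) = Fm f Q (q * l * j) (y + (κ : ℕ))) :
    ∑ k ∈ range (Q * (q * (l * j))), (Fm f (Q * q) l (y + (k : ℕ)) - d (y + (k : ℕ))) ^ 2 ≤
      ((Q * (q * (l * j)) : ℕ) : ℝ) * (2 * ((3 * ε₂ + 2 / j) / η) + 2 / (j : ℝ) ^ 2) := by
  have hQ0 : (0 : ℝ) < Q := by exact_mod_cast hQ
  have hq0 : (0 : ℝ) < q := by exact_mod_cast hq
  have hl0 : (0 : ℝ) < l := by exact_mod_cast hl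
  have hj0 : (0 : ℝ) < j := by exact_mod_cast hj
  have hQq : 1 ≤ Q * q := Nat.mul_pos hQ hq
  -- one value of `s₀`
  have one : ∀ s₀ < l, ∑ i ∈ range j, ∑ κ ∈ range Q, ∑ s ∈ range q,
      (Fm f (Q * q) l (y + Q * ((q * s₀ : ℕ) : ℤ) + ((κ : ℕ) : ℤ) + Q * ((s : ℕ) : ℤ) + (Q * q * l : ℕ) * ((i : ℕ) : ℤ)) - Fm f Q (q * l * j) (y + ((κ : ℕ) : ℤ))) ^ 2 ≤
        ((j : ℝ) * Q * q) * (2 * ((3 * ε₂ + 2 / j) / η) + 2 / (j : ℝ) ^ 2) := by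
    intro s₀ hs₀
    have r1 := hRGI f η Q q l j (y + Q * ((q * s₀ : ℕ) : ℤ)) hQ hq hl hj
    have : Nonempty (Fin j) := ⟨⟨0, hj⟩⟩
    have r2 := REG_mean_le (fun i : Fin j => en f η (Q * q) l (y + Q * ((q * s₀ : ℕ) : ℤ) + (Q * q * l : ℕ) * ((i : ℕ) : ℤ))) (REG_S f η (Q * q) l)
      fun i => REG_leS hf hη.le hQq l _
    have r3 := REG_en_shift hf hη.le hη2 hQ (q * l * j) (q * s₀) y
    have r4 : ((q * s₀ : ℕ) : ℝ) / ((q * l * j : ℕ) : ℝ) ≤ 1 / j := by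
      rw [div_le_div_iff₀ (by push_cast; positivity) hj0]
      have h3 : (s₀ : ℝ) ≤ l := by exact_mod_cast hs₀.le
      push_cast
      have h4 : (q : ℝ) * s₀ * j ≤ q * l * j := mul_le_mul_of_nonneg_right (mul_le_mul_of_nonneg_left h3 hq0.le) hj0.le
      linarith
    have r5 := REG_mean3 j Q q fun i κ s => (Fm f (Q * q) l (y + Q * ((q * s₀ : ℕ) : ℤ) + ((κ : ℕ) : ℤ) + Q * ((s : ℕ) : ℤ) + (Q * q * l : ℕ) * ((i : ℕ) : ℤ)) -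
      Fm f Q (q * l * j) (y + Q * ((q * s₀ : ℕ) : ℤ) + ((κ : ℕ) : ℤ))) ^ 2
    rw [r5] at r1
    have r6 : (∑ i ∈ range j, ∑ κ ∈ range Q, ∑ s ∈ range q, (Fm f (Q * q) l (y + Q * ((q * s₀ : ℕ) : ℤ) + ((κ : ℕ) : ℤ) + Q * ((s : ℕ) : ℤ) + (Q * q * l : ℕ) * ((i : ℕ) : ℤ)) -
      Fm f Q (q * l * j) (y + Q * ((q * s₀ : ℕ) : ℤ) + ((κ : ℕ) : ℤ))) ^ 2) / ((j : ℝ) * Q * q) ≤ (3 * ε₂ + 2 / j) / η := by
      rw [le_div_iff₀ hη, mul_comm _ η]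
      have e1 : 2 * (((q * s₀ : ℕ) : ℝ) / ((q * l * j : ℕ) : ℝ)) ≤ 2 / j := by
        have e2 : (2 : ℝ) / j = 2 * (1 / j) := by ring
        rw [e2]
        linarith
      linarith
    rw [div_le_iff₀ (by positivity)] at r6
    have r7 : ∑ i ∈ range j, ∑ κ ∈ range Q, ∑ s ∈ range q,
      (Fm f (Q * q) l (y + Q * ((q * s₀ : ℕ) : ℤ) + ((κ : ℕ) : ℤ) + Q * ((s : ℕ) : ℤ) + (Q * q * l : ℕ) * ((i : ℕ) : ℤ)) - Fm f Q (q * l * j) (y + ((κ : ℕ) : ℤ))) ^ 2 ≤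
      ∑ i ∈ range j, ∑ κ ∈ range Q, ∑ s ∈ range q,
      (2 * (Fm f (Q * q) l (y + Q * ((q * s₀ : ℕ) : ℤ) + ((κ : ℕ) : ℤ) + Q * ((s : ℕ) : ℤ) + (Q * q * l : ℕ) * ((i : ℕ) : ℤ)) -
      Fm f Q (q * l * j) (y + Q * ((q * s₀ : ℕ) : ℤ) + ((κ : ℕ) : ℤ))) ^ 2 + 2 / (j : ℝ) ^ 2) := by
      refine Finset.sum_le_sum fun i _ => Finset.sum_le_sum fun κ _ => Finset.sum_le_sum fun s _ => ?_
      have e1 := REG_shift hf Q (q * l * j) (q * s₀) (y + ((κ : ℕ) : ℤ))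
      have e2 : y + ((κ : ℕ) : ℤ) + Q * ((q * s₀ : ℕ) : ℤ) = y + Q * ((q * s₀ : ℕ) : ℤ) + ((κ : ℕ) : ℤ) := by ring
      rw [e2] at e1
      have e3 := e1.trans r4
      set A := Fm f (Q * q) l (y + Q * ((q * s₀ : ℕ) : ℤ) + ((κ : ℕ) : ℤ) + Q * ((s : ℕ) : ℤ) + (Q * q * l : ℕ) * ((i : ℕ) : ℤ))
      set B := Fm f Q (q * l * j) (y + Q * ((q * s₀ : ℕ) : ℤ) + ((κ : ℕ) : ℤ))
      set D := Fm f Q (q * l * j) (y + ((κ : ℕ) : ℤ))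
      have e4 : (B - D) ^ 2 ≤ (1 / (j : ℝ)) ^ 2 := by
        rw [← sq_abs (B - D)]
        exact pow_le_pow_left₀ (abs_nonneg _) e3 2
      have e5 : (2 : ℝ) / (j : ℝ) ^ 2 = 2 * (1 / (j : ℝ)) ^ 2 := by
        rw [div_pow, one_pow]
        ring
      rw [e5]
      nlinarith [sq_nonneg ((A - B) - (B - D))]
    refine r7.trans ?_
    have r8 : ∑ i ∈ range j, ∑ κ ∈ range Q, ∑ s ∈ range q,
      (2 * (Fm f (Q * q) l (y + Q * ((q * s₀ : ℕ) : ℤ) + ((κ : ℕ) : ℤ) + Q * ((s : ℕ) : ℤ) + (Q * q * l : ℕ) * ((i : ℕ) : ℤ)) -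
      Fm f Q (q * l * j) (y + Q * ((q * s₀ : ℕ) : ℤ) + ((κ : ℕ) : ℤ))) ^ 2 + 2 / (j : ℝ) ^ 2) =
      2 * (∑ i ∈ range j, ∑ κ ∈ range Q, ∑ s ∈ range q, (Fm f (Q * q) l (y + Q * ((q * s₀ : ℕ) : ℤ) + ((κ : ℕ) : ℤ) + Q * ((s : ℕ) : ℤ) + (Q * q * l : ℕ) * ((i : ℕ) : ℤ)) -
      Fm f Q (q * l * j) (y + Q * ((q * s₀ : ℕ) : ℤ) + ((κ : ℕ) : ℤ))) ^ 2) + ((j : ℝ) * Q * q) * (2 / (j : ℝ) ^ 2) := by
      simp only [Finset.sum_add_distrib, ← Finset.mul_sum, Finset.sum_const, Finset.card_range, nsmul_eq_mul]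
      ring
    rw [r8]
    linarith
  -- all of them
  have e0 : ∑ k ∈ range (Q * (q * (l * j))), (Fm f (Q * q) l (y + (k : ℕ)) - d (y + (k : ℕ))) ^ 2 =
      ∑ s₀ ∈ range l, ∑ i ∈ range j, ∑ κ ∈ range Q, ∑ s ∈ range q,
      (Fm f (Q * q) l (y + Q * ((q * s₀ : ℕ) : ℤ) + ((κ : ℕ) : ℤ) + Q * ((s : ℕ) : ℤ) + (Q * q * l : ℕ) * ((i : ℕ) : ℤ)) - Fm f Q (q * l * j) (y + ((κ : ℕ) : ℤ))) ^ 2 := by
    rw [REG_tile (fun k => (Fm f (Q * q) l (y + (k : ℕ)) - d (y + (k : ℕ))) ^ 2) Q,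
      REG_tile (fun m => ∑ κ ∈ range Q, (Fm f (Q * q) l (y + ((Q * m + κ : ℕ) : ℤ)) - d (y + ((Q * m + κ : ℕ) : ℤ))) ^ 2) q,
      REG_tile (fun m' => ∑ s ∈ range q, ∑ κ ∈ range Q, (Fm f (Q * q) l (y + ((Q * (q * m' + s) + κ : ℕ) : ℤ)) - d (y + ((Q * (q * m' + s) + κ : ℕ) : ℤ))) ^ 2) l,
      Finset.sum_comm]
    refine Finset.sum_congr rfl fun s₀ _ => Finset.sum_congr rfl fun i _ => ?_
    rw [Finset.sum_comm]
    refine Finset.sum_congr rfl fun κ hκ => Finset.sum_congr rfl fun s _ => ?_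
    rw [Finset.mem_range] at hκ
    have g1 : y + ((Q * (q * (l * i + s₀) + s) + κ : ℕ) : ℤ) = y + (κ : ℕ) + Q * ((q * (l * i + s₀) + s : ℕ) : ℤ) := by
      push_cast
      ring
    have g2 : y + ((Q * (q * (l * i + s₀) + s) + κ : ℕ) : ℤ) = y + Q * ((q * s₀ : ℕ) : ℤ) + ((κ : ℕ) : ℤ) + Q * ((s : ℕ) : ℤ) + (Q * q * l : ℕ) * ((i : ℕ) : ℤ) := by
      push_cast
      ring
    have g3 := hd κ ((q * (l * i + s₀) + s : ℕ) : ℤ) hκ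
    rw [← g1] at g3
    rw [g3, g2]
  rw [e0]
  calc _ ≤ ∑ _s₀ ∈ range l, ((j : ℝ) * Q * q) * (2 * ((3 * ε₂ + 2 / j) / η) + 2 / (j : ℝ) ^ 2) :=
        Finset.sum_le_sum fun s₀ hs₀ => one s₀ (Finset.mem_range.1 hs₀)
    _ = _ := by
      rw [Finset.sum_const, Finset.card_range, nsmul_eq_mul]
      push_cast
      ring

theorem REG (hRGI : RGI_stmt) : REG_stmt := by
  intro ι _ f δ ε₁ Qb hε hε1 hQb hf hδ
  classical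
  set η : ℝ := ε₁ / 2 with hηd
  set ε₂ : ℝ := ε₁ ^ 2 / 72 with hε₂d
  have hη : 0 < η := by positivity
  have hη2 : η ≤ 1 / 2 := by rw [hηd]; linarith
  have hε₂ : 0 < ε₂ := by positivity
  -- (c)
  have hc : ∀ i, ∃ Qi : ℕ, 1 ≤ Qi ∧ ∀ Q : ℕ, 1 ≤ Q → REG_E (f i) η Q ≤ REG_E (f i) η Qi + ε₂ := by
    intro i
    obtain ⟨n, hn⟩ := REG_sup (fun n => REG_E (f i) η (n + 1)) (1 + η) ε₂ (fun n => REG_E1 (hf i) hη.le (Nat.succ_pos n)) hε₂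
    refine ⟨n + 1, Nat.succ_pos n, fun Q hQ => ?_⟩
    have h := hn (Q - 1)
    have h2 : Q - 1 + 1 = Q := by omega
    simp only [h2] at h
    exact h
  choose Qi hQi1 hQi using hc
  have hprod : 1 ≤ ∏ i, Qi i := Nat.one_le_iff_ne_zero.2 (Finset.prod_ne_zero_iff.2 fun i _ => Nat.one_le_iff_ne_zero.1 (hQi1 i))
  set Q₀ : ℕ := Qb * ∏ i, Qi i with hQ₀d
  have hQ₀ : 1 ≤ Q₀ := Nat.mul_pos hQb hprod
  have hQ₀0 : (0 : ℝ) < Q₀ := by exact_mod_cast hQ₀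
  have hE0 : ∀ i (q : ℕ), 1 ≤ q → REG_E (f i) η (Q₀ * q) ≤ REG_E (f i) η Q₀ + ε₂ := by
    intro i q hq
    obtain ⟨m, hm⟩ : Qi i ∣ Q₀ := (Finset.dvd_prod_of_mem Qi (Finset.mem_univ i)).mul_left Qb
    have hm1 : 1 ≤ m := by
      rcases Nat.eq_zero_or_pos m with h | h
      · rw [h, mul_zero] at hm
        omega
      · exact h
    have h1 := REG_Emul hRGI (hf i) hη.le (hQi1 i) hm1
    rw [← hm] at h1
    have h2 := hQi i (Q₀ * q) (Nat.mul_pos hQ₀ hq)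
    linarith
  refine ⟨Q₀, hQ₀, Dvd.intro _ rfl, fun q hq => ?_⟩
  have hQq : 1 ≤ Q₀ * q := Nat.mul_pos hQ₀ hq
  -- (d)
  have hdl : ∀ i, ∃ li : ℕ, 1 ≤ li ∧ REG_S (f i) η (Q₀ * q) li ≤ REG_E (f i) η (Q₀ * q) + ε₂ := by
    intro i
    obtain ⟨n, hn⟩ := REG_inf (fun n => REG_S (f i) η (Q₀ * q) (n + 1)) ε₂ hε₂
    exact ⟨n + 1, Nat.succ_pos n, hn⟩
  choose li hli1 hli using hdl
  set l : ℕ := ∏ i, li i with hld
  have hl : 1 ≤ l := Nat.one_le_iff_ne_zero.2 (Finset.prod_ne_zero_iff.2 fun i _ => Nat.one_le_iff_ne_zero.1 (hli1 i))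
  have hSl : ∀ i, REG_S (f i) η (Q₀ * q) l ≤ REG_E (f i) η Q₀ + 2 * ε₂ := by
    intro i
    obtain ⟨m, hm⟩ : li i ∣ l := Finset.dvd_prod_of_mem li (Finset.mem_univ i)
    have hm1 : 1 ≤ m := by
      rcases Nat.eq_zero_or_pos m with h | h
      · rw [h, mul_zero] at hm
        omega
      · exact h
    have h1 := REG_Smul hRGI (hf i) hη.le hQq (hli1 i) hm1
    rw [← hm] at h1
    have h2 := hE0 i q hq
    have h3 := hli i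
    linarith
  refine ⟨l, hl, fun P hP => ?_⟩
  set D : ℕ := Q₀ * q * l with hDd
  have hD : 0 < D := Nat.mul_pos hQq hl
  have hD0 : (0 : ℝ) < D := by exact_mod_cast hD
  refine ⟨1 + P + D + ⌈50 * (D : ℝ) / ε₁ ^ 2⌉₊, fun X hX i => ?_⟩
  have hX1 : 1 + P + D ≤ X := (Nat.le_add_right _ _).trans hX
  have hX2 : 50 * (D : ℝ) / ε₁ ^ 2 ≤ X := (Nat.le_ceil _).trans (by exact_mod_cast (Nat.le_add_left _ _).trans hX)
  set j : ℕ := (2 * X + 1 + P) / D + 1 with hjd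
  have hj : 1 ≤ j := Nat.succ_pos _
  have hj0 : (0 : ℝ) < j := by exact_mod_cast hj
  have hT1 : 2 * X + 1 + P < D * j := Nat.lt_mul_div_succ _ hD
  have hT2 : D * j ≤ 3 * X := by
    have h1 : D * ((2 * X + 1 + P) / D) ≤ 2 * X + 1 + P := Nat.mul_div_le _ _
    rw [hjd, Nat.mul_succ]
    omega
  have hT2' : (D : ℝ) * j ≤ 3 * X := by exact_mod_cast hT2
  have hjX : 100 / ε₁ ^ 2 ≤ j := by
    have h1 : (2 : ℝ) * X ≤ D * j := by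
      have : 2 * X ≤ D * j := by omega
      exact_mod_cast this
    rw [div_le_iff₀ (by positivity)] at hX2
    rw [div_le_iff₀ (by positivity)]
    have h2 : (D : ℝ) * 100 ≤ D * (j * ε₁ ^ 2) := by nlinarith [sq_nonneg ε₁]
    exact le_of_mul_le_mul_left h2 hD0
  have hj1 : 1 / (j : ℝ) ≤ ε₁ ^ 2 / 100 := by
    rw [div_le_iff₀ (by positivity)] at hjX
    rw [div_le_div_iff₀ hj0 (by norm_num)]
    linarith
  have hqlj : 1 ≤ q * l * j := Nat.mul_pos (Nat.mul_pos hq hl) hj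
  -- the place
  obtain ⟨y, hy⟩ : ∃ y, REG_E (f i) η Q₀ - ε₂ ≤ en (f i) η Q₀ (q * l * j) y := by
    have h1 := REG_EleS (hf i) hη.le hQ₀ hqlj
    obtain ⟨y, hy⟩ := exists_lt_of_lt_ciSup (show REG_E (f i) η Q₀ - ε₂ < ⨆ y : ℤ, en (f i) η Q₀ (q * l * j) y from lt_of_lt_of_le (by linarith) h1)
    exact ⟨y, hy.le⟩
  set d : ℤ → ℝ := fun x => Fm (f i) Q₀ (q * l * j) (y + (x - y) % (Q₀ : ℤ)) with hdd
  have hQZ : (0 : ℤ) < Q₀ := by exact_mod_cast hQ₀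
  have hPZ : (0 : ℤ) < P := by exact_mod_cast hP
  have hdκ : ∀ (κ : ℕ) (m : ℤ), κ < Q₀ → d (y + (κ : ℕ) + Q₀ * m) = Fm (f i) Q₀ (q * l * j) (y + (κ : ℕ)) := by
    intro κ m hκ
    rw [hdd]
    have h1 : (y + (κ : ℕ) + Q₀ * m - y) % (Q₀ : ℤ) = (κ : ℕ) := by
      have h2 : y + (κ : ℕ) + Q₀ * m - y = (κ : ℕ) + Q₀ * m := by ring
      rw [h2, Int.add_mul_emod_self_left, Int.emod_eq_of_lt (by omega) (by exact_mod_cast hκ)]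
    simp only [h1]
  have hdper : ∀ x k : ℤ, d (x + Q₀ * k) = d x := by
    intro x k
    rw [hdd]
    have h1 : (x + Q₀ * k - y) % (Q₀ : ℤ) = (x - y) % (Q₀ : ℤ) := by
      have h2 : x + Q₀ * k - y = (x - y) + Q₀ * k := by ring
      rw [h2, Int.add_mul_emod_self_left]
    simp only [h1]
  have hVdiv := Int.emod_add_mul_ediv (y + X + P - 1) P
  have hV0 := Int.emod_nonneg (y + X + P - 1) hPZ.ne'
  have hV1 := Int.emod_lt_of_pos (y + X + P - 1) hPZ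
  refine ⟨P * ((y + X + P - 1) / P), d, Dvd.intro _ rfl, fun x => ⟨REG_Fm0 (hf i) _ _ _, REG_Fm1 (hf i) _ _ _⟩, hdper, ?_, ?_, ?_⟩
  · intro x hx
    rw [hdd]
    simp only []
    rw [REG_Fm]
    have h1 : ∀ k ∈ range (q * l * j), f i (y + (x - y) % (Q₀ : ℤ) + (Q₀ : ℤ) * ((k : ℕ) : ℤ)) = 0 := by
      intro k _
      have h2 := Int.emod_add_mul_ediv (x - y) (Q₀ : ℤ)
      have h3 : y + (x - y) % (Q₀ : ℤ) + (Q₀ : ℤ) * ((k : ℕ) : ℤ) = x + Q₀ * (((k : ℕ) : ℤ) - (x - y) / Q₀) := by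
        linear_combination h2
      rw [h3]
      exact hx _
    rw [Finset.sum_eq_zero h1, zero_div]
  · have h1 := REG_period Q₀ hQ₀ d hdper y
    rw [h1]
    have h2 : ∑ k ∈ range Q₀, d (y + (k : ℕ)) = ∑ k ∈ range Q₀, Fm (f i) Q₀ (q * l * j) (y + (k : ℕ)) := by
      refine Finset.sum_congr rfl fun k hk => ?_
      have h3 := hdκ k 0 (Finset.mem_range.1 hk)
      rwa [mul_zero, add_zero] at h3
    rw [h2]
    have h3 : (Q₀ : ℝ) * en (f i) η Q₀ (q * l * j) y ≤ ∑ k ∈ range Q₀, Fm (f i) Q₀ (q * l * j) (y + (k : ℕ)) + Q₀ * η := by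
      rw [REG_en, mul_div_cancel₀ _ hQ₀0.ne']
      have h4 : ∑ κ ∈ range Q₀, (Fm (f i) Q₀ (q * l * j) (y + ((κ : ℕ) : ℤ)) + η * Fm (f i) Q₀ (q * l * j) (y + ((κ : ℕ) : ℤ)) ^ 2) ≤
          ∑ κ ∈ range Q₀, (Fm (f i) Q₀ (q * l * j) (y + ((κ : ℕ) : ℤ)) + η) := by
        refine Finset.sum_le_sum fun κ _ => ?_
        have a0 := REG_Fm0 (hf i) Q₀ (q * l * j) (y + ((κ : ℕ) : ℤ))
        have a1 := REG_Fm1 (hf i) Q₀ (q * l * j) (y + ((κ : ℕ) : ℤ))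
        have a2 : Fm (f i) Q₀ (q * l * j) (y + ((κ : ℕ) : ℤ)) ^ 2 ≤ 1 := by nlinarith
        nlinarith
      refine h4.trans (le_of_eq ?_)
      rw [Finset.sum_add_distrib, Finset.sum_const, Finset.card_range, nsmul_eq_mul]
    have h5 : δ i ≤ REG_E (f i) η Q₀ := REG_delta_le (hf i) hη.le hQ₀ (hδ i)
    have h6 : δ i - ε₁ ≤ en (f i) η Q₀ (q * l * j) y - η := by
      have h7 : ε₂ + η ≤ ε₁ := by
        rw [hε₂d, hηd]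
        nlinarith
      linarith
    have h8 := mul_le_mul_of_nonneg_right h6 hQ₀0.le
    linarith
  · have h1 := REG_err hRGI (hf i) hη hη2 hQ₀ hq hl hj (hSl i) hy d hdκ
    have hTT : Q₀ * (q * (l * j)) = D * j := by
      rw [hDd]
      ring
    rw [hTT] at h1
    have h2 : ∑ x ∈ Icc (P * ((y + X + P - 1) / P) - X : ℤ) (P * ((y + X + P - 1) / P) + X), (Fm (f i) (Q₀ * q) l x - d x) ^ 2 ≤
        ∑ k ∈ range (D * j), (Fm (f i) (Q₀ * q) l (y + (k : ℕ)) - d (y + (k : ℕ))) ^ 2 := by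
      have h3 : ∑ k ∈ range (D * j), (Fm (f i) (Q₀ * q) l (y + (k : ℕ)) - d (y + (k : ℕ))) ^ 2 =
          ∑ x ∈ (range (D * j)).image (fun k : ℕ => y + ((k : ℕ) : ℤ)), (Fm (f i) (Q₀ * q) l x - d x) ^ 2 := by
        rw [Finset.sum_image]
        intro a _ b _ hab
        simpa using hab
      rw [h3]
      refine Finset.sum_le_sum_of_subset_of_nonneg ?_ fun x _ _ => sq_nonneg _
      intro x hx
      rw [Finset.mem_Icc] at hx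
      rw [Finset.mem_image]
      have hT3 : (2 * X + 1 + P : ℤ) < (D * j : ℕ) := by exact_mod_cast hT1
      refine ⟨(x - y).toNat, ?_, ?_⟩
      · rw [Finset.mem_range]
        omega
      · omega
    refine h2.trans (h1.trans ?_)
    have h4 : 2 * ((3 * ε₂ + 2 / j) / η) + 2 / (j : ℝ) ^ 2 ≤ ε₁ / 3 := by
      have e1 : 2 * ((3 * ε₂ + 2 / j) / η) = ε₁ / 6 + 8 * (1 / j) / ε₁ := by
        rw [hε₂d, hηd]
        field_simp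
        ring
      have e2 : 8 * (1 / (j : ℝ)) / ε₁ ≤ 8 * ε₁ / 100 := by
        rw [div_le_iff₀ hε]
        nlinarith
      have e3 : 2 / (j : ℝ) ^ 2 ≤ ε₁ / 100 := by
        have e4 : 2 / (j : ℝ) ^ 2 = 2 * (1 / (j : ℝ)) ^ 2 := by
          rw [div_pow, one_pow]
          ring
        rw [e4]
        have e5 : (1 / (j : ℝ)) ^ 2 ≤ (ε₁ ^ 2 / 100) ^ 2 := pow_le_pow_left₀ (by positivity) hj1 2
        have e6 : ε₁ ^ 4 ≤ ε₁ := by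
          have e7 : ε₁ ^ 3 ≤ 1 := pow_le_one₀ hε.le hε1
          nlinarith
        nlinarith
      rw [e1]
      linarith
    have h5 : (0 : ℝ) ≤ ((D * j : ℕ) : ℝ) := Nat.cast_nonneg _
    calc ((D * j : ℕ) : ℝ) * (2 * ((3 * ε₂ + 2 / j) / η) + 2 / (j : ℝ) ^ 2) ≤ ((D * j : ℕ) : ℝ) * (ε₁ / 3) := mul_le_mul_of_nonneg_left h4 h5
      _ = (D * j) * ε₁ / 3 := by
        push_cast
        ring
      _ ≤ 3 * X * ε₁ / 3 := by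
        have := mul_le_mul_of_nonneg_right hT2' hε.le
        linarith
      _ = ε₁ * X := by ring

end Pool.Agent.DP
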