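import Pool.Agent.helper98.DP.RTBCore

/-!
# Module RTB of project dp: disjoint curves to the standard points
-/

namespace DP

open Polar

/-- Lifted positions. -/
def RTB_lift (n : ℕ) (p : ℕ → ℤ) (l : ℕ) : ℤ := if p l < p 0 then p l + 8 * n else p l

theorem RTB_lift_spec (n : ℕ) (p : ℕ → ℤ) (l : ℕ) : ∃ k : ℤ, RTB_lift n p l = p l + 8 * n * k := by
  unfold RTB_lift
  split_ifs
  · exact ⟨1, by ring⟩
  · exact ⟨0, by ring⟩

/-- The targets and the lifts are separated in the same way. -/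
theorem RTB_order (CG1 : CG1_stmt) (CG2 : CG2_stmt) (j : ℕ) (x : V) (n S : ℕ) (y : ℕ → V)
    (hj : j = 2 ∨ j = 4) (hn : 1 ≤ n) (hS : 1 ≤ S)
    (hy : ∀ l < j, y l ∈ bd x n) (hO : Ord j x n y)
    (hs : ∀ l < j, ∀ l' < j, l ≠ l' → S ≤ sd (y l) (y l')) :
    ∃ (L π : ℕ → ℕ),
      ((∀ l < j, l % 2 = 0 → π l = l) ∨ (∀ l < j, l % 2 = 0 → π l = (l + 2) % j)) ∧
      ((∀ l < j, l % 2 = 1 → π l = l) ∨ (∀ l < j, l % 2 = 1 → π l = (l + 2) % j)) ∧
      (∀ l < j, π l < 4) ∧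
      (∀ l < j, L l ≤ 16 * n ∧ ∃ k : ℤ, (L l : ℤ) = pos x n (y l) + 8 * n * k) ∧
      ∀ l < j, ∀ l' < j, l' % 2 ≠ l % 2 →
        ((S ≤ (L l : ℤ) - L l' ∧ (L l : ℤ) - L l' ≤ 8 * n - S ∧
            1 ≤ (π l : ℤ) - π l' ∧ (π l : ℤ) - π l' ≤ 3) ∨
          (S ≤ (L l' : ℤ) - L l ∧ (L l' : ℤ) - L l ≤ 8 * n - S ∧
            1 ≤ (π l' : ℤ) - π l ∧ (π l' : ℤ) - π l ≤ 3)) := by
  set p : ℕ → ℤ := fun l => pos x n (y l) with hp
  obtain ⟨c1, -, -⟩ := CG1 x n hn
  have hpos : ∀ l < j, 0 < p l ∧ p l ≤ 8 * n := fun l hl => c1 (y l) (hy l hl)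
  have hsep : ∀ l < j, ∀ l' < j, l ≠ l' → (S : ℤ) ≤ |p l - p l'| ∧ (S : ℤ) ≤ 8 * n - |p l - p l'| := by
    intro l hl l' hl' hne
    obtain ⟨g1, g2, -⟩ := CG2 x n hn (y l) (hy l hl) (y l') (hy l' hl')
    have g3 : (S : ℤ) ≤ sd (y l) (y l') := by exact_mod_cast hs l hl l' hl' hne
    exact ⟨g3.trans g1, g3.trans g2⟩
  have hlift : ∀ l < j, 0 < RTB_lift n p l ∧ RTB_lift n p l ≤ 16 * n := by
    intro l hl
    have := hpos l hl
    unfold RTB_lift
    split_ifs <;> omega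
  have hnat : ∀ l < j, ((RTB_lift n p l).toNat : ℤ) = RTB_lift n p l := fun l hl =>
    Int.toNat_of_nonneg (hlift l hl).1.le
  have hLk : ∀ l < j, (RTB_lift n p l).toNat ≤ 16 * n ∧
      ∃ k : ℤ, ((RTB_lift n p l).toNat : ℤ) = pos x n (y l) + 8 * n * k := by
    intro l hl
    have h1 := hnat l hl
    have h2 := (hlift l hl).2
    refine ⟨by omega, ?_⟩
    obtain ⟨k, hk⟩ := RTB_lift_spec n p l
    exact ⟨k, by rw [h1, hk]⟩
  have hsepL : ∀ l < j, ∀ l' < j, l ≠ l' → (S : ℤ) ≤ |RTB_lift n p l - RTB_lift n p l'| ∧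
      |RTB_lift n p l - RTB_lift n p l'| ≤ 8 * n - S := by
    intro l hl l' hl' hne
    obtain ⟨g1, g2⟩ := hsep l hl l' hl' hne
    have h0 := hpos 0 (by omega)
    have h1 := hpos l hl
    have h2 := hpos l' hl'
    unfold RTB_lift
    constructor
    · rcases abs_cases (p l - p l') with ⟨e1, e2⟩ | ⟨e1, e2⟩ <;> rw [e1] at g1 g2 <;>
      split_ifs <;>
      (rw [le_abs]; omega)
    · rcases abs_cases (p l - p l') with ⟨e1, e2⟩ | ⟨e1, e2⟩ <;> rw [e1] at g1 g2 <;>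
      split_ifs <;>
      (rw [abs_le]; constructor <;> omega)
  -- a convenient form of the conclusion
  have fin : ∀ (π : ℕ → ℕ), (∀ l < j, ∀ l' < j, l' % 2 ≠ l % 2 →
      ((RTB_lift n p l' < RTB_lift n p l ∧ 1 ≤ (π l : ℤ) - π l' ∧ (π l : ℤ) - π l' ≤ 3) ∨
        (RTB_lift n p l < RTB_lift n p l' ∧ 1 ≤ (π l' : ℤ) - π l ∧ (π l' : ℤ) - π l ≤ 3))) →
      ∀ l < j, ∀ l' < j, l' % 2 ≠ l % 2 →
        (((S : ℤ) ≤ ((RTB_lift n p l).toNat : ℤ) - ((RTB_lift n p l').toNat : ℤ) ∧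
          ((RTB_lift n p l).toNat : ℤ) - ((RTB_lift n p l').toNat : ℤ) ≤ 8 * n - S ∧
            1 ≤ (π l : ℤ) - π l' ∧ (π l : ℤ) - π l' ≤ 3) ∨
          ((S : ℤ) ≤ ((RTB_lift n p l').toNat : ℤ) - ((RTB_lift n p l).toNat : ℤ) ∧
            ((RTB_lift n p l').toNat : ℤ) - ((RTB_lift n p l).toNat : ℤ) ≤ 8 * n - S ∧
            1 ≤ (π l' : ℤ) - π l ∧ (π l' : ℤ) - π l ≤ 3)) := by
    intro π hπ l hl l' hl' hne
    rw [hnat l hl, hnat l' hl']
    obtain ⟨g1, g2⟩ := hsepL l hl l' hl' (fun h => hne (by rw [h]))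
    rcases hπ l hl l' hl' hne with ⟨a1, a2, a3⟩ | ⟨a1, a2, a3⟩
    · left
      rw [abs_of_pos (by linarith)] at g1 g2
      exact ⟨g1, g2, a2, a3⟩
    · right
      rw [abs_of_neg (by linarith)] at g1 g2
      exact ⟨by linarith, by linarith, a2, a3⟩
  rcases hj with rfl | rfl
  · -- two arms
    refine ⟨fun l => (RTB_lift n p l).toNat, fun l => l, Or.inl fun l _ _ => rfl,
      Or.inl fun l _ _ => rfl, fun l hl => lt_of_lt_of_le hl (by norm_num), hLk, ?_⟩
    apply fin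
    intro l hl l' hl' hne
    obtain ⟨g1, g2⟩ := hsep 0 (by norm_num) 1 (by norm_num) (by norm_num)
    have h0 := hpos 0 (by norm_num)
    have h1 := hpos 1 (by norm_num)
    have key : RTB_lift n p 0 < RTB_lift n p 1 := by
      unfold RTB_lift
      rcases abs_cases (p 0 - p 1) with ⟨e1, e2⟩ | ⟨e1, e2⟩ <;> rw [e1] at g1 g2 <;>
      split_ifs <;> omega
    interval_cases l <;> interval_cases l' <;> omega
  · -- four arms
    have hAlt : alt x n (y 0) (y 1) (y 2) (y 3) := by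
      have := hO
      unfold Ord at this
      simpa using this
    obtain ⟨-, -, hA⟩ := hAlt
    have s01 := hsep 0 (by norm_num) 1 (by norm_num) (by norm_num)
    have s02 := hsep 0 (by norm_num) 2 (by norm_num) (by norm_num)
    have s03 := hsep 0 (by norm_num) 3 (by norm_num) (by norm_num)
    have s12 := hsep 1 (by norm_num) 2 (by norm_num) (by norm_num)
    have s13 := hsep 1 (by norm_num) 3 (by norm_num) (by norm_num)
    have s23 := hsep 2 (by norm_num) 3 (by norm_num) (by norm_num)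
    have ne : ∀ a b : ℤ, (S : ℤ) ≤ |a - b| → a ≠ b := by
      rintro a b h rfl
      rw [sub_self, abs_zero] at h
      omega
    have n01 := ne _ _ s01.1
    have n02 := ne _ _ s02.1
    have n03 := ne _ _ s03.1
    have n12 := ne _ _ s12.1
    have n13 := ne _ _ s13.1
    have n23 := ne _ _ s23.1
    have h0 := hpos 0 (by norm_num)
    have h1 := hpos 1 (by norm_num)
    have h2 := hpos 2 (by norm_num)
    have h3 := hpos 3 (by norm_num)
    clear s01 s02 s03 s12 s13 s23 hsep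
    rcases hA with ⟨hA1, hA2⟩ | ⟨hA1, hA2⟩
    · -- order 0 1 2 3
      have b1 := hA1.2.2.2
      have b2 := hA2.2.2.2
      have key : RTB_lift n p 0 < RTB_lift n p 1 ∧ RTB_lift n p 1 < RTB_lift n p 2 ∧
          RTB_lift n p 2 < RTB_lift n p 3 := by
        change (if p 0 ≤ p 2 then p 0 ≤ p 1 ∧ p 1 ≤ p 2 else p 0 ≤ p 1 ∨ p 1 ≤ p 2) at b1
        change (if p 2 ≤ p 0 then p 2 ≤ p 3 ∧ p 3 ≤ p 0 else p 2 ≤ p 3 ∨ p 3 ≤ p 0) at b2
        unfold RTB_lift
        split_ifs at * <;> omega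
      refine ⟨fun l => (RTB_lift n p l).toNat, fun l => l, Or.inl fun l _ _ => rfl,
        Or.inl fun l _ _ => rfl, fun l hl => hl, hLk, ?_⟩
      apply fin
      intro l hl l' hl' hne
      interval_cases l <;> interval_cases l' <;> omega
    · -- order 0 3 2 1
      have b1 := hA1.2.2.2
      have b2 := hA2.2.2.2
      have key : RTB_lift n p 0 < RTB_lift n p 3 ∧ RTB_lift n p 3 < RTB_lift n p 2 ∧
          RTB_lift n p 2 < RTB_lift n p 1 := by
        change (if p 0 ≤ p 2 then p 0 ≤ p 3 ∧ p 3 ≤ p 2 else p 0 ≤ p 3 ∨ p 3 ≤ p 2) at b1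
        change (if p 2 ≤ p 0 then p 2 ≤ p 1 ∧ p 1 ≤ p 0 else p 2 ≤ p 1 ∨ p 1 ≤ p 0) at b2
        unfold RTB_lift
        split_ifs at * <;> omega
      refine ⟨fun l => (RTB_lift n p l).toNat,
        fun l => if l % 2 = 0 then l else (l + 2) % 4,
        Or.inl fun l _ h => if_pos h, Or.inr fun l _ h => if_neg (by omega), ?_, hLk, ?_⟩
      · intro l hl
        simp only
        split_ifs <;> omega
      · apply fin
        intro l hl l' hl' hne
        interval_cases l <;> interval_cases l' <;> simp at hne ⊢ <;> omega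

theorem RTB (CG1 : CG1_stmt) (CG2 : CG2_stmt) : RTB_stmt := by
  intro d e hde
  refine ⟨e + 12, 5 * 2 ^ (e + 17), e + 16, by omega, by omega, ?_⟩
  intro j s x i y hj hi hy hO hs
  obtain ⟨q, rfl⟩ : ∃ q, i = e + 12 + q := ⟨i - (e + 12), by omega⟩
  have hq4 : 4 ≤ q := by omega
  have eih : e + 12 + q - (e + 12) = q := by omega
  have eie : e + 12 + q - e = 12 + q := by omega
  rw [eih, eie]
  have hS : ∀ l < j, ∀ l' < j, l ≠ l' → 2 ^ (12 + q) ≤ sd (y l) (y l') := by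
    intro l hl l' hl' hne
    refine le_trans ?_ (hs l hl l' hl' hne)
    exact Nat.pow_le_pow_right (by norm_num) (by omega)
  have hpow : 2 ^ (e + 12 + q) = 4096 * (2 ^ e * 2 ^ q) := by
    rw [pow_add, pow_add]; norm_num; ring
  have hpq : 2 ^ (12 + q) = 4096 * 2 ^ q := by rw [pow_add]; norm_num
  have he1 : 1 ≤ 2 ^ e := Nat.one_le_two_pow
  have hq1 : 16 ≤ 2 ^ q := by
    calc 16 = 2 ^ 4 := by norm_num
      _ ≤ 2 ^ q := Nat.pow_le_pow_right (by norm_num) hq4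
  have hA1 : 2 ^ q ≤ 2 ^ e * 2 ^ q := Nat.le_mul_of_pos_left _ (by omega)
  obtain ⟨L, π, hπ0, hπ1, hπ4, hL, hLL⟩ := RTB_order CG1 CG2 j x (2 ^ (e + 12 + q)) (2 ^ (12 + q)) y
    hj Nat.one_le_two_pow Nat.one_le_two_pow hy hO hS
  -- real quantities
  set W : ℝ := 2 ^ q with hW
  set P : ℝ := 2 ^ e with hP
  set n : ℝ := 4096 * (P * W) with hn
  have hW16 : 16 ≤ W := by rw [hW]; exact_mod_cast hq1
  have hP1 : 1 ≤ P := by rw [hP]; exact_mod_cast he1
  have hPW : W ≤ P * W := by nlinarith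
  have hn0 : 0 < n := by rw [hn]; nlinarith
  have hWn : 256 * W ≤ n := by rw [hn]; nlinarith
  have hncast : ((2 ^ (e + 12 + q) : ℕ) : ℝ) = n := by rw [hpow]; push_cast; rfl
  set κ : ℝ := 1 / (524288 * P) with hκ
  have hκ0 : 0 < κ := by rw [hκ]; positivity
  have hκn : n * κ = W / 128 := by
    rw [hn, hκ]; field_simp; ring
  have hTκ : κ * ((5 * 2 ^ (e + 17) : ℕ) : ℝ) = 5 / 4 := by
    have : ((5 * 2 ^ (e + 17) : ℕ) : ℝ) = 655360 * P := by
      push_cast; rw [pow_add]; norm_num; ring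
    rw [this, hκ]; field_simp; norm_num
  set Θ : ℕ → ℝ := fun l => (L l : ℝ) / n with hΘ
  set Τ : ℕ → ℝ := fun l => 1 + 2 * (π l : ℝ) with hΤ
  have hΘv : ∀ l < j, vec x (y l) = n • E (Θ l) := by
    intro l hl
    obtain ⟨-, k, hk⟩ := hL l hl
    have h1 := vec_pos x (2 ^ (e + 12 + q)) Nat.one_le_two_pow (y l) (hy l hl) k
    rw [hncast] at h1
    rw [h1]
    congr 2
    have h2 : (L l : ℝ) = pos x (2 ^ (e + 12 + q)) (y l) + 8 * n * k := by
      rw [← hncast]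
      exact_mod_cast hk
    rw [hΘ]
    simp only
    rw [h2]
    field_simp
  have hΘΤ : ∀ l < j, |Τ l - Θ l| ≤ 16 := by
    intro l hl
    have h1 : (L l : ℝ) ≤ 16 * n := by
      rw [← hncast]
      exact_mod_cast (hL l hl).1
    have h2 : Θ l ≤ 16 := by
      rw [hΘ]; simp only
      rw [div_le_iff₀ hn0]
      exact h1
    have h3 : 0 ≤ Θ l := by rw [hΘ]; simp only; positivity
    have h4 : (π l : ℝ) ≤ 3 := by
      have := hπ4 l hl
      exact_mod_cast (by omega : π l ≤ 3)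
    have h5 : (0 : ℝ) ≤ π l := Nat.cast_nonneg _
    rw [abs_le]
    simp only [hΤ]
    constructor <;> linarith
  have hτ : ∀ t : ℕ, t ≤ 5 * 2 ^ (e + 17) → 0 ≤ κ * t ∧ κ * t ≤ 5 / 4 := by
    intro t ht
    refine ⟨by positivity, ?_⟩
    rw [← hTκ]
    apply mul_le_mul_of_nonneg_left _ hκ0.le
    exact_mod_cast ht
  refine ⟨π, fun l t => rd x (Fc s n (Θ l) (Τ l) (κ * t)), hπ0, hπ1, ?_⟩
  intro l hl
  have hnx : ((nx s (2 ^ (e + 12 + q)) : ℕ) : ℝ) = if s = true then 2 * n else n / 2 := by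
    unfold nx
    split_ifs
    · push_cast; rw [← hncast]; push_cast; rfl
    · rw [Nat.cast_div (by
        rw [hpow]
        exact ⟨2048 * (2 ^ e * 2 ^ q), by ring⟩) (by norm_num)]
      rw [hncast]; norm_num
  refine ⟨?_, ?_, ?_, ?_⟩
  · -- start
    simp only
    rw [Nat.cast_zero, mul_zero, Fc_zero, ← hΘv l hl]
    exact rd_vec x (y l) _ rfl
  · -- steps
    intro t ht
    have h1 := hτ (t + 1) ht
    have h2 := Fc_step s n (Θ l) (Τ l) (κ * t) (κ * ((t + 1 : ℕ) : ℝ)) hn0 h1.1 h1.2 (hΘΤ l hl)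
    have h3 : |κ * (t : ℝ) - κ * ((t + 1 : ℕ) : ℝ)| = κ := by
      push_cast
      have : κ * (t : ℝ) - κ * ((t : ℝ) + 1) = -κ := by ring
      rw [this, abs_neg, abs_of_pos hκ0]
    rw [h3] at h2
    have h4 : 73 * n * κ = 73 * W / 128 := by
      rw [mul_assoc, hκn]; ring
    rw [h4] at h2
    have h5 := vec_rd x (Fc s n (Θ l) (Τ l) (κ * t))
    have h6 := vec_rd x (Fc s n (Θ l) (Τ l) (κ * ((t + 1 : ℕ) : ℝ)))
    have h7 : ((sd (rd x (Fc s n (Θ l) (Τ l) (κ * t)))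
        (rd x (Fc s n (Θ l) (Τ l) (κ * ((t + 1 : ℕ) : ℝ)))) : ℕ) : ℝ) ≤ ((2 ^ q : ℕ) : ℝ) := by
      rw [sd_vec x]
      push_cast
      rw [← hW]
      have h8 := norm_sub_le_norm_sub_add_norm_sub (vec x (rd x (Fc s n (Θ l) (Τ l) (κ * t))))
        (Fc s n (Θ l) (Τ l) (κ * t)) (vec x (rd x (Fc s n (Θ l) (Τ l) (κ * ((t + 1 : ℕ) : ℝ)))))
      have h9 := norm_sub_le_norm_sub_add_norm_sub (Fc s n (Θ l) (Τ l) (κ * t))
        (Fc s n (Θ l) (Τ l) (κ * ((t + 1 : ℕ) : ℝ)))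
        (vec x (rd x (Fc s n (Θ l) (Τ l) (κ * ((t + 1 : ℕ) : ℝ)))))
      rw [norm_sub_rev (Fc s n (Θ l) (Τ l) (κ * ((t + 1 : ℕ) : ℝ)))
        (vec x (rd x (Fc s n (Θ l) (Τ l) (κ * ((t + 1 : ℕ) : ℝ)))))] at h9
      push_cast at *
      linarith
    exact_mod_cast h7
  · -- end
    have hend : ∀ r : ℕ, (r : ℝ) = n * rho s (5 / 4) →
        rd x (Fc s n (Θ l) (Τ l) (κ * ((5 * 2 ^ (e + 17) : ℕ) : ℝ))) = zpt x r (π l) := by
      intro r hr
      apply rd_vec
      rw [vec_zpt, Nat.mod_eq_of_lt (hπ4 l hl), hTκ]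
      unfold Fc
      rw [ang_one _ _ _ (by norm_num), hr]
    by_cases hs' : s = true
    · subst hs'
      refine ⟨9 * (1024 * (2 ^ e * 2 ^ q)), hend _ ?_, ?_⟩
      · unfold rho
        rw [if_pos rfl, hn]; push_cast; ring
      · rw [if_pos rfl]
        unfold nx
        rw [if_pos rfl, hpow]
        omega
    · have hs'' : s = false := by simpa using hs'
      subst hs''
      refine ⟨3 * (512 * (2 ^ e * 2 ^ q)), hend _ ?_, ?_⟩
      · unfold rho
        rw [if_neg (by simp), hn]; push_cast; ring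
      · rw [if_neg (by simp)]
        unfold nx
        rw [if_neg (by simp), hpow]
        omega
  · intro t ht
    obtain ⟨h0, h1⟩ := hτ t ht
    have hq := vec_rd x (Fc s n (Θ l) (Τ l) (κ * t))
    have hsepS : ∀ l' < j, l' % 2 ≠ l % 2 → Sep (1 / P) (Θ l) (Τ l) (Θ l') (Τ l') := by
      intro l' hl' hne
      have hSn : ((2 ^ (12 + q) : ℕ) : ℝ) / n = 1 / P := by
        rw [hpq, hn]; push_cast; rw [← hW]; field_simp
      have hP2 : 1 / P ≤ 1 := by
        rw [div_le_one (by linarith)]; exact hP1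
      have conv : ∀ a b : ℕ, ((2 ^ (12 + q) : ℕ) : ℤ) ≤ (L a : ℤ) - L b →
          (L a : ℤ) - L b ≤ 8 * ((2 ^ (e + 12 + q) : ℕ) : ℤ) - ((2 ^ (12 + q) : ℕ) : ℤ) →
          1 / P ≤ Θ a - Θ b ∧ Θ a - Θ b ≤ 8 - 1 / P := by
        intro a b g1 g2
        have g1' : ((2 ^ (12 + q) : ℕ) : ℝ) ≤ (L a : ℝ) - L b := by exact_mod_cast g1
        have g2' : (L a : ℝ) - L b ≤ 8 * n - ((2 ^ (12 + q) : ℕ) : ℝ) := by
          rw [← hncast]; exact_mod_cast g2
        have e1 : Θ a - Θ b = ((L a : ℝ) - L b) / n := by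
          simp only [hΘ]; ring
        rw [e1, ← hSn]
        constructor
        · exact div_le_div_of_nonneg_right g1' hn0.le
        · have := div_le_div_of_nonneg_right g2' hn0.le
          refine this.trans (le_of_eq ?_)
          field_simp
      have convπ : ∀ a b : ℕ, 1 ≤ (π a : ℤ) - π b → (π a : ℤ) - π b ≤ 3 →
          1 / P ≤ Τ a - Τ b ∧ Τ a - Τ b ≤ 8 - 1 / P := by
        intro a b g1 g2
        have g1' : (1 : ℝ) ≤ (π a : ℝ) - π b := by exact_mod_cast g1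
        have g2' : (π a : ℝ) - π b ≤ 3 := by exact_mod_cast g2
        simp only [hΤ]
        constructor <;> linarith
      rcases hLL l hl l' hl' hne with ⟨g1, g2, g3, g4⟩ | ⟨g1, g2, g3, g4⟩
      · left
        have a1 := conv l l' (by exact_mod_cast g1) (by push_cast at *; exact g2)
        have a2 := convπ l l' g3 g4
        exact ⟨a1.1, a1.2, a2.1, a2.2⟩
      · right
        have a1 := conv l' l (by exact_mod_cast g1) (by push_cast at *; exact g2)
        have a2 := convπ l' l g3 g4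
        exact ⟨a1.1, a1.2, a2.1, a2.2⟩
    have hbb : ∀ l' < j, l' % 2 ≠ l % 2 → ∀ m : ℤ, 2 ≤ |Τ l - Τ l' - 8 * m| := by
      intro l' hl' hne m
      rcases hLL l hl l' hl' hne with ⟨g1, g2, g3, g4⟩ | ⟨g1, g2, g3, g4⟩
      · have g1' : (1 : ℝ) ≤ (π l : ℝ) - π l' := by exact_mod_cast g3
        have g2' : (π l : ℝ) - π l' ≤ 3 := by exact_mod_cast g4
        apply sep_mod 2 _ (by norm_num) <;> simp only [hΤ] <;> linarith
      · have g1' : (1 : ℝ) ≤ (π l' : ℝ) - π l := by exact_mod_cast g3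
        have g2' : (π l' : ℝ) - π l ≤ 3 := by exact_mod_cast g4
        have h3 := sep_mod 2 (Τ l' - Τ l) (by norm_num) (by simp only [hΤ]; linarith)
          (by simp only [hΤ]; linarith) (-m)
        push_cast at h3
        have e2 : Τ l' - Τ l - 8 * (-(m : ℝ)) = -(Τ l - Τ l' - 8 * m) := by ring
        rw [e2, abs_neg] at h3
        exact h3
    refine ⟨?_, ?_⟩
    · intro v hv
      have hv' : ‖vec x (rd x (Fc s n (Θ l) (Τ l) (κ * t))) - vec x v‖ ≤ 5 * W := by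
        rw [← sd_vec x, hW]
        exact_mod_cast hv
      refine ⟨?_, ?_, ?_⟩
      · intro hHS
        have h2 : if s = true then ‖vec x v‖ ≤ n else n ≤ ‖vec x v‖ := by
          rw [← sd_vec0, ← hncast]
          unfold HS at hHS
          split_ifs at hHS ⊢
          · exact_mod_cast hHS
          · exact_mod_cast hHS
        have h3 := cond_A s n W (Θ l) (Τ l) (κ * t) _ _ _ hn0 hW16 h0 h1 (hΘΤ l hl) (hΘv l hl) hq hv' h2
        rw [← sd_vec x] at h3
        have h4 : ((sd (y l) v : ℕ) : ℝ) ≤ ((2 ^ (12 + q) : ℕ) : ℝ) := by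
          rw [hpq]; push_cast; rw [← hW]; linarith
        exact_mod_cast h4
      · intro hbd
        have hbd' : sd x v = nx s (2 ^ (e + 12 + q)) := hbd
        have h2 : ‖vec x v‖ = ((nx s (2 ^ (e + 12 + q)) : ℕ) : ℝ) := by
          rw [← sd_vec0, hbd']
        have h3 := cond_B s n _ W (Θ l) (Τ l) (κ * t) _ _ hn0 hW16 hWn h0 h1 hnx hq hv' h2
        have h4 := vec_zpt x (nx s (2 ^ (e + 12 + q))) (π l)
        rw [Nat.mod_eq_of_lt (hπ4 l hl)] at h4
        rw [show E (Τ l) = E (1 + 2 * (π l : ℝ)) from rfl, ← h4, ← sd_vec x] at h3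
        have h5 : sd (zpt x (nx s (2 ^ (e + 12 + q))) (π l)) v ≤ 11 * 2 ^ q := by
          rw [hW] at h3
          exact_mod_cast h3
        refine h5.trans ?_
        unfold nx
        rw [hpow]
        split_ifs <;> omega
      · intro l' hl' hne
        have h3 := cond_C s n _ W (Θ l) (Τ l) (Τ l') (κ * t) _ (vec x v) hn0 hW16 hWn h0 h1 hnx
          (hbb l' hl' hne) hq hv'
        have h4 := vec_zpt x (nx s (2 ^ (e + 12 + q))) (π l')
        rw [Nat.mod_eq_of_lt (hπ4 l' hl')] at h4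
        rw [show E (Τ l') = E (1 + 2 * (π l' : ℝ)) from rfl, ← h4, ← sd_vec x] at h3
        have h5 : ((nx s (2 ^ (e + 12 + q)) / 8 : ℕ) : ℝ) ≤
            ((nx s (2 ^ (e + 12 + q)) : ℕ) : ℝ) / 8 := by
          have := @Nat.cast_div_le ℝ _ _ _ (nx s (2 ^ (e + 12 + q))) 8
          exact_mod_cast this
        have h6 := lt_of_le_of_lt h5 h3
        exact_mod_cast h6
    · intro l' hl' hne t' ht'
      obtain ⟨h0', h1'⟩ := hτ t' ht'
      have hq' := vec_rd x (Fc s n (Θ l') (Τ l') (κ * t'))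
      have h2 := cond_D s n (1 / P) (Θ l) (Τ l) (Θ l') (Τ l') (κ * t) (κ * t') hn0 (by positivity)
        (hΘΤ l' hl') h0 h1 h0' h1' (hsepS l' hl' hne)
      have h3 : n * (1 / P) / 75 = 4096 * W / 75 := by
        rw [hn]; field_simp
      rw [h3] at h2
      have h4 : ((10 * 2 ^ q : ℕ) : ℝ) < ((sd (rd x (Fc s n (Θ l) (Τ l) (κ * t)))
          (rd x (Fc s n (Θ l') (Τ l') (κ * t'))) : ℕ) : ℝ) := by
        rw [sd_vec x]
        push_cast
        rw [← hW]
        have h8 := norm_sub_le_norm_sub_add_norm_sub (Fc s n (Θ l) (Τ l) (κ * t))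
          (vec x (rd x (Fc s n (Θ l) (Τ l) (κ * t)))) (Fc s n (Θ l') (Τ l') (κ * t'))
        have h9 := norm_sub_le_norm_sub_add_norm_sub (vec x (rd x (Fc s n (Θ l) (Τ l) (κ * t))))
          (vec x (rd x (Fc s n (Θ l') (Τ l') (κ * t')))) (Fc s n (Θ l') (Τ l') (κ * t'))
        rw [norm_sub_rev (Fc s n (Θ l) (Τ l) (κ * t)) (vec x (rd x (Fc s n (Θ l) (Τ l) (κ * t))))] at h8
        linarith
      exact_mod_cast h4

end DP
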