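import Pool.Agent.helper98.DP.GateCore
import Pool.Agent.helper98.DP.GateDefs

/-!
# The gates: proofs of `GATE`, `GATEC`, `LOOPS` (project dp)
-/

namespace DP.Gate

open DP

/-! ## Cell combinatorics -/

theorem cnb_symm {p q : ℤ × ℤ} (h : cnb p q) : cnb q p := by
  unfold cnb at *
  rcases h with h | h | h | h <;> subst h <;> simp

theorem CCon.refl' {A : Finset (ℤ × ℤ)} {p : ℤ × ℤ} (h : p ∈ A) : CCon A p p := ⟨h, .refl⟩

theorem CCon.trans' {A : Finset (ℤ × ℤ)} {p q r : ℤ × ℤ} (h : CCon A p q) (h' : CCon A q r) :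
    CCon A p r := ⟨h.1, h.2.trans h'.2⟩

theorem CCon.mem' {A : Finset (ℤ × ℤ)} {p q : ℤ × ℤ} (h : CCon A p q) : q ∈ A := by
  rcases Relation.ReflTransGen.cases_tail h.2 with h1 | ⟨w, -, h1⟩
  · exact h1 ▸ h.1
  · exact h1.2

theorem CCon.symm' {A : Finset (ℤ × ℤ)} {p q : ℤ × ℤ} (h : CCon A p q) : CCon A q p := by
  obtain ⟨hp, h⟩ := h
  induction h with
  | refl => exact CCon.refl' hp
  | @tail b c hb hc ih =>
    have hb' : b ∈ A := CCon.mem' ⟨hp, hb⟩
    exact CCon.trans' ⟨hc.2, Relation.ReflTransGen.single ⟨cnb_symm hc.1, hb'⟩⟩ ih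

theorem seg_h (A : Finset (ℤ × ℤ)) (y a b : ℤ) (hab : a ≤ b)
    (h : ∀ t, a ≤ t → t ≤ b → (t, y) ∈ A) : CCon A (a, y) (b, y) := by
  obtain ⟨n, rfl⟩ := Int.le.dest hab
  clear hab
  induction n with
  | zero => simpa using CCon.refl' (h a le_rfl (by simp))
  | succ n ih =>
    have h1 := ih (fun t ht ht' => h t ht (by push_cast at *; omega))
    refine ⟨h1.1, h1.2.tail ⟨?_, h _ (by omega) le_rfl⟩⟩
    left
    push_cast
    ext <;> simp
    ring

theorem seg_v (A : Finset (ℤ × ℤ)) (x a b : ℤ) (hab : a ≤ b)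
    (h : ∀ t, a ≤ t → t ≤ b → (x, t) ∈ A) : CCon A (x, a) (x, b) := by
  obtain ⟨n, rfl⟩ := Int.le.dest hab
  clear hab
  induction n with
  | zero => simpa using CCon.refl' (h a le_rfl (by simp))
  | succ n ih =>
    have h1 := ih (fun t ht ht' => h t ht (by push_cast at *; omega))
    refine ⟨h1.1, h1.2.tail ⟨?_, h _ (by omega) le_rfl⟩⟩
    right; right; left
    push_cast
    ext <;> simp
    ring

theorem mem_annF (p : ℤ × ℤ) : p ∈ annF ↔ annC p := by
  unfold annF annC Rc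
  simp only [Finset.mem_filter, Finset.mem_product, Finset.mem_Icc]
  omega

theorem mem_Bt (p : ℤ × ℤ) : p ∈ Bc true ↔ annC p ∧ Rc 32 64 0 0 p := by
  simp [Bc, mem_annF]

theorem mem_Bf (p : ℤ × ℤ) : p ∈ Bc false ↔ annC p ∧ ¬ near2 p := by
  simp [Bc, mem_annF]

theorem mem_Wt (p : ℤ × ℤ) : p ∈ Wc true ↔ annC p ∧ ¬ near1 p := by
  simp [Wc, mem_annF]

theorem mem_Wf (p : ℤ × ℤ) : p ∈ Wc false ↔ annC p ∧ spi p := by
  simp [Wc, mem_annF]

theorem far_t (p q : ℤ × ℤ) (hp : p ∈ Bc true) (hq : q ∈ Wc true) :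
    3 ≤ p.1 - q.1 ∨ 3 ≤ q.1 - p.1 ∨ 3 ≤ p.2 - q.2 ∨ 3 ≤ q.2 - p.2 := by
  rw [mem_Bt] at hp
  rw [mem_Wt] at hq
  unfold annC near1 Rc at *
  omega

theorem far_f (p q : ℤ × ℤ) (hp : p ∈ Bc false) (hq : q ∈ Wc false) :
    3 ≤ p.1 - q.1 ∨ 3 ≤ q.1 - p.1 ∨ 3 ≤ p.2 - q.2 ∨ 3 ≤ q.2 - p.2 := by
  rw [mem_Bf] at hp
  rw [mem_Wf] at hq
  by_contra hcon
  apply hp.2
  have hs := hq.2
  unfold spi at hs
  unfold near2
  rcases hs with h | h | h | h | h | h | h | h | h | h | h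
  · left; unfold Rc at *; omega
  · right; left; unfold Rc at *; omega
  · right; right; left; unfold Rc at *; omega
  · right; right; right; left; unfold Rc at *; omega
  · right; right; right; right; left; unfold Rc at *; omega
  · right; right; right; right; right; left; unfold Rc at *; omega
  · right; right; right; right; right; right; left; unfold Rc at *; omega
  · right; right; right; right; right; right; right; left; unfold Rc at *; omega
  · right; right; right; right; right; right; right; right; left; unfold Rc at *; omega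
  · right; right; right; right; right; right; right; right; right; left; unfold Rc at *; omega
  · right; right; right; right; right; right; right; right; right; right; unfold Rc at *; omega

theorem chain_bf : CCon (Bc false) (32, 0) (64, 0) := by
  have hm : ∀ p : ℤ × ℤ, annC p → ¬ near2 p → p ∈ Bc false := fun p h h' => (mem_Bf p).2 ⟨h, h'⟩
  have h1 : CCon (Bc false) (32, 0) (35, 0) := seg_h _ 0 32 35 (by norm_num) fun t h h' =>
    hm _ (by unfold annC Rc; simp only; omega) (by unfold near2 Rc; simp only; omega)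
  have h2 : CCon (Bc false) (35, 0) (35, 38) := seg_v _ 35 0 38 (by norm_num) fun t h h' =>
    hm _ (by unfold annC Rc; simp only; omega) (by unfold near2 Rc; simp only; omega)
  have h3 : CCon (Bc false) (-41, 38) (35, 38) := seg_h _ 38 (-41) 35 (by norm_num) fun t h h' =>
    hm _ (by unfold annC Rc; simp only; omega) (by unfold near2 Rc; simp only; omega)
  have h4 : CCon (Bc false) (-41, -44) (-41, 38) :=
    seg_v _ (-41) (-44) 38 (by norm_num) fun t h h' =>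
    hm _ (by unfold annC Rc; simp only; omega) (by unfold near2 Rc; simp only; omega)
  have h5 : CCon (Bc false) (-41, -44) (47, -44) :=
    seg_h _ (-44) (-41) 47 (by norm_num) fun t h h' =>
    hm _ (by unfold annC Rc; simp only; omega) (by unfold near2 Rc; simp only; omega)
  have h6 : CCon (Bc false) (47, -44) (47, 50) := seg_v _ 47 (-44) 50 (by norm_num) fun t h h' =>
    hm _ (by unfold annC Rc; simp only; omega) (by unfold near2 Rc; simp only; omega)
  have h7 : CCon (Bc false) (-53, 50) (47, 50) := seg_h _ 50 (-53) 47 (by norm_num) fun t h h' =>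
    hm _ (by unfold annC Rc; simp only; omega) (by unfold near2 Rc; simp only; omega)
  have h8 : CCon (Bc false) (-53, -56) (-53, 50) :=
    seg_v _ (-53) (-56) 50 (by norm_num) fun t h h' =>
    hm _ (by unfold annC Rc; simp only; omega) (by unfold near2 Rc; simp only; omega)
  have h9 : CCon (Bc false) (-53, -56) (59, -56) :=
    seg_h _ (-56) (-53) 59 (by norm_num) fun t h h' =>
    hm _ (by unfold annC Rc; simp only; omega) (by unfold near2 Rc; simp only; omega)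
  have h10 : CCon (Bc false) (59, -56) (59, 0) := seg_v _ 59 (-56) 0 (by norm_num) fun t h h' =>
    hm _ (by unfold annC Rc; simp only; omega) (by unfold near2 Rc; simp only; omega)
  have h11 : CCon (Bc false) (59, 0) (64, 0) := seg_h _ 0 59 64 (by norm_num) fun t h h' =>
    hm _ (by unfold annC Rc; simp only; omega) (by unfold near2 Rc; simp only; omega)
  exact h1.trans' (h2.trans' (h3.symm'.trans' (h4.symm'.trans' (h5.trans' (h6.trans'
    (h7.symm'.trans' (h8.symm'.trans' (h9.trans' (h10.trans' h11)))))))))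

theorem chain_wf : CCon (Wc false) (0, 32) (0, 64) := by
  have hm : ∀ p : ℤ × ℤ, annC p → spi p → p ∈ Wc false := fun p h h' => (mem_Wf p).2 ⟨h, h'⟩
  have h1 : CCon (Wc false) (0, 32) (0, 35) := seg_v _ 0 32 35 (by norm_num) fun t h h' =>
    hm _ (by unfold annC Rc; simp only; omega) (by unfold spi Rc; simp only; omega)
  have h2 : CCon (Wc false) (-35, 35) (0, 35) := seg_h _ 35 (-35) 0 (by norm_num) fun t h h' =>
    hm _ (by unfold annC Rc; simp only; omega) (by unfold spi Rc; simp only; omega)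
  have h3 : CCon (Wc false) (-35, -38) (-35, 35) :=
    seg_v _ (-35) (-38) 35 (by norm_num) fun t h h' =>
    hm _ (by unfold annC Rc; simp only; omega) (by unfold spi Rc; simp only; omega)
  have h4 : CCon (Wc false) (-35, -38) (41, -38) :=
    seg_h _ (-38) (-35) 41 (by norm_num) fun t h h' =>
    hm _ (by unfold annC Rc; simp only; omega) (by unfold spi Rc; simp only; omega)
  have h5 : CCon (Wc false) (41, -38) (41, 44) := seg_v _ 41 (-38) 44 (by norm_num) fun t h h' =>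
    hm _ (by unfold annC Rc; simp only; omega) (by unfold spi Rc; simp only; omega)
  have h6 : CCon (Wc false) (-47, 44) (41, 44) := seg_h _ 44 (-47) 41 (by norm_num) fun t h h' =>
    hm _ (by unfold annC Rc; simp only; omega) (by unfold spi Rc; simp only; omega)
  have h7 : CCon (Wc false) (-47, -50) (-47, 44) :=
    seg_v _ (-47) (-50) 44 (by norm_num) fun t h h' =>
    hm _ (by unfold annC Rc; simp only; omega) (by unfold spi Rc; simp only; omega)
  have h8 : CCon (Wc false) (-47, -50) (53, -50) :=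
    seg_h _ (-50) (-47) 53 (by norm_num) fun t h h' =>
    hm _ (by unfold annC Rc; simp only; omega) (by unfold spi Rc; simp only; omega)
  have h9 : CCon (Wc false) (53, -50) (53, 56) := seg_v _ 53 (-50) 56 (by norm_num) fun t h h' =>
    hm _ (by unfold annC Rc; simp only; omega) (by unfold spi Rc; simp only; omega)
  have h10 : CCon (Wc false) (0, 56) (53, 56) := seg_h _ 56 0 53 (by norm_num) fun t h h' =>
    hm _ (by unfold annC Rc; simp only; omega) (by unfold spi Rc; simp only; omega)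
  have h11 : CCon (Wc false) (0, 56) (0, 64) := seg_v _ 0 56 64 (by norm_num) fun t h h' =>
    hm _ (by unfold annC Rc; simp only; omega) (by unfold spi Rc; simp only; omega)
  exact h1.trans' (h2.symm'.trans' (h3.symm'.trans' (h4.trans' (h5.trans' (h6.symm'.trans'
    (h7.symm'.trans' (h8.trans' (h9.trans' (h10.symm'.trans' h11)))))))))

theorem chain_bt : CCon (Bc true) (32, 0) (64, 0) :=
  seg_h _ 0 32 64 (by norm_num) fun t h h' =>
    (mem_Bt _).2 ⟨by unfold annC Rc; simp only; omega, by unfold Rc; simp only; omega⟩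

theorem chain_wt : CCon (Wc true) (0, 32) (0, 64) :=
  seg_v _ 0 32 64 (by norm_num) fun t h h' =>
    (mem_Wt _).2 ⟨by unfold annC Rc; simp only; omega, by unfold near1 Rc; simp only; omega⟩

theorem GATEC : GATEC_stmt := by
  intro j
  cases j with
  | true =>
    exact ⟨fun p hp q hq => far_t p q hp hq, fun p hp => ((mem_Bt p).1 hp).1,
      fun p hp => ((mem_Wt p).1 hp).1, chain_bt, chain_wt⟩
  | false =>
    exact ⟨fun p hp q hq => far_f p q hp hq, fun p hp => ((mem_Bf p).1 hp).1,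
      fun p hp => ((mem_Wf p).1 hp).1, chain_bf, chain_wf⟩

/-! ## Loops around connected cells -/

theorem gnb_cel (x : V) (ℓ : ℕ) {p q : ℤ × ℤ} (h : cnb p q) : gnb ℓ (cel x ℓ p) (cel x ℓ q) := by
  unfold cnb at h
  unfold gnb cel
  rcases h with h | h | h | h <;> subst h
  · left; ext <;> simp; ring
  · right; left; ext <;> simp; ring
  · right; right; left; ext <;> simp; ring
  · right; right; right; ext <;> simp; ring

theorem loop_sub {c : V → Bool} {k : Bool} {g : V} {ℓ : ℕ} {S : Set V} (h : Loop c k g ℓ S) :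
    ∀ w ∈ S, ℓ < sd g w ∧ sd g w < 3 * ℓ ∧ c w = k := by
  obtain ⟨l, u, h1, -, rfl⟩ := h
  exact fun w hw => h1.2.2.2 w hw

theorem LOOPS (LC : LC_stmt) (LN : LN_stmt) : LOOPS_stmt := by
  intro c k x ℓ A hA p q hpq
  obtain ⟨hp, hpq⟩ := hpq
  have sub : ∀ (r : ℤ × ℤ) (S : Set V), r ∈ A → Loop c k (cel x ℓ r) ℓ S →
      S ⊆ {w | w ∈ {w | ∃ r ∈ A, sd (cel x ℓ r) w < 3 * ℓ} ∧ c w = k} := by
    intro r S hr hS w hw
    exact ⟨⟨r, hr, (loop_sub hS w hw).2.1⟩, (loop_sub hS w hw).2.2⟩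
  induction hpq with
  | refl => intro h; exact absurd rfl h
  | @tail b d hb hd ih =>
    intro _ S S' hS hS' z hz z' hz'
    have hbA : b ∈ A := CCon.mem' ⟨hp, hb⟩
    by_cases hpb : p = b
    · subst hpb
      obtain ⟨w, hw⟩ := LN c k _ _ ℓ S S' (gnb_cel x ℓ hd.1) hS hS'
      exact ((LC c k _ ℓ S hS z hz w hw.1).mono (sub p S hp hS)).trans
        ((LC c k _ ℓ S' hS' w hw.2 z' hz').mono (sub d S' hd.2 hS'))
    · obtain ⟨S'', hS''⟩ := hA b hbA
      obtain ⟨w, hw⟩ := LN c k _ _ ℓ S'' S' (gnb_cel x ℓ hd.1) hS'' hS'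
      exact (ih hpb S S'' hS hS'' z hz w hw.1).trans
        ((LC c k _ ℓ S' hS' w hw.2 z' hz').mono (sub d S' hd.2 hS'))

/-! ## The dichotomy -/

/-- The cell of a site. -/
theorem exists_cell (x : V) (ℓ : ℕ) (hℓ : 1 ≤ ℓ) (w : V) : ∃ p : ℤ × ℤ,
    2 * ℓ * p.1 - ℓ ≤ w.1 - x.1 ∧ w.1 - x.1 < 2 * ℓ * p.1 + ℓ ∧
      2 * ℓ * p.2 - ℓ ≤ w.2 - x.2 ∧ w.2 - x.2 < 2 * ℓ * p.2 + ℓ := by
  have hl : (0 : ℤ) < 2 * ℓ := by omega
  have h1 := Int.emod_add_mul_ediv (w.1 - x.1 + ℓ) (2 * ℓ)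
  have h2 := Int.emod_add_mul_ediv (w.2 - x.2 + ℓ) (2 * ℓ)
  have h3 := Int.emod_nonneg (w.1 - x.1 + ℓ) (ne_of_gt hl)
  have h4 := Int.emod_lt_of_pos (w.1 - x.1 + ℓ) hl
  have h5 := Int.emod_nonneg (w.2 - x.2 + ℓ) (ne_of_gt hl)
  have h6 := Int.emod_lt_of_pos (w.2 - x.2 + ℓ) hl
  refine ⟨((w.1 - x.1 + ℓ) / (2 * ℓ), (w.2 - x.2 + ℓ) / (2 * ℓ)), ?_, ?_, ?_, ?_⟩ <;>
    simp only <;> linarith

/-- A path of colour `k` across the annulus avoids the cells with loops of the other colour. -/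
theorem avoid (LH : LH_stmt) (x : V) (ℓ : ℕ) (hℓ : 1 ≤ ℓ) (c : V → Bool) (k : Bool) (W : Set V)
    (a b w : V) (hW : ∀ w ∈ W, c w = !k) (hab : Con W a b) (haw : Con W a w)
    (ha : sd x a = 64 * ℓ) (hb : sd x b = 128 * ℓ) (p : ℤ × ℤ)
    (hp : ∃ S, Loop c k (cel x ℓ p) ℓ S)
    (h1 : 2 * ℓ * p.1 - ℓ ≤ w.1 - x.1) (h2 : w.1 - x.1 < 2 * ℓ * p.1 + ℓ)
    (h3 : 2 * ℓ * p.2 - ℓ ≤ w.2 - x.2) (h4 : w.2 - x.2 < 2 * ℓ * p.2 + ℓ) : False := by
  obtain ⟨S, hS⟩ := hp
  have hw : sd (cel x ℓ p) w ≤ ℓ := by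
    rw [sd_le_iff]
    unfold cel
    simp only
    refine ⟨⟨?_, ?_⟩, ?_, ?_⟩ <;> linarith
  have hwa := haw.symm
  have hwb := haw.symm.trans hab
  have key : ∃ e : V, Con W w e ∧ 3 * ℓ ≤ sd (cel x ℓ p) e := by
    by_contra hcon
    push Not at hcon
    have h5 := hcon a hwa
    have h6 := hcon b hwb
    have h7 := sd_triangle x (cel x ℓ p) a
    have h8 := sd_triangle x a (cel x ℓ p)
    have h9 := sd_triangle x (cel x ℓ p) b
    have h10 := sd_comm (cel x ℓ p) a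
    omega
  obtain ⟨e, he, hse⟩ := key
  obtain ⟨z, hz, hz'⟩ := LH c k _ ℓ S hS W w e he hw hse
  have h11 := (loop_sub hS z hz).2.2
  have h12 := hW z hz'.mem_right
  rw [h11] at h12
  cases k <;> simp at h12

theorem K1_of (LH : LH_stmt) (x : V) (ℓ : ℕ) (hℓ : 1 ≤ ℓ) (c : V → Bool) (hc : GateEv true x ℓ c)
    (W : Set V) (a b w : V) (hW : ∀ w ∈ W, c w = true) (hab : Con W a b) (haw : Con W a w)
    (ha : sd x a = 64 * ℓ) (hb : sd x b = 128 * ℓ) (hw : 64 * ℓ ≤ sd x w ∧ sd x w ≤ 128 * ℓ) :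
    K1p x ℓ w := by
  obtain ⟨p, h1, h2, h3, h4⟩ := exists_cell x ℓ hℓ w
  have hl : (1 : ℤ) ≤ ℓ := by exact_mod_cast hℓ
  have hn : ¬ (annC p ∧ ¬ near1 p) := by
    intro hp
    exact avoid LH x ℓ hℓ c false W a b w (by simpa using hW) hab haw ha hb p
      (hc.2 p ((mem_Wt p).2 hp)) h1 h2 h3 h4
  have hA : annC p := by
    unfold annC Rc
    have hw1 := hw.1
    have hw2 := hw.2
    unfold sd at hw1 hw2
    have e1 : p.1 ≤ 64 := by
      by_contra h; push Not at h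
      have : 2 * (ℓ : ℤ) * 65 ≤ 2 * ℓ * p.1 := by
        apply mul_le_mul_of_nonneg_left _ (by positivity); omega
      omega
    have e2 : -64 ≤ p.1 := by
      by_contra h; push Not at h
      have : 2 * (ℓ : ℤ) * p.1 ≤ 2 * ℓ * (-65) := by
        apply mul_le_mul_of_nonneg_left _ (by positivity); omega
      omega
    have e3 : p.2 ≤ 64 := by
      by_contra h; push Not at h
      have : 2 * (ℓ : ℤ) * 65 ≤ 2 * ℓ * p.2 := by
        apply mul_le_mul_of_nonneg_left _ (by positivity); omega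
      omega
    have e4 : -64 ≤ p.2 := by
      by_contra h; push Not at h
      have : 2 * (ℓ : ℤ) * p.2 ≤ 2 * ℓ * (-65) := by
        apply mul_le_mul_of_nonneg_left _ (by positivity); omega
      omega
    refine ⟨?_, e2, e1, e4, e3⟩
    by_contra h
    push Not at h
    obtain ⟨g1, g2, g3, g4⟩ := h
    have : 2 * (ℓ : ℤ) * p.1 ≤ 2 * ℓ * 31 := by
      apply mul_le_mul_of_nonneg_left _ (by positivity); omega
    have : 2 * (ℓ : ℤ) * (-31) ≤ 2 * ℓ * p.1 := by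
      apply mul_le_mul_of_nonneg_left _ (by positivity); omega
    have : 2 * (ℓ : ℤ) * p.2 ≤ 2 * ℓ * 31 := by
      apply mul_le_mul_of_nonneg_left _ (by positivity); omega
    have : 2 * (ℓ : ℤ) * (-31) ≤ 2 * ℓ * p.2 := by
      apply mul_le_mul_of_nonneg_left _ (by positivity); omega
    omega
  have hN : near1 p := by
    by_contra h
    exact hn ⟨hA, h⟩
  unfold near1 Rc at hN
  have g1 : 2 * (ℓ : ℤ) * 30 ≤ 2 * ℓ * p.1 := by
    apply mul_le_mul_of_nonneg_left _ (by positivity); omega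
  have g2 : 2 * (ℓ : ℤ) * p.2 ≤ 2 * ℓ * 2 := by
    apply mul_le_mul_of_nonneg_left _ (by positivity); omega
  have g3 : 2 * (ℓ : ℤ) * (-2) ≤ 2 * ℓ * p.2 := by
    apply mul_le_mul_of_nonneg_left _ (by positivity); omega
  unfold K1p
  unfold sd at hw
  omega

/-- From a cell rectangle to a site rectangle. -/
theorem Rr_of_Rc (x : V) (ℓ : ℕ) (a b d e : ℤ) (p : ℤ × ℤ) (w : V) (h : Rc a b d e p)
    (h1 : 2 * ℓ * p.1 - ℓ ≤ w.1 - x.1) (h2 : w.1 - x.1 < 2 * ℓ * p.1 + ℓ)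
    (h3 : 2 * ℓ * p.2 - ℓ ≤ w.2 - x.2) (h4 : w.2 - x.2 < 2 * ℓ * p.2 + ℓ) :
    Rr x ℓ (2 * a - 1) (2 * b + 1) (2 * d - 1) (2 * e + 1) w := by
  obtain ⟨g1, g2, g3, g4⟩ := h
  have hl : (0 : ℤ) ≤ 2 * ℓ := by positivity
  have k1 := mul_le_mul_of_nonneg_left g1 hl
  have k2 := mul_le_mul_of_nonneg_left g2 hl
  have k3 := mul_le_mul_of_nonneg_left g3 hl
  have k4 := mul_le_mul_of_nonneg_left g4 hl
  refine ⟨?_, ?_, ?_, ?_⟩ <;> linarith

theorem annC_of (x : V) (ℓ : ℕ) (hℓ : 1 ≤ ℓ) (w : V) (p : ℤ × ℤ)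
    (hw : 64 * ℓ ≤ sd x w ∧ sd x w ≤ 128 * ℓ)
    (h1 : 2 * ℓ * p.1 - ℓ ≤ w.1 - x.1) (h2 : w.1 - x.1 < 2 * ℓ * p.1 + ℓ)
    (h3 : 2 * ℓ * p.2 - ℓ ≤ w.2 - x.2) (h4 : w.2 - x.2 < 2 * ℓ * p.2 + ℓ) : annC p := by
  unfold annC Rc
  have hw1 := hw.1
  have hw2 := hw.2
  unfold sd at hw1 hw2
  have e1 : p.1 ≤ 64 := by
    by_contra h; push Not at h
    have : 2 * (ℓ : ℤ) * 65 ≤ 2 * ℓ * p.1 := by
      apply mul_le_mul_of_nonneg_left _ (by positivity); omega
    omega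
  have e2 : -64 ≤ p.1 := by
    by_contra h; push Not at h
    have : 2 * (ℓ : ℤ) * p.1 ≤ 2 * ℓ * (-65) := by
      apply mul_le_mul_of_nonneg_left _ (by positivity); omega
    omega
  have e3 : p.2 ≤ 64 := by
    by_contra h; push Not at h
    have : 2 * (ℓ : ℤ) * 65 ≤ 2 * ℓ * p.2 := by
      apply mul_le_mul_of_nonneg_left _ (by positivity); omega
    omega
  have e4 : -64 ≤ p.2 := by
    by_contra h; push Not at h
    have : 2 * (ℓ : ℤ) * p.2 ≤ 2 * ℓ * (-65) := by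
      apply mul_le_mul_of_nonneg_left _ (by positivity); omega
    omega
  refine ⟨?_, e2, e1, e4, e3⟩
  by_contra h
  push Not at h
  obtain ⟨g1, g2, g3, g4⟩ := h
  have : 2 * (ℓ : ℤ) * p.1 ≤ 2 * ℓ * 31 := by
    apply mul_le_mul_of_nonneg_left _ (by positivity); omega
  have : 2 * (ℓ : ℤ) * (-31) ≤ 2 * ℓ * p.1 := by
    apply mul_le_mul_of_nonneg_left _ (by positivity); omega
  have : 2 * (ℓ : ℤ) * p.2 ≤ 2 * ℓ * 31 := by
    apply mul_le_mul_of_nonneg_left _ (by positivity); omega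
  have : 2 * (ℓ : ℤ) * (-31) ≤ 2 * ℓ * p.2 := by
    apply mul_le_mul_of_nonneg_left _ (by positivity); omega
  omega

theorem K2_of (LH : LH_stmt) (x : V) (ℓ : ℕ) (hℓ : 1 ≤ ℓ) (c : V → Bool) (hc : GateEv false x ℓ c)
    (W : Set V) (a b w : V) (hW : ∀ w ∈ W, c w = false) (hab : Con W a b) (haw : Con W a w)
    (ha : sd x a = 64 * ℓ) (hb : sd x b = 128 * ℓ) (hw : 64 * ℓ ≤ sd x w ∧ sd x w ≤ 128 * ℓ) :
    K2p x ℓ w := by
  obtain ⟨p, h1, h2, h3, h4⟩ := exists_cell x ℓ hℓ w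
  have hn : ¬ (annC p ∧ ¬ near2 p) := by
    intro hp
    exact avoid LH x ℓ hℓ c true W a b w (by simpa using hW) hab haw ha hb p
      (hc.1 p ((mem_Bf p).2 hp)) h1 h2 h3 h4
  have hA : annC p := annC_of x ℓ hℓ w p hw h1 h2 h3 h4
  have hN : near2 p := by
    by_contra h
    exact hn ⟨hA, h⟩
  unfold near2 at hN
  unfold K2p
  rcases hN with h | h | h | h | h | h | h | h | h | h | h
  · have := Rr_of_Rc x ℓ _ _ _ _ p w h h1 h2 h3 h4
    left
    unfold Rr at this ⊢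
    unfold sd at hw
    omega
  all_goals
    have := Rr_of_Rc x ℓ _ _ _ _ p w h h1 h2 h3 h4
    norm_num at this
  · tauto
  · tauto
  · tauto
  · tauto
  · tauto
  · tauto
  · tauto
  · tauto
  · tauto
  · tauto

theorem GATE (LH : LH_stmt) (RC : RC_stmt) : GATE_stmt := by
  intro x ℓ hℓ γ u v hγ hu hv
  by_contra hcon
  push Not at hcon
  obtain ⟨⟨c₁, hc₁, W₁, a₁, b₁, hW₁, hab₁, ha₁, hb₁, hd₁⟩,
    ⟨c₂, hc₂, W₂, a₂, b₂, hW₂, hab₂, ha₂, hb₂, hd₂⟩⟩ := hcon
  obtain ⟨p₁, q₁, hp₁, hq₁, hcr₁, -, -⟩ := hab₁.cross ha₁ (by omega) hb₁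
  obtain ⟨p₂, q₂, hp₂, hq₂, hcr₂, -, -⟩ := hab₂.cross ha₂ (by omega) hb₂
  set U₁ : Set V := {w | Con (W₁ ∩ ann x (64 * ℓ) (128 * ℓ)) p₁ w} with hU₁
  set U₂ : Set V := {w | Con (W₂ ∩ ann x (64 * ℓ) (128 * ℓ)) p₂ w} with hU₂
  have hsub : ∀ (W : Set V) (p w : V), Con W p w → Con {z | Con W p z} p w := by
    intro W p w h
    refine Con.induct h (fun w => Con {z | Con W p z} p w) (Con.refl (Con.refl h.1)) ?_
    intro a b ha hb hab hpa ih
    exact ih.tail hab (hpa.tail hab hb)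
  have g1 : ∀ w ∈ U₁, K1p x ℓ w := by
    intro w hw
    exact K1_of LH x ℓ hℓ c₁ hc₁ (W₁ ∩ ann x (64 * ℓ) (128 * ℓ)) p₁ q₁ w (fun z hz => hW₁ z hz.1)
      hcr₁ hw hp₁ hq₁ (Con.mem_right hw).2
  have g2 : ∀ w ∈ U₂, K2p x ℓ w := by
    intro w hw
    exact K2_of LH x ℓ hℓ c₂ hc₂ (W₂ ∩ ann x (64 * ℓ) (128 * ℓ)) p₂ q₂ w (fun z hz => hW₂ z hz.1)
      hcr₂ hw hp₂ hq₂ (Con.mem_right hw).2
  obtain ⟨z, hz, hz'⟩ := gate_core LH RC x ℓ hℓ U₁ U₂ p₁ q₁ p₂ q₂ (hsub _ _ _ hcr₁) (hsub _ _ _ hcr₂)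
    g1 g2 (fun w hw => (Con.mem_right hw).2) (fun w hw => hsub _ _ _ hw) (fun w hw => hsub _ _ _ hw)
    hp₁ hq₁ hp₂ hq₂ γ u v hγ hu hv
  rcases hz with hz | hz
  · have : z ∈ W₁ ∩ γ := ⟨(Con.mem_right hz).1, hz'.mem_right⟩
    rw [hd₁] at this
    exact this
  · have : z ∈ W₂ ∩ γ := ⟨(Con.mem_right hz).1, hz'.mem_right⟩
    rw [hd₂] at this
    exact this

end DP.Gate
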