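import Pool.Agent.helper98.DP.GateGeom

/-!
# Core of the gates: a path in the radial corridor and a path in the spiral corridor together
block every connected set from the inside to the outside (project dp)
-/

namespace DP.Gate

open DP

/-- Crossing of a strip in the first coordinate. -/
theorem cross_strip {W : Set V} {u v : V} (a b : ℤ) (h : Con W u v) (hu : u.1 ≤ a) (hab : a ≤ b)
    (hv : b ≤ v.1) : ∃ u' v' : V, u'.1 = a ∧ v'.1 = b ∧ Con {w | w ∈ W ∧ a ≤ w.1 ∧ w.1 ≤ b} u' v' := by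
  obtain ⟨huW, h⟩ := h
  have key : (∃ u' v' : V, u'.1 = a ∧ v'.1 = b ∧ Con {w | w ∈ W ∧ a ≤ w.1 ∧ w.1 ≤ b} u' v') ∨
      v.1 < a ∨ (a ≤ v.1 ∧ v.1 < b ∧ ∃ u' : V, u'.1 = a ∧
        Con {w | w ∈ W ∧ a ≤ w.1 ∧ w.1 ≤ b} u' v) := by
    clear hv
    induction h with
    | refl =>
      rcases lt_or_eq_of_le hu with h1 | h1
      · exact Or.inr (Or.inl h1)
      · rcases lt_or_eq_of_le hab with h2 | h2
        · exact Or.inr (Or.inr ⟨h1.ge, by omega, u, h1, Con.refl ⟨huW, by omega, by omega⟩⟩)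
        · exact Or.inl ⟨u, u, h1, by omega, Con.refl ⟨huW, by omega, by omega⟩⟩
    | @tail c d hcd h ih =>
      have hb := adj_bounds h.1
      rcases ih with ih | ih | ⟨ih1, ih2, u', hu', hcon⟩
      · exact Or.inl ih
      · rcases lt_trichotomy d.1 a with h1 | h1 | h1
        · exact Or.inr (Or.inl h1)
        · rcases lt_or_eq_of_le hab with h2 | h2
          · exact Or.inr (Or.inr ⟨h1.ge, by omega, d, h1, Con.refl ⟨h.2, by omega, by omega⟩⟩)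
          · exact Or.inl ⟨d, d, h1, by omega, Con.refl ⟨h.2, by omega, by omega⟩⟩
        · omega
      · rcases lt_or_ge d.1 a with h1 | h1
        · exact Or.inr (Or.inl h1)
        · rcases lt_or_ge d.1 b with h2 | h2
          · exact Or.inr (Or.inr ⟨h1, h2, u', hu', hcon.tail h.1 ⟨h.2, h1, h2.le⟩⟩)
          · exact Or.inl ⟨u', d, hu', by omega, hcon.tail h.1 ⟨h.2, h1, by omega⟩⟩
  rcases key with h | h | h
  · exact h
  · omega
  · omega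

/-- A connection in `W` between two sites of a connected set: concatenation. -/
theorem gate_core (LH : LH_stmt) (RC : RC_stmt) (x : V) (ℓ : ℕ) (hℓ : 1 ≤ ℓ) (W₁ W₂ : Set V)
    (u₁ v₁ u₂ v₂ : V) (h1 : Con W₁ u₁ v₁) (h2 : Con W₂ u₂ v₂) (hK1 : ∀ w ∈ W₁, K1p x ℓ w)
    (hK2 : ∀ w ∈ W₂, K2p x ℓ w) (hb : ∀ w ∈ W₂, 64 * ℓ ≤ sd x w ∧ sd x w ≤ 128 * ℓ)
    (hW₁ : ∀ w ∈ W₁, Con W₁ u₁ w) (hW₂ : ∀ w ∈ W₂, Con W₂ u₂ w)
    (hu₁ : sd x u₁ = 64 * ℓ) (hv₁ : sd x v₁ = 128 * ℓ)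
    (hu₂ : sd x u₂ = 64 * ℓ) (hv₂ : sd x v₂ = 128 * ℓ) :
    ∀ (W : Set V) (u v : V), Con W u v → sd x u ≤ 48 * ℓ → 144 * ℓ ≤ sd x v →
      ∃ z ∈ W₁ ∪ W₂, Con W u z := by
  intro W u v hW hu hv
  have hu1' : u₁.1 - x.1 = 64 * ℓ := by
    have := hK1 u₁ h1.1
    unfold K1p at this
    unfold sd at hu₁
    omega
  have hv1' : v₁.1 - x.1 = 128 * ℓ := by
    have := hK1 v₁ h1.mem_right
    unfold K1p at this
    unfold sd at hv₁
    omega
  -- first passage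
  have P1 : ∃ p ∈ W₁ ∩ W₂, M1 x ℓ p := by
    obtain ⟨a, b, ha, hb', hcon⟩ := cross_strip (x.1 + 77 * ℓ) (x.1 + 87 * ℓ) h1 (by omega)
      (by omega) (by omega)
    obtain ⟨c, d, a', b', hcon2, hA, hac, hB, hdb⟩ := cross_mid (A1 x ℓ) (M1 x ℓ) (B1 x ℓ) h2
      (fun w hw => k2_split1 x ℓ w (hK2 w hw)) (k2_start x ℓ hℓ u₂ (hK2 _ h2.1) hu₂).1
      (k2_end x ℓ hℓ v₂ (hK2 _ h2.mem_right) hv₂).1 (fun w hw => a1_disj x ℓ hℓ w hw)
      (fun w hw => m1_disj x ℓ hℓ w hw) (fun a b hab h => a1_b1 x ℓ hℓ a b hab h)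
    have hc := a1_m1 x ℓ hℓ a' c hac hA hcon2.1.2
    have hd := m1_b1 x ℓ hℓ d b' hdb hcon2.mem_right.2 hB
    obtain ⟨z, hz⟩ := RC (x.1 + 77 * ℓ) (x.1 + 87 * ℓ) (x.2 - 5 * ℓ) (x.2 + 5 * ℓ)
      {w | w ∈ W₁ ∧ x.1 + 77 * ℓ ≤ w.1 ∧ w.1 ≤ x.1 + 87 * ℓ} {w | w ∈ W₂ ∧ M1 x ℓ w}
      (by
        intro w hw
        have := hK1 w hw.1
        unfold K1p at this
        have h3 := hw.2
        unfold rect
        simp only [Set.mem_ofPred_eq]
        omega)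
      (by
        intro w hw
        have := hw.2
        simp only [M1, Rr] at this
        unfold rect
        simp only [Set.mem_ofPred_eq]
        omega)
      a b c d ha hb' (by omega) (by omega) hcon hcon2
    exact ⟨z, ⟨hz.1.1, hz.2.1⟩, hz.2.2⟩
  have P2 : ∃ p ∈ W₁ ∩ W₂, M2 x ℓ p := by
    obtain ⟨a, b, ha, hb', hcon⟩ := cross_strip (x.1 + 101 * ℓ) (x.1 + 111 * ℓ) h1 (by omega)
      (by omega) (by omega)
    obtain ⟨c, d, a', b', hcon2, hA, hac, hB, hdb⟩ := cross_mid (A2 x ℓ) (M2 x ℓ) (B2 x ℓ) h2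
      (fun w hw => k2_split2 x ℓ w (hK2 w hw)) (k2_start x ℓ hℓ u₂ (hK2 _ h2.1) hu₂).2
      (k2_end x ℓ hℓ v₂ (hK2 _ h2.mem_right) hv₂).2 (fun w hw => a2_disj x ℓ hℓ w hw)
      (fun w hw => m2_disj x ℓ hℓ w hw) (fun a b hab h => a2_b2 x ℓ hℓ a b hab h)
    have hc := a2_m2 x ℓ hℓ a' c hac hA hcon2.1.2
    have hd := m2_b2 x ℓ hℓ d b' hdb hcon2.mem_right.2 hB
    obtain ⟨z, hz⟩ := RC (x.1 + 101 * ℓ) (x.1 + 111 * ℓ) (x.2 - 5 * ℓ) (x.2 + 5 * ℓ)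
      {w | w ∈ W₁ ∧ x.1 + 101 * ℓ ≤ w.1 ∧ w.1 ≤ x.1 + 111 * ℓ} {w | w ∈ W₂ ∧ M2 x ℓ w}
      (by
        intro w hw
        have := hK1 w hw.1
        unfold K1p at this
        have h3 := hw.2
        unfold rect
        simp only [Set.mem_ofPred_eq]
        omega)
      (by
        intro w hw
        have := hw.2
        simp only [M2, Rr] at this
        unfold rect
        simp only [Set.mem_ofPred_eq]
        omega)
      a b c d ha hb' (by omega) (by omega) hcon hcon2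
    exact ⟨z, ⟨hz.1.1, hz.2.1⟩, hz.2.2⟩
  obtain ⟨p, hp, hpM⟩ := P1
  obtain ⟨q, hq, hqM⟩ := P2
  refine closed_blocks LH x (48 * ℓ) W₁ W₂ (Od x ℓ) p q
    (fun a ha b hb hab => parity_ok x ℓ hℓ a b (hK2 a ha) (hK2 b hb) hab) ?_
    ((hW₁ q hq.1).symm.trans (hW₁ p hp.1)) ((hW₂ p hp.2).symm.trans (hW₂ q hq.2)) ?_ ?_ W u v hW hu
    (by omega)
  · intro a ha b hb' hab
    have h3 := hK1 a ha
    have h4 := hK1 b hb'
    unfold K1p at h3 h4
    unfold stp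
    rw [if_neg]
    omega
  · have h3 := m1_od x ℓ p hpM
    have h4 := m2_ev x ℓ q hqM
    have h5 : ¬ Od x ℓ q := fun h => od_not_ev x ℓ hℓ q h h4
    tauto
  · intro w hw
    rcases hw with hw | hw
    · have := hK1 w hw
      unfold K1p at this
      unfold sd
      omega
    · have := hb w hw
      omega

end DP.Gate
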