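import Pool.Agent.helper98.DP.GatePath

/-!
# Geometry of the two corridors (project dp, gates)

All lengths are multiples of `ℓ`; the annulus is `64 ℓ ≤ sd x v ≤ 128 ℓ`. `K1p` is the thickened ray
to the right, `K2p` the thickened white spiral, which starts and ends at the top and makes two
full turns (counterclockwise).
-/

namespace DP.Gate

open DP

/-- The thickened right ray. -/
def K1p (x : V) (ℓ : ℕ) (v : V) : Prop :=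
  64 * (ℓ : ℤ) ≤ v.1 - x.1 ∧ v.1 - x.1 ≤ 128 * ℓ ∧ -(5 * (ℓ : ℤ)) ≤ v.2 - x.2 ∧
    v.2 - x.2 ≤ 5 * ℓ

/-- Rectangle relative to `x` in multiples of `ℓ`. -/
def Rr (x : V) (ℓ : ℕ) (a b d e : ℤ) (v : V) : Prop :=
  a * ℓ ≤ v.1 - x.1 ∧ v.1 - x.1 ≤ b * ℓ ∧ d * ℓ ≤ v.2 - x.2 ∧ v.2 - x.2 ≤ e * ℓ

/-- The thickened spiral. -/
def K2p (x : V) (ℓ : ℕ) (v : V) : Prop :=
  Rr x ℓ (-5) 5 64 75 v ∨ Rr x ℓ (-75) 5 65 75 v ∨ Rr x ℓ (-75) (-65) (-81) 75 v ∨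
    Rr x ℓ (-75) 87 (-81) (-71) v ∨ Rr x ℓ 77 87 (-81) 93 v ∨ Rr x ℓ (-99) 87 83 93 v ∨
    Rr x ℓ (-99) (-89) (-105) 93 v ∨ Rr x ℓ (-99) 111 (-105) (-95) v ∨
    Rr x ℓ 101 111 (-105) 117 v ∨ Rr x ℓ (-5) 111 107 117 v ∨ Rr x ℓ (-5) 5 107 133 v

/-- Odd number of passed cuts. -/
def Od (x : V) (ℓ : ℕ) (v : V) : Prop :=
  (v.1 - x.1 ≤ 0 ∧ Rr x ℓ (-5) 5 64 75 v) ∨ (v.1 - x.1 ≤ 0 ∧ Rr x ℓ (-75) 5 65 75 v) ∨
    Rr x ℓ (-75) (-65) (-81) 75 v ∨ Rr x ℓ (-75) 87 (-81) (-71) v ∨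
    Rr x ℓ 77 87 (-81) 93 v ∨ (1 ≤ v.1 - x.1 ∧ Rr x ℓ (-99) 87 83 93 v) ∨
    (v.1 - x.1 ≤ 0 ∧ Rr x ℓ (-5) 111 107 117 v) ∨ (v.1 - x.1 ≤ 0 ∧ Rr x ℓ (-5) 5 107 133 v)

/-- Even number of passed cuts. -/
def Ev2 (x : V) (ℓ : ℕ) (v : V) : Prop :=
  (1 ≤ v.1 - x.1 ∧ Rr x ℓ (-5) 5 64 75 v) ∨ (1 ≤ v.1 - x.1 ∧ Rr x ℓ (-75) 5 65 75 v) ∨
    (v.1 - x.1 ≤ 0 ∧ Rr x ℓ (-99) 87 83 93 v) ∨ Rr x ℓ (-99) (-89) (-105) 93 v ∨
    Rr x ℓ (-99) 111 (-105) (-95) v ∨ Rr x ℓ 101 111 (-105) 117 v ∨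
    (1 ≤ v.1 - x.1 ∧ Rr x ℓ (-5) 111 107 117 v) ∨ (1 ≤ v.1 - x.1 ∧ Rr x ℓ (-5) 5 107 133 v)

theorem od_or_ev (x : V) (ℓ : ℕ) (v : V) (h : K2p x ℓ v) : Od x ℓ v ∨ Ev2 x ℓ v := by
  unfold K2p at h
  unfold Od Ev2
  rcases le_or_gt (v.1 - x.1) 0 with h0 | h0
  · tauto
  · have h0 : 1 ≤ v.1 - x.1 := h0
    tauto

theorem adj_bounds {u v : V} (h : Adj u v) : v.1 - u.1 ≤ 1 ∧ -1 ≤ v.1 - u.1 ∧ v.2 - u.2 ≤ 1 ∧
    -1 ≤ v.2 - u.2 := by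
  have := h.1
  unfold sd at this
  omega

theorem od_not_ev (x : V) (ℓ : ℕ) (hℓ : 1 ≤ ℓ) (v : V) (h : Od x ℓ v) : ¬ Ev2 x ℓ v := by
  intro h'
  unfold Od at h
  unfold Ev2 at h'
  rcases h with h | h | h | h | h | h | h | h <;>
  rcases h' with h' | h' | h' | h' | h' | h' | h' | h' <;>
  (simp only [Rr] at h h'; omega)

theorem od_od (x : V) (ℓ : ℕ) (hℓ : 1 ≤ ℓ) (a b : V) (hab : Adj a b) (h : Od x ℓ a)
    (h' : Od x ℓ b) : stp x a b = 0 := by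
  have hb := adj_bounds hab
  unfold Od at h h'
  unfold stp
  rw [if_neg]
  rcases h with h | h | h | h | h | h | h | h <;>
  rcases h' with h' | h' | h' | h' | h' | h' | h' | h' <;>
  (simp only [Rr] at h h'; omega)

theorem ev_ev (x : V) (ℓ : ℕ) (hℓ : 1 ≤ ℓ) (a b : V) (hab : Adj a b) (h : Ev2 x ℓ a)
    (h' : Ev2 x ℓ b) : stp x a b = 0 := by
  have hb := adj_bounds hab
  unfold Ev2 at h h'
  unfold stp
  rw [if_neg]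
  rcases h with h | h | h | h | h | h | h | h <;>
  rcases h' with h' | h' | h' | h' | h' | h' | h' | h' <;>
  (simp only [Rr] at h h'; omega)

theorem od_ev (x : V) (ℓ : ℕ) (hℓ : 1 ≤ ℓ) (a b : V) (hab : Adj a b) (h : Od x ℓ a)
    (h' : Ev2 x ℓ b) : stp x a b ≠ 0 := by
  have hb := adj_bounds hab
  unfold Od at h
  unfold Ev2 at h'
  unfold stp
  rw [if_pos]
  · simp
  rcases h with h | h | h | h | h | h | h | h <;>
  rcases h' with h' | h' | h' | h' | h' | h' | h' | h' <;>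
  (simp only [Rr] at h h'; omega)

theorem stp_symm (g a b : V) : stp g a b = stp g b a := by
  unfold stp
  simp only [or_comm]

theorem parity_ok (x : V) (ℓ : ℕ) (hℓ : 1 ≤ ℓ) (a b : V) (ha : K2p x ℓ a) (hb : K2p x ℓ b)
    (hab : Adj a b) : ((Od x ℓ a ↔ Od x ℓ b) ↔ stp x a b = 0) := by
  rcases od_or_ev x ℓ a ha with h | h <;> rcases od_or_ev x ℓ b hb with h' | h'
  · simp [h, h', od_od x ℓ hℓ a b hab h h']
  · have := od_ev x ℓ hℓ a b hab h h'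
    have h2 : ¬ Od x ℓ b := fun h3 => od_not_ev x ℓ hℓ b h3 h'
    simp [h, h2, this]
  · have := od_ev x ℓ hℓ b a hab.symm h' h
    have h2 : ¬ Od x ℓ a := fun h3 => od_not_ev x ℓ hℓ a h3 h
    rw [stp_symm] at this
    simp [h', h2, this]
  · have h1 : ¬ Od x ℓ a := fun h3 => od_not_ev x ℓ hℓ a h3 h
    have h2 : ¬ Od x ℓ b := fun h3 => od_not_ev x ℓ hℓ b h3 h'
    simp [h1, h2, ev_ev x ℓ hℓ a b hab h h']

/-- Before, inside, after the first passage at the right. -/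
def A1 (x : V) (ℓ : ℕ) (v : V) : Prop :=
  Rr x ℓ (-5) 5 64 75 v ∨ Rr x ℓ (-75) 5 65 75 v ∨ Rr x ℓ (-75) (-65) (-81) 75 v ∨
    Rr x ℓ (-75) 87 (-81) (-71) v ∨ (v.2 - x.2 < -(5 * (ℓ : ℤ)) ∧ Rr x ℓ 77 87 (-81) 93 v)
def M1 (x : V) (ℓ : ℕ) (v : V) : Prop := Rr x ℓ 77 87 (-5) 5 v
def B1 (x : V) (ℓ : ℕ) (v : V) : Prop :=
  (5 * (ℓ : ℤ) < v.2 - x.2 ∧ Rr x ℓ 77 87 (-81) 93 v) ∨ Rr x ℓ (-99) 87 83 93 v ∨
    Rr x ℓ (-99) (-89) (-105) 93 v ∨ Rr x ℓ (-99) 111 (-105) (-95) v ∨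
    Rr x ℓ 101 111 (-105) 117 v ∨ Rr x ℓ (-5) 111 107 117 v ∨ Rr x ℓ (-5) 5 107 133 v

/-- Before, inside, after the second passage at the right. -/
def A2 (x : V) (ℓ : ℕ) (v : V) : Prop :=
  Rr x ℓ (-5) 5 64 75 v ∨ Rr x ℓ (-75) 5 65 75 v ∨ Rr x ℓ (-75) (-65) (-81) 75 v ∨
    Rr x ℓ (-75) 87 (-81) (-71) v ∨ Rr x ℓ 77 87 (-81) 93 v ∨ Rr x ℓ (-99) 87 83 93 v ∨
    Rr x ℓ (-99) (-89) (-105) 93 v ∨ Rr x ℓ (-99) 111 (-105) (-95) v ∨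
    (v.2 - x.2 < -(5 * (ℓ : ℤ)) ∧ Rr x ℓ 101 111 (-105) 117 v)
def M2 (x : V) (ℓ : ℕ) (v : V) : Prop := Rr x ℓ 101 111 (-5) 5 v
def B2 (x : V) (ℓ : ℕ) (v : V) : Prop :=
  (5 * (ℓ : ℤ) < v.2 - x.2 ∧ Rr x ℓ 101 111 (-105) 117 v) ∨ Rr x ℓ (-5) 111 107 117 v ∨
    Rr x ℓ (-5) 5 107 133 v

theorem k2_split1 (x : V) (ℓ : ℕ) (v : V) (h : K2p x ℓ v) : A1 x ℓ v ∨ M1 x ℓ v ∨ B1 x ℓ v := by
  unfold K2p at h
  unfold A1 M1 B1
  rcases h with h | h | h | h | h | h | h | h | h | h | h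
  · tauto
  · tauto
  · tauto
  · tauto
  · by_cases h1 : v.2 - x.2 < -(5 * (ℓ : ℤ))
    · tauto
    by_cases h2 : 5 * (ℓ : ℤ) < v.2 - x.2
    · tauto
    right; left
    simp only [Rr] at h ⊢
    omega
  all_goals tauto

theorem k2_split2 (x : V) (ℓ : ℕ) (v : V) (h : K2p x ℓ v) : A2 x ℓ v ∨ M2 x ℓ v ∨ B2 x ℓ v := by
  unfold K2p at h
  unfold A2 M2 B2
  rcases h with h | h | h | h | h | h | h | h | h | h | h
  · tauto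
  · tauto
  · tauto
  · tauto
  · tauto
  · tauto
  · tauto
  · tauto
  · by_cases h1 : v.2 - x.2 < -(5 * (ℓ : ℤ))
    · tauto
    by_cases h2 : 5 * (ℓ : ℤ) < v.2 - x.2
    · tauto
    right; left
    simp only [Rr] at h ⊢
    omega
  all_goals tauto

theorem a1_b1 (x : V) (ℓ : ℕ) (hℓ : 1 ≤ ℓ) (a b : V) (hab : Adj a b) (h : A1 x ℓ a) :
    ¬ B1 x ℓ b := by
  intro h'
  have hb := adj_bounds hab
  unfold A1 at h
  unfold B1 at h'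
  rcases h with h | h | h | h | h <;> rcases h' with h' | h' | h' | h' | h' | h' | h' <;>
  (simp only [Rr] at h h'; omega)

theorem a1_m1 (x : V) (ℓ : ℕ) (hℓ : 1 ≤ ℓ) (a b : V) (hab : Adj a b) (h : A1 x ℓ a)
    (h' : M1 x ℓ b) : b.2 - x.2 = -(5 * (ℓ : ℤ)) := by
  have hb := adj_bounds hab
  unfold A1 at h
  unfold M1 at h'
  rcases h with h | h | h | h | h <;> (simp only [Rr] at h h'; omega)

theorem m1_b1 (x : V) (ℓ : ℕ) (hℓ : 1 ≤ ℓ) (a b : V) (hab : Adj a b) (h : M1 x ℓ a)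
    (h' : B1 x ℓ b) : a.2 - x.2 = 5 * (ℓ : ℤ) := by
  have hb := adj_bounds hab
  unfold M1 at h
  unfold B1 at h'
  rcases h' with h' | h' | h' | h' | h' | h' | h' <;> (simp only [Rr] at h h'; omega)

theorem a1_disj (x : V) (ℓ : ℕ) (hℓ : 1 ≤ ℓ) (v : V) (h : A1 x ℓ v) : ¬ B1 x ℓ v := by
  intro h'
  unfold A1 at h
  unfold B1 at h'
  rcases h with h | h | h | h | h <;> rcases h' with h' | h' | h' | h' | h' | h' | h' <;>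
  (simp only [Rr] at h h'; omega)

theorem m1_disj (x : V) (ℓ : ℕ) (hℓ : 1 ≤ ℓ) (v : V) (h : M1 x ℓ v) : ¬ B1 x ℓ v := by
  intro h'
  unfold M1 at h
  unfold B1 at h'
  rcases h' with h' | h' | h' | h' | h' | h' | h' <;>
  (simp only [Rr] at h h'; omega)

theorem a2_b2 (x : V) (ℓ : ℕ) (hℓ : 1 ≤ ℓ) (a b : V) (hab : Adj a b) (h : A2 x ℓ a) :
    ¬ B2 x ℓ b := by
  intro h'
  have hb := adj_bounds hab
  unfold A2 at h
  unfold B2 at h'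
  rcases h with h | h | h | h | h | h | h | h | h <;> rcases h' with h' | h' | h' <;>
  (simp only [Rr] at h h'; omega)

theorem a2_m2 (x : V) (ℓ : ℕ) (hℓ : 1 ≤ ℓ) (a b : V) (hab : Adj a b) (h : A2 x ℓ a)
    (h' : M2 x ℓ b) : b.2 - x.2 = -(5 * (ℓ : ℤ)) := by
  have hb := adj_bounds hab
  unfold A2 at h
  unfold M2 at h'
  rcases h with h | h | h | h | h | h | h | h | h <;> (simp only [Rr] at h h'; omega)

theorem m2_b2 (x : V) (ℓ : ℕ) (hℓ : 1 ≤ ℓ) (a b : V) (hab : Adj a b) (h : M2 x ℓ a)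
    (h' : B2 x ℓ b) : a.2 - x.2 = 5 * (ℓ : ℤ) := by
  have hb := adj_bounds hab
  unfold M2 at h
  unfold B2 at h'
  rcases h' with h' | h' | h' <;> (simp only [Rr] at h h'; omega)

theorem a2_disj (x : V) (ℓ : ℕ) (hℓ : 1 ≤ ℓ) (v : V) (h : A2 x ℓ v) : ¬ B2 x ℓ v := by
  intro h'
  unfold A2 at h
  unfold B2 at h'
  rcases h with h | h | h | h | h | h | h | h | h <;> rcases h' with h' | h' | h' <;>
  (simp only [Rr] at h h'; omega)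

theorem m2_disj (x : V) (ℓ : ℕ) (hℓ : 1 ≤ ℓ) (v : V) (h : M2 x ℓ v) : ¬ B2 x ℓ v := by
  intro h'
  unfold M2 at h
  unfold B2 at h'
  rcases h' with h' | h' | h' <;>
  (simp only [Rr] at h h'; omega)

theorem m1_od (x : V) (ℓ : ℕ) (v : V) (h : M1 x ℓ v) : Od x ℓ v := by
  unfold M1 at h
  unfold Od
  right; right; right; right; left
  simp only [Rr] at h ⊢
  omega

theorem m2_ev (x : V) (ℓ : ℕ) (v : V) (h : M2 x ℓ v) : Ev2 x ℓ v := by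
  unfold M2 at h
  unfold Ev2
  right; right; right; right; right; left
  simp only [Rr] at h ⊢
  omega

theorem k2_start (x : V) (ℓ : ℕ) (hℓ : 1 ≤ ℓ) (v : V) (h : K2p x ℓ v) (hv : sd x v = 64 * ℓ) :
    A1 x ℓ v ∧ A2 x ℓ v := by
  unfold sd at hv
  unfold K2p at h
  unfold A1 A2
  rcases h with h | h | h | h | h | h | h | h | h | h | h
  · tauto
  all_goals (exfalso; simp only [Rr] at h; omega)

theorem k2_end (x : V) (ℓ : ℕ) (hℓ : 1 ≤ ℓ) (v : V) (h : K2p x ℓ v) (hv : sd x v = 128 * ℓ) :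
    B1 x ℓ v ∧ B2 x ℓ v := by
  unfold sd at hv
  unfold K2p at h
  unfold B1 B2
  rcases h with h | h | h | h | h | h | h | h | h | h | h
  on_goal 11 => tauto
  all_goals (exfalso; simp only [Rr] at h; omega)

end DP.Gate
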