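import Pool.Agent.helper96.DP.API
import Pool.Agent.helper96.DP.Basic

/-!
# Paths, winding parity and crossings of a middle region (project dp, gates)
-/

namespace DP.Gate

open DP

/-- The path from `A` to `B` through the middle region `M` contains a crossing of `M`. -/
theorem cross_mid {W : Set V} {u v : V} (A M B : V → Prop) (h : Con W u v)
    (hW : ∀ w ∈ W, A w ∨ M w ∨ B w) (hu : A u) (hv : B v)
    (hAB' : ∀ w, A w → ¬ B w) (hMB' : ∀ w, M w → ¬ B w)
    (hAB : ∀ a b, Adj a b → A a → ¬ B b) :
    ∃ u' v' a b : V, Con {w | w ∈ W ∧ M w} u' v' ∧ A a ∧ Adj a u' ∧ B b ∧ Adj v' b := by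
  obtain ⟨huW, h⟩ := h
  have key : (∃ u' v' a b : V, Con {w | w ∈ W ∧ M w} u' v' ∧ A a ∧ Adj a u' ∧ B b ∧ Adj v' b) ∨
      A v ∨ (M v ∧ ∃ u' a : V, A a ∧ Adj a u' ∧ Con {w | w ∈ W ∧ M w} u' v) := by
    clear hv
    induction h with
    | refl => exact Or.inr (Or.inl hu)
    | @tail a b hab h ih =>
      rcases ih with ih | ih | ih
      · exact Or.inl ih
      · rcases hW b h.2 with hb | hb | hb
        · exact Or.inr (Or.inl hb)
        · exact Or.inr (Or.inr ⟨hb, b, a, ih, h.1, Con.refl ⟨h.2, hb⟩⟩)
        · exact absurd hb (hAB a b h.1 ih)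
      · obtain ⟨hMa, u', a', hA, hadj, hcon⟩ := ih
        rcases hW b h.2 with hb | hb | hb
        · exact Or.inr (Or.inl hb)
        · exact Or.inr (Or.inr ⟨hb, u', a', hA, hadj, hcon.tail h.1 ⟨h.2, hb⟩⟩)
        · exact Or.inl ⟨u', a, a', b, hcon, hA, hadj, hb, h.1⟩
  rcases key with h | h | h
  · exact h
  · exact absurd hv (hAB' v h)
  · exact absurd hv (hMB' v h.1)

/-- Number of crossings of the half line for one step. -/
def stp (g : V) (a b : V) : ℕ :=
  if (a.1 = g.1 ∧ b.1 = g.1 + 1 ∧ g.2 < a.2) ∨ (b.1 = g.1 ∧ a.1 = g.1 + 1 ∧ g.2 < b.2) then 1 else 0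

theorem upCross_cons_cons (g a b : V) (t : List V) :
    upCross g (a :: b :: t) = stp g a b + upCross g (b :: t) := by
  unfold upCross stp
  simp only [List.tail_cons, List.zip_cons_cons, List.filter_cons]
  split_ifs with h1 h2 h2
  · simp [Nat.add_comm]
  · exact absurd (by simpa using h1) h2
  · exact absurd (by simpa using h2) h1
  · simp

theorem upCross_single (g a : V) : upCross g [a] = 0 := by
  simp [upCross]

theorem upCross_append (g a : V) (l : List V) : ∀ l' : List V, l'.getLast? = some a →
    upCross g (l' ++ l) = upCross g l' + upCross g (a :: l) := by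
  intro l'
  induction l' with
  | nil => intro h; simp at h
  | cons b t ih =>
    intro h
    cases t with
    | nil =>
      simp only [List.getLast?_singleton, Option.some.injEq] at h
      subst h
      simp [upCross_single]
    | cons c t =>
      rw [List.getLast?_cons_cons] at h
      have := ih h
      rw [List.cons_append, List.cons_append, upCross_cons_cons, upCross_cons_cons,
        ← List.cons_append, this]
      ring

/-- Parity of the number of crossings along a path, from a two-colouring `O`. -/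
theorem parity_path (g : V) (W : Set V) (O : V → Prop)
    (hO : ∀ a ∈ W, ∀ b ∈ W, Adj a b → ((O a ↔ O b) ↔ stp g a b = 0)) :
    ∀ (l : List V) (u v : V), IsPath W l u v → ((O u ↔ O v) ↔ Even (upCross g l)) := by
  intro l
  induction l with
  | nil => intro u v h; exact absurd h.1 (by simp)
  | cons a t ih =>
    intro u v h
    obtain ⟨h1, h2, h3, h4⟩ := h
    simp only [List.head?_cons, Option.some.injEq] at h1
    subst h1
    cases t with
    | nil =>
      simp only [List.getLast?_singleton, Option.some.injEq] at h2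
      subst h2
      simp [upCross_single]
    | cons b t =>
      rw [List.getLast?_cons_cons] at h2
      rw [List.isChain_cons_cons] at h3
      have := ih b v ⟨by simp, h2, h3.2, fun w hw => h4 w (List.mem_cons_of_mem _ hw)⟩
      have h5 := hO a (h4 a (by simp)) b (h4 b (by simp)) h3.1
      rw [upCross_cons_cons, Nat.even_add]
      have h6 : Even (stp g a b) ↔ stp g a b = 0 := by
        unfold stp
        split_ifs <;> simp
      rw [h6]
      tauto

/-- Closed walk from two paths. -/
theorem path_append {W : Set V} {l l' : List V} {u v w : V} (h : IsPath W l u v)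
    (h' : IsPath W l' v w) : IsPath W (l ++ l'.tail) u w := by
  obtain ⟨h1, h2, h3, h4⟩ := h
  obtain ⟨k1, k2, k3, k4⟩ := h'
  cases l' with
  | nil => simp at k1
  | cons a t =>
    simp only [List.head?_cons, Option.some.injEq] at k1
    subst k1
    refine ⟨by rw [List.head?_append, h1]; rfl, ?_, ?_, ?_⟩
    · rw [List.tail_cons, List.getLast?_append]
      cases t with
      | nil =>
        simp only [List.getLast?_singleton, Option.some.injEq] at k2
        subst k2
        simpa using h2
      | cons b t =>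
        rw [List.getLast?_cons_cons] at k2
        rw [k2]; rfl
    · rw [List.tail_cons, List.isChain_append]
      cases t with
      | nil => exact ⟨h3, by simp, by simp⟩
      | cons b t =>
        rw [List.isChain_cons_cons] at k3
        refine ⟨h3, k3.2, ?_⟩
        intro x hx y hy
        rw [h2] at hx
        simp only [Option.mem_def, Option.some.injEq, List.head?_cons] at hx hy
        subst hx; subst hy
        exact k3.1
    · intro z hz
      rcases List.mem_append.1 hz with hz | hz
      · exact h4 z hz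
      · exact k4 z (List.mem_of_mem_tail hz)

/-- A closed walk made of a path with an odd number of crossings and a path without crossings
blocks every connected set from the inside to the outside. -/
theorem closed_blocks (LH : LH_stmt) (g : V) (ℓ : ℕ) (W₁ W₂ : Set V) (O : V → Prop) (p q : V)
    (hO : ∀ a ∈ W₂, ∀ b ∈ W₂, Adj a b → ((O a ↔ O b) ↔ stp g a b = 0))
    (h0 : ∀ a ∈ W₁, ∀ b ∈ W₁, Adj a b → stp g a b = 0)
    (h1 : Con W₁ q p) (h2 : Con W₂ p q) (hpq : ¬ (O p ↔ O q))
    (hin : ∀ w ∈ W₁ ∪ W₂, ℓ < sd g w ∧ sd g w < 3 * ℓ) :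
    ∀ (W : Set V) (u v : V), Con W u v → sd g u ≤ ℓ → 3 * ℓ ≤ sd g v →
      ∃ z ∈ W₁ ∪ W₂, Con W u z := by
  classical
  intro W u v hW hu hv
  obtain ⟨l₁, hl₁⟩ := con_iff_path.1 h1
  obtain ⟨l₂, hl₂⟩ := con_iff_path.1 h2
  have e2 : ¬ Even (upCross g l₂) := fun he => hpq ((parity_path g W₂ O hO l₂ p q hl₂).2 he)
  have e1 : Even (upCross g l₁) :=
    (parity_path g W₁ (fun _ => True) (fun a ha b hb hab => by simp [h0 a ha b hb hab]) l₁ q p
      hl₁).1 (by simp)
  have hU : IsPath (W₁ ∪ W₂) (l₂ ++ l₁.tail) p p :=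
    path_append ⟨hl₂.1, hl₂.2.1, hl₂.2.2.1, fun w hw => Or.inr (hl₂.2.2.2 w hw)⟩
      ⟨hl₁.1, hl₁.2.1, hl₁.2.2.1, fun w hw => Or.inl (hl₁.2.2.2 w hw)⟩
  have hodd : Odd (upCross g (l₂ ++ l₁.tail)) := by
    rw [upCross_append g q l₁.tail l₂ hl₂.2.1]
    have : q :: l₁.tail = l₁ := by
      cases l₁ with
      | nil => exact absurd hl₁.1 (by simp)
      | cons a t =>
        have := hl₁.1
        simp only [List.head?_cons, Option.some.injEq] at this
        subst this
        rfl
    rw [this, ← Nat.not_even_iff_odd, Nat.even_add]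
    tauto
  have hL : Loop (fun w => decide (w ∈ W₁ ∪ W₂)) true g ℓ {w | w ∈ l₂ ++ l₁.tail} := by
    refine ⟨l₂ ++ l₁.tail, p, ⟨hU.1, hU.2.1, hU.2.2.1, ?_⟩, hodd, rfl⟩
    intro w hw
    have := hU.2.2.2 w hw
    exact ⟨(hin w this).1, (hin w this).2, by simpa using this⟩
  obtain ⟨z, hz, hz'⟩ := LH _ true g ℓ _ hL W u v hW hu hv
  exact ⟨z, hU.2.2.2 z hz, hz'⟩

end DP.Gate
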