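import Pool.Agent.helper98.DP.RTBPolar

/-!
# Curves in polar coordinates (project dp, module RTB)
-/

namespace DP.Polar

open DP

/-- The vector from `x` to `v`. -/
noncomputable def vec (x v : V) : ℝ × ℝ := ((v.1 : ℝ) - x.1, (v.2 : ℝ) - x.2)

theorem natAbs_cast (a : ℤ) : ((a.natAbs : ℕ) : ℝ) = |(a : ℝ)| := by
  rw [Nat.cast_natAbs, Int.cast_abs]

theorem sd_vec (x a b : V) : (sd a b : ℝ) = ‖vec x a - vec x b‖ := by
  unfold sd vec
  rw [Prod.norm_def]
  simp only [Prod.mk_sub_mk, Real.norm_eq_abs]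
  push_cast
  rw [natAbs_cast, natAbs_cast]
  push_cast
  congr 2 <;> ring

theorem sd_vec0 (x b : V) : (sd x b : ℝ) = ‖vec x b‖ := by
  unfold sd vec
  rw [Prod.norm_def]
  simp only [Real.norm_eq_abs]
  push_cast
  rw [natAbs_cast, natAbs_cast]
  push_cast
  rw [abs_sub_comm, abs_sub_comm (x.2 : ℝ)]

/-- Rounding. -/
noncomputable def rd (x : V) (p : ℝ × ℝ) : V := (x.1 + round p.1, x.2 + round p.2)

theorem vec_rd (x : V) (p : ℝ × ℝ) : ‖vec x (rd x p) - p‖ ≤ 1 / 2 := by
  unfold vec rd
  rw [Prod.norm_def]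
  have h1 := abs_sub_round p.1
  have h2 := abs_sub_round p.2
  refine max_le ?_ ?_
  · simp only [Real.norm_eq_abs, Prod.fst_sub]
    push_cast
    rw [abs_sub_comm] at h1
    have e : (x.1 : ℝ) + round p.1 - x.1 - p.1 = round p.1 - p.1 := by ring
    rw [e]
    exact h1
  · simp only [Real.norm_eq_abs, Prod.snd_sub]
    push_cast
    rw [abs_sub_comm] at h2
    have e : (x.2 : ℝ) + round p.2 - x.2 - p.2 = round p.2 - p.2 := by ring
    rw [e]
    exact h2

theorem rd_vec (x v : V) (p : ℝ × ℝ) (h : vec x v = p) : rd x p = v := by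
  subst h
  unfold rd vec
  simp only
  have h1 : round ((v.1 : ℝ) - x.1) = v.1 - x.1 := by
    have : ((v.1 : ℝ) - x.1) = ((v.1 - x.1 : ℤ) : ℝ) := by push_cast; ring
    rw [this, round_intCast]
  have h2 : round ((v.2 : ℝ) - x.2) = v.2 - x.2 := by
    have : ((v.2 : ℝ) - x.2) = ((v.2 - x.2 : ℤ) : ℝ) := by push_cast; ring
    rw [this, round_intCast]
  rw [h1, h2]
  ext <;> simp

/-- The standard points. -/
theorem vec_zpt (x : V) (r l : ℕ) : vec x (zpt x r l) = (r : ℝ) • E (1 + 2 * ((l % 4 : ℕ) : ℝ)) := by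
  unfold zpt vec
  have h4 : l % 4 < 4 := Nat.mod_lt _ (by norm_num)
  have hE : ∀ q : ℕ, q < 4 → E (1 + 2 * (q : ℝ)) =
      if q = 0 then (1, 0) else if q = 1 then (0, 1) else if q = 2 then (-1, 0) else (0, -1) := by
    intro q hq
    interval_cases q
    · rcases E_cases 1 0 (by norm_num) (by norm_num) with ⟨h2, h⟩ | ⟨h2, h4, h⟩ | ⟨h4, h6, h⟩ | ⟨h6, h⟩
      · norm_num at h ⊢
        exact h
      all_goals norm_num at *
    · rcases E_cases 3 0 (by norm_num) (by norm_num) with ⟨h2, h⟩ | ⟨h2, h4, h⟩ | ⟨h4, h6, h⟩ | ⟨h6, h⟩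
      · norm_num at h2
      · norm_num at h ⊢
        exact h
      all_goals norm_num at *
    · rcases E_cases 5 0 (by norm_num) (by norm_num) with ⟨h2, h⟩ | ⟨h2, h4, h⟩ | ⟨h4, h6, h⟩ | ⟨h6, h⟩
      · norm_num at h2
      · norm_num at h4
      · norm_num at h ⊢
        exact h
      all_goals norm_num at *
    · rcases E_cases 7 0 (by norm_num) (by norm_num) with ⟨h2, h⟩ | ⟨h2, h4, h⟩ | ⟨h4, h6, h⟩ | ⟨h6, h⟩
      · norm_num at h2
      · norm_num at h4
      · norm_num at h6
      · norm_num at h ⊢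
        exact h
  rw [hE _ h4]
  split_ifs with h0 h1 h2
  · ext <;> simp
  · ext <;> simp
  · ext <;> simp
  · ext <;> simp

/-- A point of the circle from its position. -/
theorem vec_pos (x : V) (n : ℕ) (hn : 1 ≤ n) (y : V) (hy : y ∈ bd x n) (k : ℤ) :
    vec x y = (n : ℝ) • E ((pos x n y : ℝ) / n + 8 * k) := by
  have hn0 : (0 : ℝ) < n := by exact_mod_cast hn
  have hy' : sd x y = n := hy
  unfold sd at hy'
  unfold pos
  have key : ∀ (p : ℤ) (u v : ℝ), 0 ≤ p → p ≤ 8 * n → (∀ a : ℝ, a = (p : ℝ) / n →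
      (a ≤ 2 → (u = n ∧ v = n * (a - 1))) ∧ (2 ≤ a → a ≤ 4 → (u = n * (3 - a) ∧ v = n)) ∧
      (4 ≤ a → a ≤ 6 → (u = -n ∧ v = n * (5 - a))) ∧ (6 ≤ a → (u = n * (a - 7) ∧ v = -n))) →
      ((u, v) : ℝ × ℝ) = (n : ℝ) • E ((p : ℝ) / n + 8 * k) := by
    intro p u v hp hp8 h
    have h0 : 0 ≤ (p : ℝ) / n := by
      apply div_nonneg _ hn0.le
      exact_mod_cast hp
    have h8 : (p : ℝ) / n ≤ 8 := by
      rw [div_le_iff₀ hn0]
      exact_mod_cast hp8
    obtain ⟨g1, g2, g3, g4⟩ := h _ rfl
    rcases E_cases ((p : ℝ) / n) k h0 h8 with ⟨c2, c⟩ | ⟨c2, c4, c⟩ | ⟨c4, c6, c⟩ | ⟨c6, c⟩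
    · rw [c, (g1 c2).1, (g1 c2).2]; ext <;> simp
    · rw [c, (g2 c2 c4).1, (g2 c2 c4).2]; ext <;> simp
    · rw [c, (g3 c4 c6).1, (g3 c4 c6).2]; ext <;> simp
    · rw [c, (g4 c6).1, (g4 c6).2]; ext <;> simp
  have hX : vec x y = (((y.1 - x.1 : ℤ) : ℝ), ((y.2 - x.2 : ℤ) : ℝ)) := by
    unfold vec
    push_cast
    rfl
  rw [hX]
  set X : ℤ := y.1 - x.1 with hXd
  set Y : ℤ := y.2 - x.2 with hYd
  have cX : ∀ z : ℤ, (z : ℝ) / n * n = z := fun z => by field_simp
  split_ifs with h1 h2 h3
  · -- right side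
    apply key
    · omega
    · omega
    intro a ha
    have hna : (n : ℝ) * a = n + Y := by
      rw [ha]; push_cast; field_simp
    have hXn : (X : ℝ) = n := by exact_mod_cast h1.1
    have hYn : (Y : ℝ) ≤ n := by
      have : Y ≤ n := by omega
      exact_mod_cast this
    have ha2 : a ≤ 2 := by
      by_contra h
      push Not at h
      nlinarith
    refine ⟨fun _ => ⟨hXn, by linarith⟩, fun h h' => ?_, fun h h' => by linarith, fun h => by linarith⟩
    have : a = 2 := le_antisymm ha2 h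
    rw [this] at hna ⊢
    constructor <;> nlinarith
  · -- top
    apply key
    · omega
    · omega
    intro a ha
    have hna : (n : ℝ) * a = 3 * n - X := by
      rw [ha]; push_cast; field_simp
    have hYn : (Y : ℝ) = n := by exact_mod_cast h2
    have hX1 : (X : ℝ) ≤ n := by
      have : X ≤ n := by omega
      exact_mod_cast this
    have hX2 : -(n : ℝ) ≤ X := by
      have : -(n : ℤ) ≤ X := by omega
      exact_mod_cast this
    have ha2 : 2 ≤ a := by
      by_contra h
      push Not at h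
      nlinarith
    have ha4 : a ≤ 4 := by
      by_contra h
      push Not at h
      nlinarith
    refine ⟨fun h => ?_, fun h h' => ⟨by linarith, hYn⟩, fun h h' => ?_, fun h => by linarith⟩
    · have : a = 2 := le_antisymm h ha2
      rw [this] at hna ⊢
      constructor <;> nlinarith
    · have : a = 4 := le_antisymm ha4 h
      rw [this] at hna ⊢
      constructor <;> nlinarith
  · -- left
    apply key
    · omega
    · omega
    intro a ha
    have hna : (n : ℝ) * a = 5 * n - Y := by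
      rw [ha]; push_cast; field_simp
    have hXn : (X : ℝ) = -n := by exact_mod_cast h3
    have hX1 : (Y : ℝ) ≤ n := by
      have : Y ≤ n := by omega
      exact_mod_cast this
    have hX2 : -(n : ℝ) ≤ Y := by
      have : -(n : ℤ) ≤ Y := by omega
      exact_mod_cast this
    have ha2 : 4 ≤ a := by
      by_contra h
      push Not at h
      nlinarith
    have ha4 : a ≤ 6 := by
      by_contra h
      push Not at h
      nlinarith
    refine ⟨fun h => by linarith, fun h h' => ?_, fun h h' => ⟨hXn, by linarith⟩, fun h => ?_⟩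
    · have : a = 4 := le_antisymm h' ha2
      rw [this] at hna ⊢
      constructor <;> nlinarith
    · have : a = 6 := le_antisymm ha4 h
      rw [this] at hna ⊢
      constructor <;> nlinarith
  · -- bottom
    apply key
    · omega
    · omega
    intro a ha
    have hna : (n : ℝ) * a = 7 * n + X := by
      rw [ha]; push_cast; field_simp
    have hYn : (Y : ℝ) = -n := by
      have : Y = -(n : ℤ) := by omega
      exact_mod_cast this
    have hX1 : (X : ℝ) ≤ n := by
      have : X ≤ n := by omega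
      exact_mod_cast this
    have hX2 : -(n : ℝ) ≤ X := by
      have : -(n : ℤ) ≤ X := by omega
      exact_mod_cast this
    have ha2 : 6 ≤ a := by
      by_contra h
      push Not at h
      nlinarith
    refine ⟨fun h => by linarith, fun h h' => by linarith, fun h h' => ?_, fun h => ⟨by linarith, hYn⟩⟩
    have : a = 6 := le_antisymm h' ha2
    rw [this] at hna ⊢
    constructor <;> nlinarith

end DP.Polar
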