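import Pool.Agent.helper96.DP.SpecE
import Pool.Agent.helper96.DP.Basic

/-!
# Polar coordinates of the supremum norm (project dp, module RTB)
-/

namespace DP.Polar

open DP

/-- Distance to `8 ℤ`. -/
noncomputable def D8 (u : ℝ) : ℝ := |u - 8 * (round (u / 8) : ℤ)|

theorem D8_le (u : ℝ) (m : ℤ) : D8 u ≤ |u - 8 * m| := by
  have h := round_le (u / 8) m
  unfold D8
  have h1 : |u - 8 * (round (u / 8) : ℤ)| = 8 * |u / 8 - (round (u / 8) : ℤ)| := by
    rw [← abs_of_pos (show (0 : ℝ) < 8 by norm_num), ← abs_mul, abs_of_pos (show (0 : ℝ) < 8 by norm_num)]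
    congr 1
    ring
  have h2 : |u - 8 * (m : ℝ)| = 8 * |u / 8 - m| := by
    rw [← abs_of_pos (show (0 : ℝ) < 8 by norm_num), ← abs_mul, abs_of_pos (show (0 : ℝ) < 8 by norm_num)]
    congr 1
    ring
  rw [h1, h2]
  linarith

theorem D8_lip' (u v : ℝ) : D8 u ≤ D8 v + |u - v| := by
  have h := D8_le u (round (v / 8))
  have h2 : |u - 8 * ((round (v / 8) : ℤ) : ℝ)| ≤ |v - 8 * ((round (v / 8) : ℤ) : ℝ)| + |u - v| := by
    have := abs_add_le (v - 8 * ((round (v / 8) : ℤ) : ℝ)) (u - v)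
    have e : v - 8 * ((round (v / 8) : ℤ) : ℝ) + (u - v) = u - 8 * ((round (v / 8) : ℤ) : ℝ) := by ring
    rw [e] at this
    exact this
  unfold D8 at *
  linarith

theorem D8_lip (u v : ℝ) : |D8 u - D8 v| ≤ |u - v| := by
  rw [abs_le]
  have h1 := D8_lip' u v
  have h2 := D8_lip' v u
  rw [abs_sub_comm v u] at h2
  constructor <;> linarith

theorem D8_le4 (u : ℝ) : D8 u ≤ 4 := by
  have h := abs_sub_round (u / 8)
  unfold D8
  have h1 : |u - 8 * (round (u / 8) : ℤ)| = 8 * |u / 8 - (round (u / 8) : ℤ)| := by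
    rw [← abs_of_pos (show (0 : ℝ) < 8 by norm_num), ← abs_mul, abs_of_pos (show (0 : ℝ) < 8 by norm_num)]
    congr 1
    ring
  rw [h1]
  linarith

theorem D8_eq (u : ℝ) (m : ℤ) (h : |u - 8 * m| ≤ 4) : D8 u = |u - 8 * m| := by
  refine le_antisymm (D8_le u m) ?_
  unfold D8
  set r : ℤ := round (u / 8) with hr
  rcases lt_trichotomy r m with h1 | h1 | h1
  · have h2 : (r : ℝ) + 1 ≤ m := by exact_mod_cast h1
    rw [abs_le] at h
    have h3 : 4 ≤ u - 8 * (r : ℝ) := by linarith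
    rw [abs_of_nonneg (show (0 : ℝ) ≤ u - 8 * r by linarith)]
    rw [← abs_le] at h
    linarith
  · rw [h1]
  · have h2 : (m : ℝ) + 1 ≤ r := by exact_mod_cast h1
    rw [abs_le] at h
    have h3 : u - 8 * (r : ℝ) ≤ -4 := by linarith
    rw [abs_of_nonpos (show u - 8 * r ≤ (0 : ℝ) by linarith)]
    rw [← abs_le] at h
    linarith

/-- Clipping. -/
noncomputable def clip (u : ℝ) : ℝ := max (-1) (min 1 u)

theorem clip_lip (u v : ℝ) : |clip u - clip v| ≤ |u - v| := by
  have h1 := abs_max_sub_max_le_max (-1) (min 1 u) (-1) (min 1 v)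
  have h2 := abs_min_sub_min_le_max 1 u 1 v
  have h3 : (0 : ℝ) ≤ |u - v| := abs_nonneg _
  rw [sub_self, abs_zero] at h1 h2
  unfold clip
  exact h1.trans (max_le h3 (h2.trans (max_le h3 le_rfl)))

/-- Points of the unit square circle. -/
noncomputable def E (θ : ℝ) : ℝ × ℝ := (clip (D8 (θ - 5) - 2), clip (D8 (θ - 7) - 2))

theorem E_lip (θ θ' : ℝ) : ‖E θ - E θ'‖ ≤ |θ - θ'| := by
  rw [Prod.norm_def]
  refine max_le ?_ ?_
  · refine (clip_lip _ _).trans ?_
    have := D8_lip (θ - 5) (θ' - 5)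
    have e : D8 (θ - 5) - 2 - (D8 (θ' - 5) - 2) = D8 (θ - 5) - D8 (θ' - 5) := by ring
    have e' : θ - 5 - (θ' - 5) = θ - θ' := by ring
    rw [e]; rw [e'] at this; exact this
  · refine (clip_lip _ _).trans ?_
    have := D8_lip (θ - 7) (θ' - 7)
    have e : D8 (θ - 7) - 2 - (D8 (θ' - 7) - 2) = D8 (θ - 7) - D8 (θ' - 7) := by ring
    have e' : θ - 7 - (θ' - 7) = θ - θ' := by ring
    rw [e]; rw [e'] at this; exact this

/-- Explicit values. -/
theorem E_cases (a : ℝ) (k : ℤ) (h0 : 0 ≤ a) (h8 : a ≤ 8) :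
    (a ≤ 2 ∧ E (a + 8 * k) = (1, a - 1)) ∨ (2 ≤ a ∧ a ≤ 4 ∧ E (a + 8 * k) = (3 - a, 1)) ∨
      (4 ≤ a ∧ a ≤ 6 ∧ E (a + 8 * k) = (-1, 5 - a)) ∨ (6 ≤ a ∧ E (a + 8 * k) = (a - 7, -1)) := by
  have e1 : clip (D8 (a + 8 * k - 5) - 2) = clip (|a - 5| - 2) := by
    rcases le_total a 1 with h | h
    · have h1 : |a + 8 * (k : ℝ) - 5 - 8 * ((k - 1 : ℤ) : ℝ)| = a + 3 := by
        push_cast
        rw [abs_of_nonneg (by linarith)]
        ring
      rw [D8_eq (a + 8 * k - 5) (k - 1) (by rw [h1]; linarith), h1,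
        abs_of_nonpos (show a - 5 ≤ 0 by linarith)]
      unfold clip
      rw [min_eq_left (by linarith), min_eq_left (by linarith)]
    · have h1 : |a + 8 * (k : ℝ) - 5 - 8 * (k : ℝ)| = |a - 5| := by
        congr 1
        ring
      rw [D8_eq (a + 8 * k - 5) k (by rw [h1, abs_le]; constructor <;> linarith), h1]
  have e2 : clip (D8 (a + 8 * k - 7) - 2) = clip (2 - |a - 3|) := by
    rcases le_total a 3 with h | h
    · have h1 : |a + 8 * (k : ℝ) - 7 - 8 * ((k - 1 : ℤ) : ℝ)| = a + 1 := by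
        push_cast
        rw [abs_of_nonneg (by linarith)]
        ring
      rw [D8_eq (a + 8 * k - 7) (k - 1) (by rw [h1]; linarith), h1,
        abs_of_nonpos (show a - 3 ≤ 0 by linarith)]
      congr 1
      ring
    · have h1 : |a + 8 * (k : ℝ) - 7 - 8 * (k : ℝ)| = |a - 7| := by
        congr 1
        ring
      rw [D8_eq (a + 8 * k - 7) k (by rw [h1, abs_le]; constructor <;> linarith), h1,
        abs_of_nonneg (show 0 ≤ a - 3 by linarith)]
      rcases le_total a 7 with h7 | h7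
      · rw [abs_of_nonpos (show a - 7 ≤ 0 by linarith)]
        congr 1
        ring
      · rw [abs_of_nonneg (show 0 ≤ a - 7 by linarith)]
        unfold clip
        rw [min_eq_right (by linarith), min_eq_right (by linarith), max_eq_left (by linarith),
          max_eq_left (by linarith)]
  unfold E
  rw [e1, e2]
  rcases le_total a 2 with h2 | h2
  · left
    refine ⟨h2, ?_⟩
    rw [abs_of_nonpos (show a - 5 ≤ 0 by linarith), abs_of_nonpos (show a - 3 ≤ 0 by linarith)]
    unfold clip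
    rw [min_eq_left (by linarith), max_eq_right (by norm_num), min_eq_right (by linarith),
      max_eq_right (by linarith)]
    ext <;> simp only
    ring
  rcases le_total a 4 with h4 | h4
  · right; left
    refine ⟨h2, h4, ?_⟩
    have h3 : |a - 3| ≤ 1 := by rw [abs_le]; constructor <;> linarith
    rw [abs_of_nonpos (show a - 5 ≤ 0 by linarith)]
    unfold clip
    rw [min_eq_right (by linarith), max_eq_right (by linarith), min_eq_left (by linarith),
      max_eq_right (by norm_num)]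
    ext <;> simp only
    ring
  rcases le_total a 6 with h6 | h6
  · right; right; left
    refine ⟨h4, h6, ?_⟩
    have h3 : |a - 5| ≤ 1 := by rw [abs_le]; constructor <;> linarith
    rw [abs_of_nonneg (show 0 ≤ a - 3 by linarith)]
    unfold clip
    rw [min_eq_right (by linarith), max_eq_left (by linarith), min_eq_right (by linarith),
      max_eq_right (by linarith)]
    ext <;> simp only
    ring
  · right; right; right
    refine ⟨h6, ?_⟩
    rw [abs_of_nonneg (show 0 ≤ a - 3 by linarith), abs_of_nonneg (show 0 ≤ a - 5 by linarith)]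
    unfold clip
    rw [min_eq_right (by linarith), max_eq_right (by linarith), min_eq_right (by linarith),
      max_eq_left (by linarith)]
    ext <;> simp only
    ring

theorem decomp (θ : ℝ) : ∃ (a : ℝ) (k : ℤ), 0 ≤ a ∧ a ≤ 8 ∧ θ = a + 8 * k := by
  refine ⟨θ - 8 * ⌊θ / 8⌋, ⌊θ / 8⌋, ?_, ?_, by ring⟩
  · have := Int.floor_le (θ / 8)
    linarith
  · have := (Int.lt_floor_add_one (θ / 8)).le
    linarith

theorem E_norm (θ : ℝ) : ‖E θ‖ = 1 := by
  obtain ⟨a, k, h0, h8, rfl⟩ := decomp θ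
  rw [Prod.norm_def]
  rcases E_cases a k h0 h8 with ⟨h2, h⟩ | ⟨h2, h4, h⟩ | ⟨h4, h6, h⟩ | ⟨h6, h⟩
  · rw [h]
    simp only [Real.norm_eq_abs, abs_one]
    rw [max_eq_left]
    rw [abs_le]; constructor <;> linarith
  · rw [h]
    simp only [Real.norm_eq_abs, abs_one]
    rw [max_eq_right]
    rw [abs_le]; constructor <;> linarith
  · rw [h]
    simp only [Real.norm_eq_abs, abs_neg, abs_one]
    rw [max_eq_left]
    rw [abs_le]; constructor <;> linarith
  · rw [h]
    simp only [Real.norm_eq_abs, abs_neg, abs_one]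
    rw [max_eq_right]
    rw [abs_le]; constructor <;> linarith

/-- Different angles give different points, quantitatively. -/
theorem E_sep (θ θ' δ : ℝ) (h : ∀ m : ℤ, δ ≤ |θ - θ' - 8 * m|) : δ / 2 ≤ ‖E θ - E θ'‖ := by
  obtain ⟨a, k, h0, h8, rfl⟩ := decomp θ
  obtain ⟨b, k', h0', h8', rfl⟩ := decomp θ'
  have g1 : δ ≤ |a - b| := by
    have := h (k - k')
    push_cast at this
    have e : a + 8 * (k : ℝ) - (b + 8 * (k' : ℝ)) - 8 * ((k : ℝ) - k') = a - b := by ring
    rwa [e] at this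
  have g2 : δ ≤ |a - b - 8| := by
    have := h (k - k' + 1)
    push_cast at this
    have e : a + 8 * (k : ℝ) - (b + 8 * (k' : ℝ)) - 8 * ((k : ℝ) - k' + 1) = a - b - 8 := by ring
    rwa [e] at this
  have g3 : δ ≤ |a - b + 8| := by
    have := h (k - k' - 1)
    push_cast at this
    have e : a + 8 * (k : ℝ) - (b + 8 * (k' : ℝ)) - 8 * ((k : ℝ) - k' - 1) = a - b + 8 := by ring
    rwa [e] at this
  clear h
  rw [abs_of_nonpos (show a - b - 8 ≤ 0 by linarith)] at g2
  rw [abs_of_nonneg (show 0 ≤ a - b + 8 by linarith)] at g3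
  by_contra hcon
  push Not at hcon
  have hn : |(E (a + 8 * k) - E (b + 8 * k')).1| < δ / 2 ∧
      |(E (a + 8 * k) - E (b + 8 * k')).2| < δ / 2 := by
    rw [Prod.norm_def] at hcon
    exact ⟨lt_of_le_of_lt (le_max_left _ _) hcon, lt_of_le_of_lt (le_max_right _ _) hcon⟩
  obtain ⟨n1, n2⟩ := hn
  rw [abs_lt] at n1 n2
  have g1' : δ ≤ a - b ∨ δ ≤ b - a := by
    rcases le_total 0 (a - b) with h | h
    · left; rwa [abs_of_nonneg h] at g1
    · right; rw [abs_of_nonpos h] at g1; linarith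
  clear g1
  rcases E_cases a k h0 h8 with ⟨c2, c⟩ | ⟨c2, c4, c⟩ | ⟨c4, c6, c⟩ | ⟨c6, c⟩ <;>
  rcases E_cases b k' h0' h8' with ⟨d2, d⟩ | ⟨d2, d4, d⟩ | ⟨d4, d6, d⟩ | ⟨d6, d⟩ <;>
  (rw [c, d] at n1 n2; simp only [Prod.mk_sub_mk] at n1 n2; rcases g1' with g1 | g1 <;> linarith)

end DP.Polar
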